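import Pool.Agent.W734.NS.Split

/-!
Frequency windows for the Navier-Stokes equations.
-/

open MeasureTheory Set Filter Topology H459R3.NS
open scoped ContDiff ENNReal

namespace Pool.Agent.W734.NS

/-- The pointwise bound of the enstrophy production. -/
theorem prod_le {p : ℝ≥0∞} (hp : 3 < p) {K : ℝ} (hK : 0 ≤ K) :
    ∃ D D2 κ : ℝ, 0 ≤ D ∧ 0 ≤ D2 ∧ 0 < κ ∧ ∀ (ν β A M N E G H : ℝ) (a v w : Fin 3 → V → ℝ)
      (Q : Set K3), 0 < ν → 0 ≤ β → 1 ≤ M → 0 < N → 0 ≤ E → GH2 a G H →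
      GH2 v (K * G) (K * H) → (∀ i, nrm (v i) ≤ K * E) →
      (∀ i k, M < len k → len k ≤ N → fr (v i) k = 0) → DimTwo A Q →
      (∀ i, SP (w i)) → (∀ i k, k ∉ Q → fr (w i) k = 0) →
      (∑ i, ∑ j, ∫ x in cube, pd j (w i) x ^ 2 ≤ (K * G) ^ 2) →
      (∀ i, eLpNorm (fun x => a i x - v i x - w i x) p (volume.restrict cube)
        ≤ ENNReal.ofReal β) →
      G ^ 2 ≤ κ * (ν ^ 2 * N) →
      -(2 * cub a) ≤ ν * H ^ 2 + (D * (ν * (β / ν) ^ (2 / (1 - th p))) + D2 * A / ν * G ^ 2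
        + 162 * (2 * Real.pi * M * Real.sqrt (27 * M ^ 3) * (K * E)) * K ^ 2) * G ^ 2 := by
  set θ := th p with hθ
  have hθ0 : 0 ≤ θ := th_nonneg p
  have hθ1 : θ < 1 := th_lt_one hp
  obtain ⟨C1, hC10, hC1⟩ := mul_of_Lp hp
  obtain ⟨C6, hC60, hC6⟩ := cub_window
  set MK : ℝ := 1 + K + K ^ 2 with hMK
  have hMK0 : 0 < MK := by positivity
  obtain ⟨D, hD0, hD⟩ := young (ν := 1) (c := 108 * MK * C1) hθ0 hθ1 one_pos (by positivity)
  refine ⟨D, 8 * MK ^ 2 * K ^ 2 / 9, 1 / (8 * C6 * K ^ 3 + 1) ^ 2, hD0, by positivity,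
    by positivity, ?_⟩
  intro ν β A M N E G H a v w Q hν hβ hM hN hE ha hv hvE hvk hQ hw hwQ hwG hLp hG
  have hA : 0 ≤ A := hQ.nonneg
  have hG0 := ha.g0
  have hH0 := ha.h0
  have hcmp := cub_compare_mul (a := a) (v := v) (w := w) hK (mul_nonneg hC10 hβ) hθ0 hθ1 hQ ha hv
    hw hwQ hwG (fun i => hC1 _ _ (((ha.sp i).sub (hv.sp i)).sub (hw i)).cont hβ (hLp i))
  have hcv := (abs_le.1 (hC6 v M N (K * G) (K * H) (K * E) hM hN hv hvE hvk)).1
  set X := G ^ (1 - θ) * H ^ θ * H with hX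
  -- first term
  have hX0 : 0 ≤ X := by positivity
  have h1 : 108 * MK * C1 * (β * X) ≤ ν / 2 * H ^ 2 + D * (ν * (β / ν) ^ (2 / (1 - θ))) * G ^ 2 := by
    have h2 := hD (β / ν) G H (by positivity) hG0 hH0
    have h3 := mul_le_mul_of_nonneg_left h2 hν.le
    have e1 : ν * (108 * MK * C1 * (β / ν * X)) = 108 * MK * C1 * (β * X) := by
      field_simp
    rw [e1] at h3
    refine h3.trans (le_of_eq ?_)
    ring
  -- second term
  set r := Real.sqrt (2 * A) with hr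
  have hr2 : r ^ 2 = 2 * A := Real.sq_sqrt (by positivity)
  have h4 : 2 * MK * (r * K / 3 * (G ^ 2 * H))
      ≤ ν / 4 * H ^ 2 + 8 * MK ^ 2 * K ^ 2 / 9 * A / ν * G ^ 2 * G ^ 2 := by
    have h5 : 0 ≤ (ν * H / 2 - 2 * MK * r * K / 3 * G ^ 2) ^ 2 / ν := by positivity
    have e : (ν * H / 2 - 2 * MK * r * K / 3 * G ^ 2) ^ 2 / ν
        = ν / 4 * H ^ 2 + 4 * MK ^ 2 * K ^ 2 / 9 * (r ^ 2) / ν * G ^ 2 * G ^ 2
          - 2 * MK * (r * K / 3 * (G ^ 2 * H)) := by
      field_simp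
      ring
    rw [hr2] at e
    have e' : 4 * MK ^ 2 * K ^ 2 / 9 * (2 * A) / ν * G ^ 2 * G ^ 2
        = 8 * MK ^ 2 * K ^ 2 / 9 * A / ν * G ^ 2 * G ^ 2 := by ring
    linarith
  -- third term
  have h6 : 2 * (C6 * (K * G * (N ^ (-(1 / 2) : ℝ) * (K * H) ^ 2))) ≤ ν / 4 * H ^ 2 := by
    have hNs : N ^ (-(1 / 2) : ℝ) = 1 / Real.sqrt N := by
      rw [Real.rpow_neg hN.le, Real.sqrt_eq_rpow]
      exact (one_div _).symm
    have hsN : 0 < Real.sqrt N := Real.sqrt_pos.2 hN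
    have hsN2 : Real.sqrt N ^ 2 = N := Real.sq_sqrt hN.le
    set L := 8 * C6 * K ^ 3 + 1 with hL
    have hL0 : 0 < L := by positivity
    have hGL : L * G ≤ ν * Real.sqrt N := by
      have : (L * G) ^ 2 ≤ (ν * Real.sqrt N) ^ 2 := by
        rw [mul_pow, mul_pow, hsN2]
        rw [one_div, ← div_eq_inv_mul, le_div_iff₀ (by positivity)] at hG
        linarith
      exact (pow_le_pow_iff_left₀ (by positivity) (by positivity) (by norm_num)).1 this
    have h7 : 8 * C6 * K ^ 3 * G ≤ ν * Real.sqrt N := by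
      rw [hL] at hGL
      linarith
    rw [hNs]
    have h8 : 8 * C6 * K ^ 3 * G / Real.sqrt N ≤ ν := by
      rw [div_le_iff₀ hsN]; exact h7
    calc 2 * (C6 * (K * G * (1 / Real.sqrt N * (K * H) ^ 2)))
        = (8 * C6 * K ^ 3 * G / Real.sqrt N) / 4 * H ^ 2 := by
          field_simp
          ring
      _ ≤ ν / 4 * H ^ 2 := by gcongr
  have e : 2 * (MK * (54 * (C1 * β * X) + r * K / 3 * (G ^ 2 * H)))
      = 108 * MK * C1 * (β * X) + 2 * MK * (r * K / 3 * (G ^ 2 * H)) := by ring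
  have e2 : 2 * (81 * (2 * Real.pi * M * Real.sqrt (27 * M ^ 3) * (K * E) * (K * G) ^ 2))
      = 162 * (2 * Real.pi * M * Real.sqrt (27 * M ^ 3) * (K * E)) * K ^ 2 * G ^ 2 := by ring
  have h9 : -(2 * cub a) ≤ 2 * (MK * (54 * (C1 * β * X) + r * K / 3 * (G ^ 2 * H)))
      + 2 * (81 * (2 * Real.pi * M * Real.sqrt (27 * M ^ 3) * (K * E) * (K * G) ^ 2))
      + 2 * (C6 * (K * G * (N ^ (-(1 / 2) : ℝ) * (K * H) ^ 2))) := by linarith
  rw [e, e2] at h9
  have e3 : (D * (ν * (β / ν) ^ (2 / (1 - θ))) + 8 * MK ^ 2 * K ^ 2 / 9 * A / ν * G ^ 2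
        + 162 * (2 * Real.pi * M * Real.sqrt (27 * M ^ 3) * (K * E)) * K ^ 2) * G ^ 2
      = D * (ν * (β / ν) ^ (2 / (1 - θ))) * G ^ 2
        + 8 * MK ^ 2 * K ^ 2 / 9 * A / ν * G ^ 2 * G ^ 2
        + 162 * (2 * Real.pi * M * Real.sqrt (27 * M ^ 3) * (K * E)) * K ^ 2 * G ^ 2 := by ring
  rw [e3]
  linarith

variable {ν T : ℝ} {u : ℝ → V → V} {P : ℝ → V → ℝ}

/-- A Gronwall inequality with a bootstrap. -/
theorem boot0 (h : IsSol ν T u P) (hν : 0 < ν) {t' : ℝ} (ht' : t' ∈ Ico 0 T) {g1 : ℝ → ℝ}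
    {g2 g3 B1 Kn A : ℝ} (hA : 0 < A) (hg10 : ∀ s ∈ Ioo 0 t', 0 ≤ g1 s)
    (hg1i : IntegrableOn g1 (Icc 0 t'))
    (hg1B : ∀ t ∈ Icc 0 t', ∫ s in (0 : ℝ)..t, g1 s ≤ B1) (hg2 : 0 ≤ g2) (hg3 : 0 ≤ g3)
    (hd : ∀ s ∈ Ioo 0 t', enstrophy (u s) ≤ Kn → -(2 * cub (fun i y => u s y i))
      ≤ ν * palin (u s) + (g1 s + g2 * enstrophy (u s) + g3) * enstrophy (u s))
    (hfin : (g3 * (energy (u 0) / (2 * ν)) + A + enstrophy (u 0))
      * Real.exp (B1 + g2 * (energy (u 0) / (2 * ν)) + 1) < Kn) :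
    ∀ t ∈ Icc 0 t', enstrophy (u t) < Kn := by
  set y : ℝ → ℝ := fun s => enstrophy (u s) with hy
  have hy0 : ∀ s, 0 ≤ y s := fun s => enstrophy_nonneg _
  set E2 := energy (u 0) / (2 * ν) with hE2
  have hE20 : 0 ≤ E2 := div_nonneg (energy_nonneg _) (by positivity)
  set A0 := g3 * E2 + A with hA0
  have hA00 : 0 < A0 := by positivity
  -- the bound while the enstrophy is at most `Kn`
  have hbd : ∀ t ∈ Icc 0 t', (∀ s ∈ Ioo 0 t, y s ≤ Kn) → y t < Kn := by
    intro t ht hK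
    have htT : t ∈ Ico 0 T := ⟨ht.1, ht.2.trans_lt ht'.2⟩
    have hyc : ContinuousOn y (Icc 0 t) :=
      h.enstrophy_continuousOn.mono fun s hs => ⟨hs.1, hs.2.trans_lt htT.2⟩
    have hpos : ∀ s, 0 < y s + A0 := fun s => by linarith [hy0 s]
    have hc : ContinuousOn (fun s => Real.log (y s + A0)) (Icc 0 t) :=
      (hyc.add continuousOn_const).log fun s _ => (hpos s).ne'
    have hd' : ∀ s ∈ Ioo 0 t, HasDerivWithinAt (fun s => Real.log (y s + A0))
        ((-(2 * ν * palin (u s)) - 2 * cub (fun i y => u s y i)) / (y s + A0)) (Ioi s) s := by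
      intro s hs
      exact (((h.enstrophy_hasDerivAt ⟨hs.1, hs.2.trans htT.2⟩).add_const A0).log
        (hpos s).ne').hasDerivWithinAt
    have hle : ∀ s ∈ Ioo 0 t,
        (-(2 * ν * palin (u s)) - 2 * cub (fun i y => u s y i)) / (y s + A0)
          ≤ g1 s + (g2 + g3 / A0) * y s := by
      intro s hs
      have hs' : s ∈ Ioo 0 t' := ⟨hs.1, hs.2.trans_le ht.2⟩
      rw [div_le_iff₀ (hpos s)]
      have a1 := hd s hs' (hK s hs)
      have a2 : 0 ≤ ν * palin (u s) := mul_nonneg hν.le (palin_nonneg _)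
      have a3 := hg10 s hs'
      have a4 := hy0 s
      have a5 : g3 / A0 * A0 = g3 := div_mul_cancel₀ _ hA00.ne'
      have a6 : (g1 s + (g2 + g3 / A0) * y s) * (y s + A0)
          = (g1 s + g2 * y s + g3) * y s + (g1 s * A0 + g2 * y s * A0
            + g3 / A0 * y s * y s) + (g3 / A0 * A0 - g3) * y s := by ring
      rw [a6, a5, sub_self, zero_mul, add_zero]
      have a7 : 0 ≤ g1 s * A0 + g2 * y s * A0 + g3 / A0 * y s * y s := by positivity
      have a8 : -(2 * cub (fun i y => u s y i))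
          ≤ ν * palin (u s) + (g1 s + g2 * y s + g3) * y s := a1
      linarith
    have hyi : IntegrableOn y (Icc 0 t) := hyc.integrableOn_Icc
    have hg1t : IntegrableOn g1 (Icc 0 t) := hg1i.mono_set (Icc_subset_Icc_right ht.2)
    have hgi : IntegrableOn (fun s => g1 s + (g2 + g3 / A0) * y s) (Icc 0 t) :=
      hg1t.add (hyi.const_mul _)
    have h1 := intervalIntegral.sub_le_integral_of_hasDeriv_right_of_le ht.1 hc hd' hgi hle
    have i1 : IntervalIntegrable g1 volume 0 t :=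
      (intervalIntegrable_iff_integrableOn_Icc_of_le ht.1).2 hg1t
    have i2 : IntervalIntegrable (fun s => (g2 + g3 / A0) * y s) volume 0 t :=
      ((intervalIntegrable_iff_integrableOn_Icc_of_le ht.1).2 hyi).const_mul _
    rw [intervalIntegral.integral_add i1 i2, intervalIntegral.integral_const_mul] at h1
    have h2 := hg1B t ht
    have h3 : ∫ s in (0 : ℝ)..t, y s ≤ E2 := h.int_enstrophy hν htT
    have h4 : (g2 + g3 / A0) * ∫ s in (0 : ℝ)..t, y s ≤ g2 * E2 + 1 := by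
      have a1 : (g2 + g3 / A0) * ∫ s in (0 : ℝ)..t, y s ≤ (g2 + g3 / A0) * E2 :=
        mul_le_mul_of_nonneg_left h3 (by positivity)
      have a2 : g3 / A0 * E2 ≤ 1 := by
        rw [div_mul_eq_mul_div, div_le_one hA00, hA0]
        linarith
      linarith [add_mul g2 (g3 / A0) E2]
    have h5 : Real.log (y t + A0) ≤ Real.log (y 0 + A0) + (B1 + g2 * E2 + 1) := by linarith
    have h6 : y t + A0 ≤ (y 0 + A0) * Real.exp (B1 + g2 * E2 + 1) := by
      calc y t + A0 = Real.exp (Real.log (y t + A0)) := (Real.exp_log (hpos t)).symm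
        _ ≤ Real.exp (Real.log (y 0 + A0) + (B1 + g2 * E2 + 1)) := Real.exp_le_exp.2 h5
        _ = (y 0 + A0) * Real.exp (B1 + g2 * E2 + 1) := by rw [Real.exp_add, Real.exp_log (hpos 0)]
    have h7 : (y 0 + A0) * Real.exp (B1 + g2 * E2 + 1) < Kn := by
      have : y 0 + A0 = g3 * E2 + A + enstrophy (u 0) := by
        show enstrophy (u 0) + (g3 * E2 + A) = _
        ring
      rw [this]
      exact hfin
    linarith
  -- the enstrophy never reaches `Kn`
  intro t ht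
  by_contra hcon
  push Not at hcon
  have hyc : ContinuousOn y (Icc 0 t) :=
    h.enstrophy_continuousOn.mono fun s hs => ⟨hs.1, (hs.2.trans ht.2).trans_lt ht'.2⟩
  have hcl : IsClosed (Icc 0 t ∩ y ⁻¹' Ici Kn) :=
    hyc.preimage_isClosed_of_isClosed isClosed_Icc isClosed_Ici
  have hcp : IsCompact (Icc 0 t ∩ y ⁻¹' Ici Kn) :=
    isCompact_Icc.of_isClosed_subset hcl inter_subset_left
  obtain ⟨t1, ht1, hmin⟩ := hcp.exists_isLeast ⟨t, ⟨ht.1, le_rfl⟩, hcon⟩
  have h1 := hbd t1 ⟨ht1.1.1, ht1.1.2.trans ht.2⟩ (fun s hs => by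
    by_contra hc
    push Not at hc
    have := hmin (show s ∈ Icc 0 t ∩ y ⁻¹' Ici Kn from
      ⟨⟨hs.1.le, (hs.2.trans_le ht1.1.2).le⟩, hc.le⟩)
    linarith [hs.2])
  have h2 : Kn ≤ y t1 := ht1.2
  linarith

/-- Bounded enstrophy implies bounded velocity. -/
theorem bounded_of_enstrophy (h : IsSol ν T u P) (hν : 0 < ν) {Y : ℝ}
    (hY : ∀ t ∈ Ico 0 T, enstrophy (u t) ≤ Y) : ∃ C, ∀ t ∈ Ico 0 T, ∀ x i, |u t x i| ≤ C := by
  obtain ⟨D, D2, κ, hD0, hD20, hκ, hprod⟩ := prod_le (p := ∞) (by simp) (K := 1) zero_le_one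
  set N : ℝ := max 1 (Y / (κ * ν ^ 2)) with hN
  have hN1 : 1 ≤ N := le_max_left _ _
  have hN0 : 0 < N := by linarith
  have hYN : Y ≤ κ * (ν ^ 2 * N) := by
    have h1 : Y / (κ * ν ^ 2) ≤ N := le_max_right _ _
    rw [div_le_iff₀ (by positivity)] at h1
    linarith
  set E0 := energy (u 0) with hE0
  have hE00 : 0 ≤ E0 := energy_nonneg _
  have hpi := Real.pi_pos
  set g3 : ℝ := 162 * (2 * Real.pi * N * Real.sqrt (27 * N ^ 3) * (1 * Real.sqrt E0)) * 1 ^ 2
    with hg3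
  have hg30 : 0 ≤ g3 := by positivity
  refine (h.gron hν (g := fun _ => g3) (δ := 1) (B := g3 * T) one_pos (fun s _ => hg30)
    (fun t ht => ?_) (fun t ht => ?_) (fun s hs => ?_)).2
  · exact continuousOn_const.integrableOn_Icc
  · rw [intervalIntegral.integral_const, smul_eq_mul, mul_comm]
    exact mul_le_mul_of_nonneg_left (by linarith [ht.2]) hg30
  · have hI : s ∈ Ico 0 T := ⟨hs.1.le, hs.2⟩
    set G := Real.sqrt (enstrophy (u s)) with hG
    set H := Real.sqrt (palin (u s)) with hH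
    have hG2 : G ^ 2 = enstrophy (u s) := Real.sq_sqrt (enstrophy_nonneg _)
    have hH2 : H ^ 2 = palin (u s) := Real.sq_sqrt (palin_nonneg _)
    have hG0 : 0 ≤ G := Real.sqrt_nonneg _
    have hH0 : 0 ≤ H := Real.sqrt_nonneg _
    have ha' : GH2 (fun i x => u s x i) G H :=
      ⟨fun i => h.sp hI i, hG0, hH0, hG2.symm.le, hH2.symm.le⟩
    have hv' : GH2 (fun i x => u s x i) (1 * G) (1 * H) := by
      rw [one_mul, one_mul]
      exact ha'
    have hvn : ∀ i, nrm (fun x => u s x i) ≤ 1 * Real.sqrt E0 := by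
      intro i
      rw [one_mul]
      refine Real.sqrt_le_sqrt (le_trans ?_ (h.energy_le hν hI))
      exact Finset.single_le_sum (f := fun i => ∫ x in cube, u s x i ^ 2)
        (fun _ _ => integral_nonneg fun _ => sq_nonneg _) (Finset.mem_univ i)
    have hz : ∀ i : Fin 3, SP (fun _ : V => (0 : ℝ)) := fun i => ⟨contDiff_const, fun _ _ => rfl⟩
    have key := hprod ν 0 0 N N (Real.sqrt E0) G H (fun i x => u s x i) (fun i x => u s x i)
      (fun _ _ => 0) ∅ hν le_rfl hN1 hN0 (Real.sqrt_nonneg _) ha' hv' hvn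
      (fun i k hk1 hk2 => absurd hk2 (not_le.2 hk1)) dimTwo_empty hz
      (fun i k _ => by
        unfold fr fc
        simp)
      (by
        have : ∑ i : Fin 3, ∑ j : Fin 3, ∫ x in cube, pd j (fun _ : V => (0 : ℝ)) x ^ 2 = 0 := by
          unfold pd
          simp
        rw [this]
        positivity)
      (fun i => by
        have : (fun x : V => u s x i - u s x i - 0) = 0 := by
          funext x
          simp
        rw [this, eLpNorm_zero]
        exact zero_le) (by rw [hG2]; exact (hY s hI).trans hYN)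
    have e1 : (0 / ν : ℝ) ^ (2 / (1 - th ∞)) = 0 := by
      rw [zero_div, Real.zero_rpow]
      have : th ∞ < 1 := th_lt_one (by simp)
      have h2 : 0 < 2 / (1 - th ∞) := div_pos two_pos (by linarith)
      exact h2.ne'
    rw [e1] at key
    rw [hH2, hG2] at key
    refine key.trans (le_of_eq ?_)
    ring

end Pool.Agent.W734.NS
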