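import Pool.Agent.W734.NS.Mt

/-!
The trilinear estimate for the evolution of `∫ |Δ^l u|²` in terms of the sup norms of the gradients
of the low frequency parts.
-/

open MeasureTheory Set Filter Topology H459R3.NS
open scoped ContDiff ENNReal

namespace Pool.Agent.W734.NS

theorem tri_congr1 {u u' f g : K3 → ℂ}
    (h : ∀ a b, f b ≠ 0 → g (-a - b) ≠ 0 → u a = u' a) : Tri u f g = Tri u' f g := by
  unfold Tri
  refine tsum_congr fun p => ?_
  by_cases hf : f p.2 = 0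
  · rw [hf]; ring
  by_cases hg : g (-p.1 - p.2) = 0
  · rw [hg]; ring
  rw [h _ _ hf hg]

theorem tri_zero2 (u g : K3 → ℂ) {f : K3 → ℂ} (hf : ∀ k, f k = 0) : Tri u f g = 0 := by
  unfold Tri
  simp [hf]

theorem tri_sum1 {ι : Type*} {s : Finset ι} {u : ι → K3 → ℂ} {f g : K3 → ℂ}
    (hu : ∀ i ∈ s, Summable (u i)) (hf : Summable f) (hg : Summable g) :
    ∑ i ∈ s, Tri (u i) f g = Tri (fun k => ∑ i ∈ s, u i k) f g := by
  unfold Tri
  rw [← Summable.tsum_finsetSum fun i hi => summable_tri (hu i hi) hf hg]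
  refine tsum_congr fun p => ?_
  rw [Finset.sum_mul, Finset.sum_mul]

theorem tri_sum2 {ι : Type*} {s : Finset ι} {u : ι → K3 → ℂ} {f g : K3 → ℂ}
    (hu : ∀ i ∈ s, Summable (u i)) (hf : Summable f) (hg : Summable g) :
    ∑ i ∈ s, Tri f (u i) g = Tri f (fun k => ∑ i ∈ s, u i k) g := by
  simp_rw [tri_comm12 f]
  exact tri_sum1 hu hf hg

theorem tri_sum3 {ι : Type*} {s : Finset ι} {u : ι → K3 → ℂ} {f g : K3 → ℂ}
    (hu : ∀ i ∈ s, Summable (u i)) (hf : Summable f) (hg : Summable g) :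
    ∑ i ∈ s, Tri f g (u i) = Tri f g (fun k => ∑ i ∈ s, u i k) := by
  simp_rw [tri_comm23 f g]
  exact tri_sum2 hu hf hg

theorem tri_neg2 (u f g : K3 → ℂ) : Tri u (fun k => -f k) g = -Tri u f g := by
  unfold Tri
  rw [← tsum_neg]
  refine tsum_congr fun p => ?_
  ring

theorem tri_neg3 (u f g : K3 → ℂ) : Tri u f (fun k => -g k) = -Tri u f g := by
  unfold Tri
  rw [← tsum_neg]
  refine tsum_congr fun p => ?_
  ring

theorem Lam_one (a : K3 → ℂ) : Lam 1 a = fun k => -∑ m, D m (D m a) k := by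
  funext k
  unfold D Lam L2
  push_cast
  rw [← Finset.sum_neg_distrib]
  have e3 : ∀ j : Fin 3, -(2 * (Real.pi : ℂ) * Complex.I * (k j : ℂ)
      * (2 * Real.pi * Complex.I * (k j : ℂ) * a k))
      = (2 * (Real.pi : ℂ)) ^ 2 * (k j : ℂ) ^ 2 * a k := by
    intro j
    have := Complex.I_sq
    linear_combination (-(2 * (Real.pi : ℂ)) ^ 2 * (k j : ℂ) ^ 2 * a k) * this
  simp_rw [e3]
  rw [← Finset.sum_mul, ← Finset.mul_sum]
  ring

/-- The commutator of the Laplacian with the multiplication by `u`. -/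
theorem comm1 {u f g : K3 → ℂ} (hu : Rap u) (hf : Rap f) (hg : Rap g) :
    Tri u f (Lam 1 g) - Tri u (Lam 1 f) g
      = ∑ m, (Tri (D m u) f (D m g) - Tri (D m u) (D m f) g) := by
  have h1 : ∀ m, Tri (D m u) f (D m g) - Tri (D m u) (D m f) g
      = Tri u (D m (D m f)) g - Tri u f (D m (D m g)) := by
    intro m
    rw [tri_D1 hu hf (hg.D m) m, tri_D1 hu (hf.D m) hg m]
    ring
  simp_rw [h1]
  rw [Finset.sum_sub_distrib, tri_sum2 (fun m _ => ((hf.D m).D m).summable) hu.summable hg.summable,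
    tri_sum3 (fun m _ => ((hg.D m).D m).summable) hu.summable hf.summable, Lam_one, Lam_one,
    tri_neg2, tri_neg3]
  ring

/-- The sets of frequencies `32 |k| > 2^n`. -/
def Wn (n : ℕ) : Set K3 := {k | 2 ^ n < 32 * N k}

theorem n2_Lam_le {a : K3 → ℂ} {R : ℕ} (h : ∀ k, k ∉ Qf R → a k = 0) (e : ℕ) :
    n2 (Lam e a) ≤ (12 * Real.pi ^ 2 * (R : ℝ) ^ 2) ^ e * n2 a := by
  refine n2_le_of_le (summable_fin h) (by positivity) fun k => ?_
  by_cases hk : k ∈ Qf R
  · rw [norm_Lam]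
    have h1 := mem_Qf.1 hk
    have h2 : (N k : ℝ) ≤ R := by exact_mod_cast h1
    have h3 := L2_le k
    have h4 := L2_nonneg k
    gcongr
    refine h3.trans ?_
    gcongr
  · rw [Lam, h k hk]
    simp

theorem Lam_zero_of {a : K3 → ℂ} {R : ℕ} (h : ∀ k, k ∉ Qf R → a k = 0) (e : ℕ) :
    ∀ k, k ∉ Qf R → Lam e a k = 0 := fun k hk => by rw [Lam, h k hk, mul_zero]

/-- one step with a cut-off -/
theorem step_le {u f g : K3 → ℂ} (hu : Rap u) {R ρ : ℕ} (hR : 2 * R ≤ ρ)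
    (hf : ∀ k, k ∉ Qf R → f k = 0) (hg : ∀ k, k ∉ Qf R → g k = 0) {G : ℝ} (m : Fin 3)
    (hG : ∀ x, ‖S (fun k => chi ρ k * D m u k) x‖ ≤ G) :
    ‖Tri (D m u) f g‖ ≤ G * (n2 f * n2 g) := by
  have h1 : Tri (D m u) f g = Tri (fun k => chi ρ k * D m u k) f g := by
    refine tri_congr1 fun a b hb hc => ?_
    have hb' : b ∈ Qf R := by
      by_contra h
      exact hb (hf b h)
    have hc' : -a - b ∈ Qf R := by
      by_contra h
      exact hc (hg _ h)
    rw [mem_Qf] at hb' hc'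
    have h2 : N a ≤ 2 * R := by
      have h3 := N_add_le (-a - b) b
      have e : -a - b + b = -a := by abel
      rw [e, N_neg] at h3
      omega
    rw [chi_one (by omega), one_mul]
  rw [h1]
  refine norm_tri_le ?_ (summable_fin hf) (summable_fin hg) hG
  refine Summable.of_norm ?_
  refine Summable.of_nonneg_of_le (fun k => norm_nonneg _) (fun k => ?_) (hu.D m).summable.norm
  rw [norm_mul]
  calc ‖chi ρ k‖ * ‖D m u k‖ ≤ 1 * ‖D m u k‖ :=
        mul_le_mul_of_nonneg_right (norm_chi_le _ _) (norm_nonneg _)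
    _ = _ := one_mul _

theorem comm_le {u f g : K3 → ℂ} (hu : Rap u) {R ρ : ℕ} (hR : 2 * R ≤ ρ)
    (hf : ∀ k, k ∉ Qf R → f k = 0) (hg : ∀ k, k ∉ Qf R → g k = 0) {G : ℝ}
    (hG : ∀ m x, ‖S (fun k => chi ρ k * D m u k) x‖ ≤ G) (e : ℕ) :
    ‖Tri u f (Lam (e + 1) g) - Tri u (Lam (e + 1) f) g‖
      ≤ (e + 1) * (6 * G * (2 * Real.pi * R) * (12 * Real.pi ^ 2 * (R : ℝ) ^ 2) ^ e)
        * (n2 f * n2 g) := by
  have hp := Real.pi_pos
  have hG0 : 0 ≤ G := (norm_nonneg _).trans (hG 0 0)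
  set K : ℝ := 12 * Real.pi ^ 2 * (R : ℝ) ^ 2 with hK
  have hK0 : 0 ≤ K := by positivity
  set A : ℕ → ℂ := fun s => Tri u (Lam s f) (Lam (e + 1 - s) g) with hA
  have h1 : Tri u f (Lam (e + 1) g) - Tri u (Lam (e + 1) f) g = A 0 - A (e + 1) := by
    simp only [hA, Lam_zero, Nat.sub_zero, Nat.sub_self]
  rw [h1, ← Finset.sum_range_sub']
  have h2 : ∀ s ∈ Finset.range (e + 1), ‖A s - A (s + 1)‖
      ≤ 6 * G * (2 * Real.pi * R) * K ^ e * (n2 f * n2 g) := by
    intro s hs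
    rw [Finset.mem_range] at hs
    have e1 : e + 1 - s = 1 + (e - s) := by omega
    have e2 : e + 1 - (s + 1) = e - s := by omega
    simp only [hA, e1, e2]
    rw [add_comm s 1, Lam_add, Lam_add 1 s, comm1 hu (rap_Lam (rap_fin hf) s)
      (rap_Lam (rap_fin hg) (e - s))]
    have z1 := Lam_zero_of hf s
    have z2 := Lam_zero_of hg (e - s)
    have b1 := n2_Lam_le hf s
    have b2 := n2_Lam_le hg (e - s)
    rw [← hK] at b1 b2
    have hKe : K ^ s * K ^ (e - s) = K ^ e := by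
      rw [← pow_add]
      congr 1
      omega
    have b12 : n2 (Lam s f) * n2 (Lam (e - s) g) ≤ K ^ e * (n2 f * n2 g) := by
      calc n2 (Lam s f) * n2 (Lam (e - s) g)
          ≤ (K ^ s * n2 f) * (K ^ (e - s) * n2 g) :=
            mul_le_mul b1 b2 (n2_nonneg _) (mul_nonneg (pow_nonneg hK0 _) (n2_nonneg _))
        _ = (K ^ s * K ^ (e - s)) * (n2 f * n2 g) := by ring
        _ = _ := by rw [hKe]
    have h3 : ∀ m, ‖Tri (D m u) (Lam s f) (D m (Lam (e - s) g))
        - Tri (D m u) (D m (Lam s f)) (Lam (e - s) g)‖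
        ≤ 2 * G * (2 * Real.pi * R) * K ^ e * (n2 f * n2 g) := by
      intro m
      refine (norm_sub_le _ _).trans ?_
      have c1 := step_le hu hR z1 (D_zero_of z2 m) m (hG m)
      have c2 := step_le hu hR (D_zero_of z1 m) z2 m (hG m)
      have d1 := n2_D_le z2 m
      have d2 := n2_D_le z1 m
      have k1 : G * (n2 (Lam s f) * n2 (D m (Lam (e - s) g)))
          ≤ G * ((2 * Real.pi * R) * (K ^ e * (n2 f * n2 g))) := by
        refine mul_le_mul_of_nonneg_left ?_ hG0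
        calc n2 (Lam s f) * n2 (D m (Lam (e - s) g))
            ≤ n2 (Lam s f) * (2 * Real.pi * R * n2 (Lam (e - s) g)) :=
              mul_le_mul_of_nonneg_left d1 (n2_nonneg _)
          _ = (2 * Real.pi * R) * (n2 (Lam s f) * n2 (Lam (e - s) g)) := by ring
          _ ≤ _ := mul_le_mul_of_nonneg_left b12 (by positivity)
      have k2 : G * (n2 (D m (Lam s f)) * n2 (Lam (e - s) g))
          ≤ G * ((2 * Real.pi * R) * (K ^ e * (n2 f * n2 g))) := by
        refine mul_le_mul_of_nonneg_left ?_ hG0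
        calc n2 (D m (Lam s f)) * n2 (Lam (e - s) g)
            ≤ (2 * Real.pi * R * n2 (Lam s f)) * n2 (Lam (e - s) g) :=
              mul_le_mul_of_nonneg_right d2 (n2_nonneg _)
          _ = (2 * Real.pi * R) * (n2 (Lam s f) * n2 (Lam (e - s) g)) := by ring
          _ ≤ _ := mul_le_mul_of_nonneg_left b12 (by positivity)
      linarith
    calc ‖∑ m, (Tri (D m u) (Lam s f) (D m (Lam (e - s) g))
        - Tri (D m u) (D m (Lam s f)) (Lam (e - s) g))‖
        ≤ ∑ _m : Fin 3, 2 * G * (2 * Real.pi * R) * K ^ e * (n2 f * n2 g) :=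
          norm_sum_le_of_le _ fun m _ => h3 m
      _ = _ := by
        rw [Finset.sum_const, Finset.card_univ, Fintype.card_fin, nsmul_eq_mul]
        push_cast
        ring
  refine (norm_sum_le_of_le _ h2).trans (le_of_eq ?_)
  rw [Finset.sum_const, Finset.card_range, nsmul_eq_mul]
  push_cast
  ring

/-- The symmetrised trilinear form. -/
noncomputable def Bf (e : ℕ) (u f g : Fin 3 → K3 → ℂ) : ℂ :=
  ∑ i, ∑ j, (Tri (u j) (D j (f i)) (Lam e (g i)) + Tri (u j) (D j (g i)) (Lam e (f i)))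

theorem Bf_comm (e : ℕ) (u f g : Fin 3 → K3 → ℂ) : Bf e u f g = Bf e u g f := by
  unfold Bf
  refine Finset.sum_congr rfl fun i _ => Finset.sum_congr rfl fun j _ => ?_
  ring

theorem Bf_add {e : ℕ} {u f f' g : Fin 3 → K3 → ℂ} (hu : ∀ i, Rap (u i)) (hf : ∀ i, Rap (f i))
    (hf' : ∀ i, Rap (f' i)) (hg : ∀ i, Rap (g i)) :
    Bf e u (fun i => f i + f' i) g = Bf e u f g + Bf e u f' g := by
  unfold Bf
  rw [← Finset.sum_add_distrib]
  refine Finset.sum_congr rfl fun i _ => ?_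
  rw [← Finset.sum_add_distrib]
  refine Finset.sum_congr rfl fun j _ => ?_
  have e1 : D j (f i + f' i) = D j (f i) + D j (f' i) := by
    funext k
    simp only [D, Pi.add_apply]
    ring
  have e2 : Lam e (f i + f' i) = Lam e (f i) + Lam e (f' i) := by
    funext k
    simp only [Lam, Pi.add_apply]
    ring
  rw [e1, e2, tri_add2 (hu j).summable ((hf i).D j).summable ((hf' i).D j).summable
    (rap_Lam (hg i) e).summable, tri_add3 (hu j).summable ((hg i).D j).summable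
    (rap_Lam (hf i) e).summable (rap_Lam (hf' i) e).summable]
  ring

/-- the form with a divergence-free first argument -/
theorem Bf_div {e : ℕ} {u f g : Fin 3 → K3 → ℂ} (hu : ∀ i, Rap (u i)) (hf : ∀ i, Rap (f i))
    (hg : ∀ i, Rap (g i)) (hdiv : ∀ k, ∑ j, (k j : ℂ) * u j k = 0) :
    Bf e u f g = ∑ i, ∑ j, (Tri (u j) (D j (f i)) (Lam e (g i))
      - Tri (u j) (Lam e (D j (f i))) (g i)) := by
  unfold Bf
  refine Finset.sum_congr rfl fun i _ => ?_
  rw [Finset.sum_add_distrib, Finset.sum_sub_distrib, sub_eq_add_neg]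
  congr 1
  have h1 : ∀ j, Tri (u j) (D j (g i)) (Lam e (f i))
      = -Tri (D j (u j)) (g i) (Lam e (f i)) - Tri (u j) (Lam e (D j (f i))) (g i) := by
    intro j
    rw [tri_D1 (hu j) (hg i) (rap_Lam (hf i) e) j, D_Lam, tri_comm23 (u j) (g i) (Lam e _)]
    ring
  simp_rw [h1]
  rw [Finset.sum_sub_distrib, Finset.sum_neg_distrib,
    tri_sum1 (fun j _ => ((hu j).D j).summable) (hg i).summable (rap_Lam (hf i) e).summable]
  have h2 : (fun k => ∑ j, D j (u j) k) = fun _ => (0 : ℂ) := by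
    funext k
    have h3 : ∑ j, D j (u j) k = 2 * Real.pi * Complex.I * ∑ j, (k j : ℂ) * u j k := by
      rw [Finset.mul_sum]
      refine Finset.sum_congr rfl fun j _ => ?_
      rw [D]
      ring
    rw [h3, hdiv, mul_zero]
  rw [h2]
  have h4 : Tri (fun _ => (0 : ℂ)) (g i) (Lam e (f i)) = 0 := by
    unfold Tri
    simp
  rw [h4]
  ring

/-- The estimate for comparable frequencies. -/
theorem Bf_comp {e : ℕ} {u f g : Fin 3 → K3 → ℂ} (hu : ∀ i, Rap (u i))
    (hdiv : ∀ k, ∑ j, (k j : ℂ) * u j k = 0) {R ρ : ℕ} (hR : 2 * R ≤ ρ)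
    (hf : ∀ i k, k ∉ Qf R → f i k = 0) (hg : ∀ i k, k ∉ Qf R → g i k = 0) {G : ℝ}
    (hG : ∀ j m x, ‖S (fun k => chi ρ k * D m (u j) k) x‖ ≤ G) :
    ‖Bf (e + 1) u f g‖ ≤ 18 * (e + 1) * G * (12 * Real.pi ^ 2 * (R : ℝ) ^ 2) ^ (e + 1)
      * ∑ i, n2 (f i) * n2 (g i) := by
  have hp := Real.pi_pos
  have hG0 : 0 ≤ G := (norm_nonneg _).trans (hG 0 0 0)
  set K : ℝ := 12 * Real.pi ^ 2 * (R : ℝ) ^ 2 with hK
  have hK0 : 0 ≤ K := by positivity
  rw [Bf_div hu (fun i => rap_fin (hf i)) (fun i => rap_fin (hg i)) hdiv]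
  have h1 : ∀ i j, ‖Tri (u j) (D j (f i)) (Lam (e + 1) (g i))
      - Tri (u j) (Lam (e + 1) (D j (f i))) (g i)‖
      ≤ 6 * (e + 1) * G * K ^ (e + 1) * (n2 (f i) * n2 (g i)) := by
    intro i j
    refine (comm_le (hu j) hR (D_zero_of (hf i) j) (hg i) (hG j) e).trans ?_
    rw [← hK]
    have d1 := n2_D_le (hf i) j
    have hn1 := n2_nonneg (f i)
    have hn2 := n2_nonneg (g i)
    have d2 : (2 * Real.pi * R) * (2 * Real.pi * R) ≤ K := by
      rw [hK]
      have : 0 ≤ Real.pi ^ 2 * (R : ℝ) ^ 2 := by positivity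
      nlinarith
    calc (e + 1) * (6 * G * (2 * Real.pi * R) * K ^ e) * (n2 (D j (f i)) * n2 (g i))
        ≤ (e + 1) * (6 * G * (2 * Real.pi * R) * K ^ e)
          * ((2 * Real.pi * R * n2 (f i)) * n2 (g i)) := by gcongr
      _ = 6 * (e + 1) * G * (((2 * Real.pi * R) * (2 * Real.pi * R)) * K ^ e)
          * (n2 (f i) * n2 (g i)) := by ring
      _ ≤ 6 * (e + 1) * G * (K * K ^ e) * (n2 (f i) * n2 (g i)) := by gcongr
      _ = _ := by rw [pow_succ']
  calc ‖∑ i, ∑ j, (Tri (u j) (D j (f i)) (Lam (e + 1) (g i))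
      - Tri (u j) (Lam (e + 1) (D j (f i))) (g i))‖
      ≤ ∑ i, ∑ _j : Fin 3, 6 * (e + 1) * G * K ^ (e + 1) * (n2 (f i) * n2 (g i)) :=
        norm_sum_le_of_le _ fun i _ => norm_sum_le_of_le _ fun j _ => h1 i j
    _ = _ := by
      rw [Finset.mul_sum]
      refine Finset.sum_congr rfl fun i _ => ?_
      rw [Finset.sum_const, Finset.card_univ, Fintype.card_fin, nsmul_eq_mul]
      push_cast
      ring

/-- The estimate for a low frequency second argument. -/
theorem Bf_low {e : ℕ} {u f g : Fin 3 → K3 → ℂ} (hu : ∀ i, Rap (u i)) (hf : ∀ i, Rap (f i))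
    (hg : ∀ i, Rap (g i)) (hdiv : ∀ k, ∑ j, (k j : ℂ) * u j k = 0) {W : Set K3}
    (hW : ∀ i i' a b, f i b ≠ 0 → g i' (-a - b) ≠ 0 → a ∈ W) {F1 F2 : ℝ}
    (hF1 : ∀ i j x, ‖S (D j (f i)) x‖ ≤ F1) (hF2 : ∀ i j x, ‖S (Lam e (D j (f i))) x‖ ≤ F2) :
    ‖Bf e u f g‖ ≤ ∑ i, ∑ j, (F1 * (n2 (W.indicator (u j)) * n2 (Lam e (g i)))
      + F2 * (n2 (W.indicator (u j)) * n2 (g i))) := by
  rw [Bf_div hu hf hg hdiv]
  refine norm_sum_le_of_le _ fun i _ => norm_sum_le_of_le _ fun j _ => ?_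
  have h1 : Tri (u j) (D j (f i)) (Lam e (g i))
      = Tri (W.indicator (u j)) (D j (f i)) (Lam e (g i)) := by
    refine tri_congr1 fun a b hb hc => ?_
    rw [indicator_of_mem]
    refine hW i i a b (fun h => hb ?_) (fun h => hc ?_)
    · rw [D, h, mul_zero]
    · rw [Lam, h, mul_zero]
  have h2 : Tri (u j) (Lam e (D j (f i))) (g i)
      = Tri (W.indicator (u j)) (Lam e (D j (f i))) (g i) := by
    refine tri_congr1 fun a b hb hc => ?_
    rw [indicator_of_mem]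
    refine hW i i a b (fun h => hb ?_) hc
    rw [Lam, D, h, mul_zero, mul_zero]
  rw [h1, h2]
  refine (norm_sub_le _ _).trans (add_le_add ?_ ?_)
  · exact norm_tri_le2 ((hu j).ind W).summable ((hf i).D j).summable (rap_Lam (hg i) e).summable
      (hF1 i j)
  · exact norm_tri_le2 ((hu j).ind W).summable (rap_Lam ((hf i).D j) e).summable (hg i).summable
      (hF2 i j)

end Pool.Agent.W734.NS
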