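import Pool.Agent.W734.NS.Bf

/-!
The trilinear estimate: dyadic decomposition.
-/

open MeasureTheory Set Filter Topology H459R3.NS
open scoped ContDiff ENNReal

namespace Pool.Agent.W734.NS

/-- the part with `|k| < 2^m` -/
noncomputable def lo (m : ℕ) (a : K3 → ℂ) : K3 → ℂ := {k : K3 | N k < 2 ^ m}.indicator a

/-- the part with `2^n ≤ |k| < 2^(n+1)` -/
noncomputable def sh (n : ℕ) (a : K3 → ℂ) : K3 → ℂ :=
  {k : K3 | 2 ^ n ≤ N k ∧ N k < 2 ^ (n + 1)}.indicator a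

/-- the smooth low part -/
noncomputable def ch (R : ℕ) (a : K3 → ℂ) (k : K3) : ℂ := chi R k * a k

/-- the difference of the sharp and the smooth low part -/
noncomputable def rr (n : ℕ) (a : K3 → ℂ) (k : K3) : ℂ := lo n a k - ch (2 ^ n / 32) a k

theorem lo_of_lt {m : ℕ} {a : K3 → ℂ} {k : K3} (h : N k < 2 ^ m) : lo m a k = a k :=
  indicator_of_mem (s := {k : K3 | N k < 2 ^ m}) h a

theorem lo_of_ge {m : ℕ} {a : K3 → ℂ} {k : K3} (h : 2 ^ m ≤ N k) : lo m a k = 0 :=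
  indicator_of_notMem (s := {k : K3 | N k < 2 ^ m}) (not_lt.2 h) a

theorem lo_succ (n : ℕ) (a : K3 → ℂ) : lo (n + 1) a = lo n a + sh n a := by
  funext k
  rw [Pi.add_apply]
  have hp : (2 : ℕ) ^ (n + 1) = 2 * 2 ^ n := pow_succ' 2 n
  rcases lt_or_ge (N k) (2 ^ n) with h | h
  · rw [lo_of_lt h, lo_of_lt (by omega), sh, indicator_of_notMem, add_zero]
    rintro ⟨h1, -⟩
    omega
  · rw [lo_of_ge h, zero_add]
    rcases lt_or_ge (N k) (2 ^ (n + 1)) with h2 | h2
    · rw [lo_of_lt h2, sh, indicator_of_mem]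
      exact ⟨h, h2⟩
    · rw [lo_of_ge h2, sh, indicator_of_notMem]
      rintro ⟨-, h1⟩
      omega

theorem lo_zero_of (m : ℕ) (a : K3 → ℂ) : ∀ k, k ∉ Qf (2 ^ m) → lo m a k = 0 := by
  intro k hk
  rw [mem_Qf] at hk
  exact lo_of_ge (by omega)

theorem sh_zero_of (m : ℕ) (a : K3 → ℂ) : ∀ k, k ∉ Qf (2 ^ (m + 1)) → sh m a k = 0 := by
  intro k hk
  rw [mem_Qf] at hk
  rw [sh, indicator_of_notMem]
  rintro ⟨-, h⟩
  omega

theorem ch_zero_of (R : ℕ) (a : K3 → ℂ) {k : K3} (h : 3 * R < N k) : ch R a k = 0 := by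
  rw [ch, chi_zero h, zero_mul]

theorem rr_zero_of (n : ℕ) (a : K3 → ℂ) : ∀ k, k ∉ Qf (2 ^ (n + 1)) → rr n a k = 0 := by
  intro k hk
  rw [mem_Qf] at hk
  have hp : (2 : ℕ) ^ (n + 1) = 2 * 2 ^ n := pow_succ' 2 n
  have h0 : 0 < 2 ^ n := by positivity
  rw [rr, lo_of_ge (by omega), ch_zero_of _ _ (by omega), sub_zero]

theorem rap_ch {a : K3 → ℂ} (ha : Rap a) (R : ℕ) : Rap (ch R a) := by
  intro n
  refine Summable.of_nonneg_of_le (fun k => by positivity) (fun k => ?_) (ha n)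
  rw [ch, norm_mul]
  have := norm_chi_le R k
  calc (N k : ℝ) ^ n * (‖chi R k‖ * ‖a k‖) ≤ (N k : ℝ) ^ n * (1 * ‖a k‖) := by gcongr
    _ = _ := by rw [one_mul]

theorem n2_W_le {a b : K3 → ℂ} (hb : Rap b) {n : ℕ} (h : ∀ k, k ∈ Wn n → ‖a k‖ ≤ ‖b k‖)
    (h0 : ∀ k, k ∉ Wn n → a k = 0) : n2 a ≤ n2 ((Wn n).indicator b) := by
  have := n2_le_of_le (a := a) (b := (Wn n).indicator b) (hb.ind _).summable (C := 1) zero_le_one
    (fun k => by
      rw [one_mul]
      by_cases hk : k ∈ Wn n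
      · rw [indicator_of_mem hk]
        exact h k hk
      · rw [h0 k hk]
        simp)
  rwa [one_mul] at this

theorem n2_sh_le {a : K3 → ℂ} (ha : Rap a) (n : ℕ) : n2 (sh n a) ≤ n2 ((Wn n).indicator a) := by
  refine n2_W_le ha (fun k _ => norm_indicator_le_norm_self _ _) fun k hk => ?_
  rw [sh, indicator_of_notMem]
  rintro ⟨h1, -⟩
  refine hk ?_
  show 2 ^ n < 32 * N k
  have h0 : 0 < 2 ^ n := by positivity
  omega

theorem n2_rr_le {a : K3 → ℂ} (ha : Rap a) (n : ℕ) : n2 (rr n a) ≤ n2 ((Wn n).indicator a) := by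
  have h0 : 0 < 2 ^ n := by positivity
  refine n2_W_le ha (fun k hk => ?_) fun k hk => ?_
  · rcases lt_or_ge (N k) (2 ^ n) with h | h
    · rw [rr, lo_of_lt h, ch]
      have e : a k - chi (2 ^ n / 32) k * a k = (1 - chi (2 ^ n / 32) k) * a k := by ring
      rw [e, norm_mul]
      calc _ ≤ 1 * ‖a k‖ := mul_le_mul_of_nonneg_right (norm_one_sub_chi_le _ _) (norm_nonneg _)
        _ = _ := one_mul _
    · rw [rr, lo_of_ge h, ch_zero_of _ _ (by omega), sub_zero, norm_zero]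
      exact norm_nonneg _
  · have h1 : 32 * N k ≤ 2 ^ n := not_lt.1 hk
    rw [rr, lo_of_lt (by omega), ch, chi_one (by omega), one_mul, sub_self]

theorem sq_sum_le (w : Fin 3 → ℝ) : ∑ i, ∑ j, w j * w i ≤ 3 * ∑ i, w i ^ 2 := by
  simp only [Fin.sum_univ_three]
  nlinarith [sq_nonneg (w 0 - w 1), sq_nonneg (w 0 - w 2), sq_nonneg (w 1 - w 2)]

/-- One dyadic step. -/
theorem Bf_step {e : ℕ} {u : Fin 3 → K3 → ℂ} (hu : ∀ i, Rap (u i))
    (hdiv : ∀ k, ∑ j, (k j : ℂ) * u j k = 0) (n : ℕ) {G : ℝ}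
    (hG : ∀ j m x, ‖S (ch (2 ^ (n + 2)) (D m (u j))) x‖ ≤ G) :
    ‖Bf (e + 1) u (fun i => lo (n + 1) (u i)) (fun i => lo (n + 1) (u i))
        - Bf (e + 1) u (fun i => lo n (u i)) (fun i => lo n (u i))‖
      ≤ (54 * e + 90) * G * (972 * Real.pi ^ 2 * 4 ^ n) ^ (e + 1)
        * ∑ i, n2 ((Wn n).indicator (u i)) ^ 2 := by
  have hp := Real.pi_pos
  have hG0 : 0 ≤ G := (norm_nonneg _).trans (hG 0 0 0)
  have hp2 : 0 < 2 ^ n := by positivity
  set K : ℝ := 972 * Real.pi ^ 2 * 4 ^ n with hK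
  have hK0 : 0 ≤ K := by positivity
  set w : Fin 3 → ℝ := fun i => n2 ((Wn n).indicator (u i)) with hw
  have hw0 : ∀ i, 0 ≤ w i := fun i => n2_nonneg _
  have hK12 : 12 * Real.pi ^ 2 * (((2 : ℕ) ^ (n + 1) : ℕ) : ℝ) ^ 2 ≤ K := by
    rw [hK]
    push_cast
    have : ((2 : ℝ) ^ (n + 1)) ^ 2 = 4 * 4 ^ n := by
      rw [← pow_mul, mul_comm (n + 1) 2, pow_mul]
      norm_num
      ring
    rw [this]
    have : 0 ≤ Real.pi ^ 2 * 4 ^ n := by positivity
    linarith
  have rlo : ∀ m i, Rap (lo m (u i)) := fun m i => rap_fin (lo_zero_of m (u i))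
  have rsh : ∀ i, Rap (sh n (u i)) := fun i => rap_fin (sh_zero_of n (u i))
  have rrr : ∀ i, Rap (rr n (u i)) := fun i => rap_fin (rr_zero_of n (u i))
  have rch : ∀ i, Rap (ch (2 ^ n / 32) (u i)) := fun i => rap_ch (hu i) _
  have e1 : (fun i => lo (n + 1) (u i)) = fun i => lo n (u i) + sh n (u i) :=
    funext fun i => lo_succ n (u i)
  have e2 : (fun i => lo n (u i)) = fun i => ch (2 ^ n / 32) (u i) + rr n (u i) := by
    funext i k
    rw [Pi.add_apply, rr]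
    ring
  have h1 : Bf (e + 1) u (fun i => lo (n + 1) (u i)) (fun i => lo (n + 1) (u i))
      - Bf (e + 1) u (fun i => lo n (u i)) (fun i => lo n (u i))
      = 2 * Bf (e + 1) u (fun i => lo n (u i)) (fun i => sh n (u i))
        + Bf (e + 1) u (fun i => sh n (u i)) (fun i => sh n (u i)) := by
    have s0 : ∀ i, Rap (lo n (u i) + sh n (u i)) := fun i => by
      rw [← lo_succ]
      exact rlo (n + 1) i
    rw [e1, Bf_add hu (rlo n) rsh s0, Bf_comm (e + 1) u (fun i => lo n (u i)),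
      Bf_comm (e + 1) u (fun i => sh n (u i)) (fun i => lo n (u i) + sh n (u i)),
      Bf_add hu (rlo n) rsh (rlo n), Bf_add hu (rlo n) rsh rsh,
      Bf_comm (e + 1) u (fun i => sh n (u i)) (fun i => lo n (u i))]
    ring
  have h2 : Bf (e + 1) u (fun i => lo n (u i)) (fun i => sh n (u i))
      = Bf (e + 1) u (fun i => ch (2 ^ n / 32) (u i)) (fun i => sh n (u i))
        + Bf (e + 1) u (fun i => rr n (u i)) (fun i => sh n (u i)) := by
    rw [e2, Bf_add hu rch rrr rsh]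
  -- comparable frequencies
  have hG' : ∀ j m x, ‖S (fun k => chi (2 ^ (n + 2)) k * D m (u j) k) x‖ ≤ G := hG
  have hRρ : 2 * 2 ^ (n + 1) ≤ 2 ^ (n + 2) := by rw [pow_succ' 2 (n + 1)]
  have c1 : ‖Bf (e + 1) u (fun i => sh n (u i)) (fun i => sh n (u i))‖
      ≤ 18 * (e + 1) * G * K ^ (e + 1) * ∑ i, w i ^ 2 := by
    refine (Bf_comp hu hdiv hRρ (fun i => sh_zero_of n (u i)) (fun i => sh_zero_of n (u i))
      hG').trans ?_
    have a1 : ∑ i, n2 (sh n (u i)) * n2 (sh n (u i)) ≤ ∑ i, w i ^ 2 := by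
      refine Finset.sum_le_sum fun i _ => ?_
      rw [sq]
      exact mul_le_mul (n2_sh_le (hu i) n) (n2_sh_le (hu i) n) (n2_nonneg _) (hw0 i)
    have a2 : 0 ≤ ∑ i, n2 (sh n (u i)) * n2 (sh n (u i)) :=
      Finset.sum_nonneg fun i _ => mul_nonneg (n2_nonneg _) (n2_nonneg _)
    gcongr
  have c2 : ‖Bf (e + 1) u (fun i => rr n (u i)) (fun i => sh n (u i))‖
      ≤ 18 * (e + 1) * G * K ^ (e + 1) * ∑ i, w i ^ 2 := by
    refine (Bf_comp hu hdiv hRρ (fun i => rr_zero_of n (u i)) (fun i => sh_zero_of n (u i))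
      hG').trans ?_
    have a1 : ∑ i, n2 (rr n (u i)) * n2 (sh n (u i)) ≤ ∑ i, w i ^ 2 := by
      refine Finset.sum_le_sum fun i _ => ?_
      rw [sq]
      exact mul_le_mul (n2_rr_le (hu i) n) (n2_sh_le (hu i) n) (n2_nonneg _) (hw0 i)
    have a2 : 0 ≤ ∑ i, n2 (rr n (u i)) * n2 (sh n (u i)) :=
      Finset.sum_nonneg fun i _ => mul_nonneg (n2_nonneg _) (n2_nonneg _)
    gcongr
  -- low frequencies
  have hD : ∀ i j x, ‖S (D j (ch (2 ^ n / 32) (u i))) x‖ ≤ 3 * G := by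
    intro i j x
    have ee1 : D j (ch (2 ^ n / 32) (u i))
        = fun k => chi (2 ^ n / 32) k * ch (2 ^ (n + 2)) (D j (u i)) k := by
      funext k
      by_cases hk : 3 * (2 ^ n / 32) < N k
      · rw [chi_zero hk, D, ch, chi_zero hk]
        ring
      · have hk' : N k ≤ 2 ^ (n + 2) := by
          have : (2 : ℕ) ^ (n + 2) = 4 * 2 ^ n := by
            rw [pow_add]
            ring
          omega
        rw [ch, chi_one hk', D, D, ch]
        ring
    rw [ee1]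
    exact norm_S_chi_le (rap_ch ((hu i).D j) _).summable (fun y => hG i j y) _ x
  have c3 : ‖Bf (e + 1) u (fun i => ch (2 ^ n / 32) (u i)) (fun i => sh n (u i))‖
      ≤ 18 * G * K ^ (e + 1) * ∑ i, w i ^ 2 := by
    refine (Bf_low hu rch rsh hdiv (W := Wn n) (F1 := 3 * G) (F2 := K ^ (e + 1) * (3 * G))
      (fun i i' a b hb hc => ?_) hD (fun i j x => ?_)).trans ?_
    · have hb' : N b ≤ 3 * (2 ^ n / 32) := by
        by_contra h
        exact hb (ch_zero_of _ _ (by omega))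
      have hc' : 2 ^ n ≤ N (-a - b) := by
        by_contra h
        refine hc ?_
        rw [sh, indicator_of_notMem]
        rintro ⟨h1, -⟩
        exact h h1
      have h3 : N (-a - b) ≤ N a + N b := by
        have := N_add_le (-a) (-b)
        rw [N_neg, N_neg, ← sub_eq_add_neg] at this
        exact this
      show 2 ^ n < 32 * N a
      omega
    · have hz : ∀ k, 2 ^ n < N k → D j (ch (2 ^ n / 32) (u i)) k = 0 := by
        intro k hk
        rw [D, ch_zero_of _ _ (by omega), mul_zero]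
      have h3 := bernstein_Lam ((rch i).D j) hz (hD i j) (e + 1) x
      have e3 : (3 : ℝ) * (18 * Real.pi * ((2 ^ n : ℕ) : ℝ)) ^ 2 = K := by
        rw [hK]
        push_cast
        have : ((2 : ℝ) ^ n) ^ 2 = 4 ^ n := by
          rw [← pow_mul, mul_comm n 2, pow_mul]
          norm_num
        rw [mul_pow, this]
        ring
      rwa [e3] at h3
    · have a1 : ∀ i j : Fin 3, 3 * G * (n2 ((Wn n).indicator (u j)) * n2 (Lam (e + 1) (sh n (u i))))
          + K ^ (e + 1) * (3 * G) * (n2 ((Wn n).indicator (u j)) * n2 (sh n (u i)))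
          ≤ 6 * G * K ^ (e + 1) * (w j * w i) := by
        intro i j
        have b1 : n2 (Lam (e + 1) (sh n (u i))) ≤ K ^ (e + 1) * w i := by
          refine (n2_Lam_le (sh_zero_of n (u i)) (e + 1)).trans ?_
          exact mul_le_mul (pow_le_pow_left₀ (by positivity) hK12 _) (n2_sh_le (hu i) n)
            (n2_nonneg _) (pow_nonneg hK0 _)
        have b2 := n2_sh_le (hu i) n
        have b3 : w j * n2 (Lam (e + 1) (sh n (u i))) ≤ w j * (K ^ (e + 1) * w i) :=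
          mul_le_mul_of_nonneg_left b1 (hw0 j)
        have b4 : w j * n2 (sh n (u i)) ≤ w j * w i := mul_le_mul_of_nonneg_left b2 (hw0 j)
        calc 3 * G * (w j * n2 (Lam (e + 1) (sh n (u i))))
            + K ^ (e + 1) * (3 * G) * (w j * n2 (sh n (u i)))
            ≤ 3 * G * (w j * (K ^ (e + 1) * w i)) + K ^ (e + 1) * (3 * G) * (w j * w i) := by
              gcongr
          _ = _ := by ring
      refine (Finset.sum_le_sum fun i _ => Finset.sum_le_sum fun j _ => a1 i j).trans ?_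
      have a3 : 0 ≤ 6 * G * K ^ (e + 1) := by positivity
      have a5 : ∑ i, ∑ j, w j * w i ≤ 3 * ∑ i, w i ^ 2 := sq_sum_le w
      calc _ = 6 * G * K ^ (e + 1) * ∑ i, ∑ j, w j * w i := by
            simp only [Finset.mul_sum]
        _ ≤ 6 * G * K ^ (e + 1) * (3 * ∑ i, w i ^ 2) := mul_le_mul_of_nonneg_left a5 a3
        _ = _ := by ring
  rw [h1, h2]
  have hS : 0 ≤ ∑ i, w i ^ 2 := Finset.sum_nonneg fun _ _ => sq_nonneg _
  calc ‖2 * (Bf (e + 1) u (fun i => ch (2 ^ n / 32) (u i)) (fun i => sh n (u i))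
        + Bf (e + 1) u (fun i => rr n (u i)) (fun i => sh n (u i)))
        + Bf (e + 1) u (fun i => sh n (u i)) (fun i => sh n (u i))‖
      ≤ 2 * (‖Bf (e + 1) u (fun i => ch (2 ^ n / 32) (u i)) (fun i => sh n (u i))‖
        + ‖Bf (e + 1) u (fun i => rr n (u i)) (fun i => sh n (u i))‖)
        + ‖Bf (e + 1) u (fun i => sh n (u i)) (fun i => sh n (u i))‖ := by
        refine (norm_add_le _ _).trans (add_le_add ?_ le_rfl)
        rw [norm_mul, Complex.norm_ofNat]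
        exact mul_le_mul_of_nonneg_left (norm_add_le _ _) (by norm_num)
    _ ≤ 2 * (18 * G * K ^ (e + 1) * ∑ i, w i ^ 2
        + 18 * (e + 1) * G * K ^ (e + 1) * ∑ i, w i ^ 2)
        + 18 * (e + 1) * G * K ^ (e + 1) * ∑ i, w i ^ 2 := by gcongr
    _ = _ := by ring

theorem tri_lo_tendsto {u f g : K3 → ℂ} (hu : Summable u) (hf : Summable f) (hg : Summable g) :
    Tendsto (fun m => Tri u (lo m f) (lo m g)) atTop (𝓝 (Tri u f g)) := by
  unfold Tri
  refine tendsto_tsum_of_dominated_convergence (summable_norm_tri hu hf hg) (fun p => ?_)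
    (Eventually.of_forall fun m p => ?_)
  · refine tendsto_const_nhds.congr' ?_
    have h1 : ∀ k : K3, ∀ᶠ m : ℕ in atTop, N k < 2 ^ m := by
      intro k
      filter_upwards [eventually_ge_atTop (N k)] with m hm
      exact lt_of_le_of_lt hm Nat.lt_two_pow_self
    filter_upwards [h1 p.2, h1 (-p.1 - p.2)] with m h2 h3
    rw [lo_of_lt h2, lo_of_lt h3]
  · rw [norm_mul, norm_mul]
    have a1 : ‖lo m f p.2‖ ≤ ‖f p.2‖ := norm_indicator_le_norm_self _ _
    have a2 : ‖lo m g (-p.1 - p.2)‖ ≤ ‖g (-p.1 - p.2)‖ := norm_indicator_le_norm_self _ _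
    gcongr

theorem D_lo (j : Fin 3) (m : ℕ) (a : K3 → ℂ) : D j (lo m a) = lo m (D j a) := D_ind _ _ _

theorem Lam_lo (e : ℕ) (m : ℕ) (a : K3 → ℂ) : Lam e (lo m a) = lo m (Lam e a) := by
  funext k
  rcases lt_or_ge (N k) (2 ^ m) with h | h
  · rw [lo_of_lt h, Lam, lo_of_lt h, Lam]
  · rw [lo_of_ge h, Lam, lo_of_ge h, mul_zero]

theorem Bf_lo_tendsto {e : ℕ} {u : Fin 3 → K3 → ℂ} (hu : ∀ i, Rap (u i)) :
    Tendsto (fun m => Bf e u (fun i => lo m (u i)) (fun i => lo m (u i))) atTop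
      (𝓝 (Bf e u u u)) := by
  unfold Bf
  refine tendsto_finsetSum _ fun i _ => tendsto_finsetSum _ fun j _ => ?_
  simp_rw [D_lo, Lam_lo]
  exact (tri_lo_tendsto (hu j).summable ((hu i).D j).summable (rap_Lam (hu i) e).summable).add
    (tri_lo_tendsto (hu j).summable ((hu i).D j).summable (rap_Lam (hu i) e).summable)

/-- The trilinear estimate. -/
theorem Bf_le {e : ℕ} {u : Fin 3 → K3 → ℂ} (hu : ∀ i, Rap (u i))
    (hdiv : ∀ k, ∑ j, (k j : ℂ) * u j k = 0) {G : ℕ → ℝ}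
    (hG : ∀ n j m x, ‖S (ch (2 ^ (n + 2)) (D m (u j))) x‖ ≤ G n) {Z : ℝ}
    (hZ : ∀ m, ∑ n ∈ Finset.range m, (54 * e + 90) * G n * (972 * Real.pi ^ 2 * 4 ^ n) ^ (e + 1)
        * ∑ i, n2 ((Wn n).indicator (u i)) ^ 2 ≤ Z) : ‖Bf (e + 1) u u u‖ ≤ Z := by
  refine le_of_tendsto (Bf_lo_tendsto hu).norm (Eventually.of_forall fun m => ?_)
  refine le_trans ?_ (hZ m)
  have h0 : Bf (e + 1) u (fun i => lo 0 (u i)) (fun i => lo 0 (u i)) = 0 := by
    unfold Bf
    refine Finset.sum_eq_zero fun i _ => Finset.sum_eq_zero fun j _ => ?_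
    have hz : ∀ k, D j (lo 0 (u i)) k = 0 := by
      intro k
      by_cases hk : N k = 0
      · have : k = 0 := N_eq_zero.1 hk
        rw [D, this]
        simp
      · rw [D, lo_of_ge (by rw [pow_zero]; omega), mul_zero]
    rw [tri_zero2 _ _ hz, add_zero]
  have h1 : Bf (e + 1) u (fun i => lo m (u i)) (fun i => lo m (u i))
      = ∑ n ∈ Finset.range m, (Bf (e + 1) u (fun i => lo (n + 1) (u i)) (fun i => lo (n + 1) (u i))
        - Bf (e + 1) u (fun i => lo n (u i)) (fun i => lo n (u i))) := by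
    rw [Finset.sum_range_sub (fun n => Bf (e + 1) u (fun i => lo n (u i)) (fun i => lo n (u i))),
      h0, sub_zero]
  rw [h1]
  exact norm_sum_le_of_le _ fun n _ => Bf_step hu hdiv n (hG n)

end Pool.Agent.W734.NS
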