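import Pool.Agent.W734.NS.Dyn

/-!
A continuation criterion for the Euler equations at one cut-off frequency.
-/

open MeasureTheory Set Filter Topology H459R3.NS
open scoped ContDiff ENNReal

namespace Pool.Agent.W734.NS

/-- the constant of the bootstrap -/
noncomputable def k2 (r : ℕ) : ℝ := 1 / (26 * 4 ^ (4 * r + 3) * 160)

theorem k2_pos (r : ℕ) : 0 < k2 r := by unfold k2; positivity

/-- The bound of the gradients of the low frequency parts. -/
theorem cut_bd {r : ℕ} {u : V → V} (hu : ∀ i, SP (fun y => u y i)) {T b : ℝ} (hT : 0 < T)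
    {n0 : ℕ} (hb : ∀ i m x, ‖S (ch (2 ^ (n0 + 4)) (D m (fr fun y => u y i))) x‖ ≤ b)
    (hX : hn (r + 2) u ≤ k2 r * (((2 : ℝ) ^ (n0 + 4)) ^ (4 * r + 3) / T ^ 2)) (n : ℕ) (i m : Fin 3)
    (x : V) : ‖S (ch (2 ^ (n + 2)) (D m (fr fun y => u y i))) x‖ ≤ 3 * b + 1 / T := by
  have rU : Rap (fr fun y => u y i) := rap_fr (hu i)
  have hlow : ∀ n ≤ n0, ‖S (ch (2 ^ (n + 2)) (D m (fr fun y => u y i))) x‖ ≤ 3 * b := by
    intro n hn
    have h1 : ch (2 ^ (n + 2)) (D m (fr fun y => u y i))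
        = fun k => chi (2 ^ (n + 2)) k * ch (2 ^ (n0 + 4)) (D m (fr fun y => u y i)) k := by
      funext k
      rw [ch, ch]
      rcases le_or_gt (N k) (2 ^ (n0 + 4)) with hk | hk
      · rw [chi_one hk, one_mul]
      · have h2 : 3 * 2 ^ (n + 2) ≤ 2 ^ (n0 + 4) := by
          have h3 : 2 ^ (n + 2) ≤ 2 ^ (n0 + 2) := Nat.pow_le_pow_right (by norm_num) (by omega)
          have h4 : 2 ^ (n0 + 4) = 4 * 2 ^ (n0 + 2) := by rw [pow_add, pow_add 2 n0 2]; ring
          omega
        rw [chi_zero (lt_of_le_of_lt h2 hk), zero_mul, zero_mul]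
    rw [h1]
    exact norm_S_chi_le (rap_ch (rU.D m) _).summable (fun x => hb i m x) _ x
  rcases le_or_gt n n0 with hn | hn
  · refine (hlow n hn).trans ?_
    have : 0 < 1 / T := by positivity
    linarith
  · set R0 : ℕ := 2 ^ (n0 + 2) with hR0
    set R : ℕ := 2 ^ (n + 2) with hR
    have hR01 : 1 ≤ R0 := Nat.one_le_two_pow
    have hRR : R0 ≤ R := Nat.pow_le_pow_right (by norm_num) (by omega)
    have hdec : ch R (D m (fr fun y => u y i)) = fun k => ch R0 (D m (fr fun y => u y i)) k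
        + (chi R k - chi R0 k) * D m (fr fun y => u y i) k := by
      funext k
      simp only [ch]
      ring
    have s1 : Summable (ch R0 (D m (fr fun y => u y i))) := (rap_ch (rU.D m) R0).summable
    have s2 : Summable fun k => (chi R k - chi R0 k) * D m (fr fun y => u y i) k := by
      have := (rap_ch (rU.D m) R).summable.sub s1
      refine this.congr fun k => ?_
      simp only [ch]
      ring
    rw [hdec, S_add' s1 s2]
    have b1 := hlow n0 le_rfl
    have b2 : ‖S (fun k => (chi R k - chi R0 k) * D m (fr fun y => u y i) k) x‖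
        ≤ 4 * Real.pi * Real.sqrt (26 / (R0 : ℝ) ^ (4 * r + 3)
          * nd (4 * r + 8) (fr fun y => u y i)) := by
      refine sup_tail rU hR01 r (by positivity) (fun k hk => ?_) (fun k => ?_) x
      · rw [chi_one hk, chi_one (hk.trans hRR), sub_self, zero_mul]
      · rw [norm_mul, norm_D]
        have h1 : ‖chi R k - chi R0 k‖ ≤ 2 := by
          refine (norm_sub_le _ _).trans ?_
          have := norm_chi_le R k
          have := norm_chi_le R0 k
          linarith
        have h2 := abs_le_of_Qf (mem_Qf.2 (le_refl (N k))) m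
        have hp := Real.pi_pos
        calc ‖chi R k - chi R0 k‖ * (2 * Real.pi * |(k m : ℝ)| * ‖fr (fun y => u y i) k‖)
            ≤ 2 * (2 * Real.pi * (N k : ℝ) * ‖fr (fun y => u y i) k‖) := by gcongr
          _ = _ := by ring
    have b3 : 26 / (R0 : ℝ) ^ (4 * r + 3) * nd (4 * r + 8) (fr fun y => u y i)
        ≤ 1 / 160 * (1 / T) ^ 2 := by
      have h1 : nd (4 * r + 8) (fr fun y => u y i)
          ≤ k2 r * (((2 : ℝ) ^ (n0 + 4)) ^ (4 * r + 3) / T ^ 2) := by
        refine le_trans ?_ hX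
        refine le_trans ?_ (nd_hn_le hu r)
        exact Finset.single_le_sum (f := fun j => nd (4 * r + 8) (fr fun y => u y j))
          (fun _ _ => nd_nonneg _ _) (Finset.mem_univ i)
      have h2 : (2 : ℝ) ^ (n0 + 4) = 4 * R0 := by
        rw [hR0]
        push_cast
        rw [pow_add, pow_add 2 n0 2]
        ring
      have hR00 : (0 : ℝ) < R0 := by exact_mod_cast hR01
      calc 26 / (R0 : ℝ) ^ (4 * r + 3) * nd (4 * r + 8) (fr fun y => u y i)
          ≤ 26 / (R0 : ℝ) ^ (4 * r + 3)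
            * (k2 r * (((2 : ℝ) ^ (n0 + 4)) ^ (4 * r + 3) / T ^ 2)) := by gcongr
        _ = _ := by
            rw [h2, mul_pow, k2]
            field_simp
    have b4 : 4 * Real.pi * Real.sqrt (26 / (R0 : ℝ) ^ (4 * r + 3)
          * nd (4 * r + 8) (fr fun y => u y i)) ≤ 1 / T := by
      have hp4 : Real.pi < 3.15 := Real.pi_lt_d2
      have hp0 := Real.pi_pos
      have h1 : Real.sqrt (26 / (R0 : ℝ) ^ (4 * r + 3) * nd (4 * r + 8) (fr fun y => u y i))
          ≤ 1 / 12.64 * (1 / T) := by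
        rw [Real.sqrt_le_left (by positivity)]
        refine b3.trans ?_
        rw [mul_pow]
        have : 0 ≤ (1 / T) ^ 2 := by positivity
        nlinarith
      have hT' : 0 < 1 / T := by positivity
      calc 4 * Real.pi * Real.sqrt (26 / (R0 : ℝ) ^ (4 * r + 3)
            * nd (4 * r + 8) (fr fun y => u y i))
          ≤ 4 * 3.15 * (1 / 12.64 * (1 / T)) := by gcongr
        _ ≤ 1 / T := by nlinarith
    refine (norm_add_le _ _).trans ?_
    linarith [b2.trans b4]

/-- The criterion at one cut-off frequency. -/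
theorem cut_main (r : ℕ) :
    ∃ c C κ : ℝ, 0 < c ∧ 0 < C ∧ 0 < κ ∧ ∀ (ν T X : ℝ) (J : ℕ) (u : ℝ → V → V) (P : ℝ → V → ℝ)
      (β : ℝ → ℝ), 0 ≤ ν → 0 < T → IsSol ν T u P → X = C * (1 + T ^ 2 * hn (r + 2) (u 0)) →
      IntegrableOn β (Ioo 0 T) →
      ∫ t in Ioo 0 T, β t ≤ c * Real.log (((2 : ℝ) ^ J) ^ (4 * r + 3) / X) →
      (∀ t ∈ Ioo 0 T, ∀ i m x, ‖S (ch (2 ^ J) (D m (fr fun y => u t y i))) x‖ ≤ β t) →
      ∀ t ∈ Ico 0 T, hn (r + 2) (u t) < κ * (((2 : ℝ) ^ J) ^ (4 * r + 3) / T ^ 2) := by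
  have hCb := Cb_pos r
  have hk := k2_pos r
  set C : ℝ := Real.exp (Cb r + 1) / k2 r + 1 + 16 ^ (4 * r + 3) with hC
  have hC0 : 0 < C := by positivity
  have hCκ : Real.exp (Cb r + 1) < k2 r * C := by
    rw [hC, mul_add, mul_add, mul_div_cancel₀ _ hk.ne']
    have : 0 < k2 r * 16 ^ (4 * r + 3) := by positivity
    linarith
  have hC16 : 16 ^ (4 * r + 3) ≤ C := by
    have : 0 < Real.exp (Cb r + 1) / k2 r := by positivity
    rw [hC]
    linarith
  refine ⟨1 / (3 * Cb r), C, k2 r, by positivity, hC0, hk, ?_⟩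
  intro ν T X J u P β hν hT h hX hβi hβ hcomp
  set Nw : ℝ := (2 : ℝ) ^ J with hNw
  have hNw0 : 0 < Nw := by positivity
  have hX00 : 0 ≤ hn (r + 2) (u 0) := hn_nonneg _ _
  have hXC : C ≤ X := by
    rw [hX]
    have : 0 ≤ C * (T ^ 2 * hn (r + 2) (u 0)) := by positivity
    linarith [mul_add C 1 (T ^ 2 * hn (r + 2) (u 0))]
  have hX0 : 0 < X := hC0.trans_le hXC
  have hβ0 : ∀ t ∈ Ioo 0 T, 0 ≤ β t := fun t ht =>
    (norm_nonneg _).trans (hcomp t ht 0 0 0)
  set L := Real.log (Nw ^ (4 * r + 3) / X) with hL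
  have hL0 : 0 ≤ L := by
    have h1 : 0 ≤ ∫ t in Ioo 0 T, β t := setIntegral_nonneg measurableSet_Ioo hβ0
    exact nonneg_of_mul_nonneg_right (h1.trans hβ) (by positivity)
  have hNX : X ≤ Nw ^ (4 * r + 3) := by
    have h1 : 0 < Nw ^ (4 * r + 3) / X := by positivity
    have h2 : 1 ≤ Nw ^ (4 * r + 3) / X := by
      by_contra hcon
      push Not at hcon
      rcases eq_or_lt_of_le hL0 with h3 | h3
      · have := Real.exp_log h1
        rw [← hL, ← h3, Real.exp_zero] at this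
        linarith
      · have := Real.log_neg h1 hcon
        linarith
    rwa [le_div_iff₀ hX0, one_mul] at h2
  have hJ4 : 4 ≤ J := by
    by_contra hcon
    have h1 : Nw < 16 := by
      have : Nw ≤ 2 ^ 3 := by
        rw [hNw]
        exact pow_le_pow_right₀ (by norm_num) (by omega)
      linarith
    have h2 : Nw ^ (4 * r + 3) < 16 ^ (4 * r + 3) := pow_lt_pow_left₀ h1 hNw0.le (by omega)
    linarith
  obtain ⟨n0, rfl⟩ : ∃ n0, J = n0 + 4 := ⟨J - 4, by omega⟩
  have hfin : (0 * (0 : ℝ) + 1 / T ^ 2 + hn (r + 2) (u 0))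
      * Real.exp ((L + Cb r) + 0 * 0 + 1) < k2 r * (Nw ^ (4 * r + 3) / T ^ 2) := by
    have e1 : Nw ^ (4 * r + 3) / X = Real.exp L := by rw [hL, Real.exp_log (by positivity)]
    have e2 : Real.exp ((L + Cb r) + 0 * 0 + 1)
        = Nw ^ (4 * r + 3) / X * Real.exp (Cb r + 1) := by
      rw [e1, ← Real.exp_add]
      congr 1
      ring
    rw [e2]
    have e3 : 0 * (0 : ℝ) + 1 / T ^ 2 + hn (r + 2) (u 0)
        = (1 + T ^ 2 * hn (r + 2) (u 0)) / T ^ 2 := by field_simp; ring
    have hY : 0 < 1 + T ^ 2 * hn (r + 2) (u 0) := by positivity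
    rw [e3, hX]
    calc (1 + T ^ 2 * hn (r + 2) (u 0)) / T ^ 2
          * (Nw ^ (4 * r + 3) / (C * (1 + T ^ 2 * hn (r + 2) (u 0))) * Real.exp (Cb r + 1))
        = Real.exp (Cb r + 1) * (Nw ^ (4 * r + 3) / T ^ 2 / C) := by
          field_simp
      _ < k2 r * C * (Nw ^ (4 * r + 3) / T ^ 2 / C) :=
          mul_lt_mul_of_pos_right hCκ (by positivity)
      _ = _ := by field_simp
  intro t' ht'
  have hβt : IntegrableOn β (Icc 0 t') := by
    rw [integrableOn_Icc_iff_integrableOn_Ioc, integrableOn_Ioc_iff_integrableOn_Ioo]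
    exact hβi.mono_set (Ioo_subset_Ioo_right ht'.2.le)
  have hcst : IntegrableOn (fun _ : ℝ => 1 / T) (Icc 0 t') :=
    integrableOn_const (by simp) (by simp)
  refine boot1 (f := fun s => hn (r + 2) (u s))
    (f' := fun s => -(2 * ν * hn' (r + 2) (u s)) - 2 * nl (r + 2) (fun i y => u s y i))
    (y := fun _ => 0) (t' := t')
    (g1 := fun s => Cb r * (3 * β s + 1 / T)) (g2 := 0) (g4 := 0)
    (B1 := L + Cb r) (Kn := k2 r * (Nw ^ (4 * r + 3) / T ^ 2)) (A0 := 1 / T ^ 2)
    (E2 := 0)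
    (fun s => hn_nonneg _ _) ?_ (fun s hs => hn_hasDerivAt h (r + 2) ⟨hs.1, hs.2.trans ht'.2⟩)
    (fun s => le_rfl) continuousOn_const (fun t ht => by simp) le_rfl (by positivity)
    (fun s hs => ?_) ((hβt.const_mul 3).add hcst |>.const_mul _) (fun t ht => ?_) le_rfl le_rfl
    (fun s hs hsK => ?_) hfin t' ⟨ht'.1, le_rfl⟩
  · exact (hn_continuousOn h (r + 2)).mono fun s hs => ⟨hs.1, hs.2.trans_lt ht'.2⟩
  · have := hβ0 s ⟨hs.1, hs.2.trans ht'.2⟩
    positivity
  · have i1 : IntervalIntegrable (fun s => 3 * β s) volume 0 t :=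
      (intervalIntegrable_iff_integrableOn_Icc_of_le ht.1).2
        ((hβt.mono_set (Icc_subset_Icc_right ht.2)).const_mul 3)
    rw [intervalIntegral.integral_const_mul, intervalIntegral.integral_add i1
      intervalIntegrable_const, intervalIntegral.integral_const_mul, intervalIntegral.integral_const]
    have a1 : ∫ s in (0 : ℝ)..t, β s ≤ ∫ s in Ioo 0 T, β s := by
      rw [intervalIntegral.integral_of_le ht.1, integral_Ioc_eq_integral_Ioo]
      refine setIntegral_mono_set hβi ?_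
        (Ioo_subset_Ioo_right (ht.2.trans ht'.2.le)).eventuallyLE
      filter_upwards [ae_restrict_mem measurableSet_Ioo] with s hs
      exact hβ0 s hs
    have a2 : ∫ s in (0 : ℝ)..t, β s ≤ 1 / (3 * Cb r) * L := a1.trans hβ
    have a3 : (t - 0) • (1 / T) ≤ 1 := by
      rw [smul_eq_mul, sub_zero, mul_one_div, div_le_one hT]
      exact (ht.2.trans ht'.2.le)
    calc Cb r * (3 * (∫ s in (0 : ℝ)..t, β s) + (t - 0) • (1 / T))
        ≤ Cb r * (3 * (1 / (3 * Cb r) * L) + 1) := by gcongr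
      _ = L + Cb r := by field_simp
  · have hs' : s ∈ Ioo 0 T := ⟨hs.1, hs.2.trans ht'.2⟩
    have hI : s ∈ Ico 0 T := ⟨hs'.1.le, hs'.2⟩
    have hG := cut_bd (r := r) (fun i => h.sp hI i) hT (hcomp s hs') hsK
    have key := nl_le (r := r) (v := u s) (fun i => h.sp hI i) (h.divfree s hI)
      (K := 0) (L0 := 0) (ε := 0) (γ := 3 * β s + 1 / T) le_rfl le_rfl le_rfl
      (by have := hβ0 s hs'; positivity) (fun n j m x => by
        rw [if_neg (by push Not; positivity)]
        have := hG n j m x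
        linarith)
    have h3 : -(2 * nl (r + 2) (fun i y => u s y i)) ≤ 2 * |nl (r + 2) (fun i y => u s y i)| := by
      have := neg_le_abs (nl (r + 2) (fun i y => u s y i))
      linarith
    have h4 : 0 ≤ ν * hn' (r + 2) (u s) := mul_nonneg hν (hn'_nonneg _ _)
    have e3 : Cb r * (0 * 0 ^ (4 * r + 6) * enstrophy (u s) + 0 * hn' (r + 2) (u s)
        + (3 * β s + 1 / T) * hn (r + 2) (u s))
        = Cb r * (3 * β s + 1 / T) * hn (r + 2) (u s) := by ring
    rw [e3] at key
    linarith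

end Pool.Agent.W734.NS
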