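import Pool.Agent.W734.NS.Cut

/-!
Continuation criteria for the Euler equations at one cut-off frequency, logarithmic form.
-/

open MeasureTheory Set Filter Topology H459R3.NS
open scoped ContDiff ENNReal

namespace Pool.Agent.W734.NS

/-- A Gronwall inequality with a bootstrap. -/
theorem boot2 {z z' a b : ℝ → ℝ} {t' A1 B1 Kn : ℝ} (hz0 : ∀ s, 0 ≤ z s)
    (hzc : ContinuousOn z (Icc 0 t')) (hzd : ∀ s ∈ Ioo 0 t', HasDerivAt z (z' s) s)
    (ha0 : ∀ s ∈ Ioo 0 t', 0 ≤ a s) (hb0 : ∀ s ∈ Ioo 0 t', 0 ≤ b s)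
    (hai : IntegrableOn a (Icc 0 t')) (hbi : IntegrableOn b (Icc 0 t'))
    (hA : ∀ t ∈ Icc 0 t', ∫ s in (0 : ℝ)..t, a s ≤ A1)
    (hB : ∀ t ∈ Icc 0 t', ∫ s in (0 : ℝ)..t, b s ≤ B1) (hB1 : 0 < B1)
    (hd : ∀ s ∈ Ioo 0 t', z s ≤ Kn → z' s ≤ a s * z s + b s)
    (hfin : (B1 + z 0) * Real.exp (A1 + 1) < Kn) :
    ∀ t ∈ Icc 0 t', z t < Kn := by
  -- the bound while the function is at most `Kn`
  have hbd : ∀ t ∈ Icc 0 t', (∀ s ∈ Ioo 0 t, z s ≤ Kn) → z t < Kn := by
    intro t ht hK
    have hzct : ContinuousOn z (Icc 0 t) := hzc.mono (Icc_subset_Icc_right ht.2)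
    have hpos : ∀ s, 0 < z s + B1 := fun s => by linarith [hz0 s]
    have hc : ContinuousOn (fun s => Real.log (z s + B1)) (Icc 0 t) :=
      (hzct.add continuousOn_const).log fun s _ => (hpos s).ne'
    have hd' : ∀ s ∈ Ioo 0 t, HasDerivWithinAt (fun s => Real.log (z s + B1))
        (z' s / (z s + B1)) (Ioi s) s := by
      intro s hs
      exact (((hzd s ⟨hs.1, hs.2.trans_le ht.2⟩).add_const B1).log (hpos s).ne').hasDerivWithinAt
    have hle : ∀ s ∈ Ioo 0 t, z' s / (z s + B1) ≤ a s + b s / B1 := by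
      intro s hs
      have hs' : s ∈ Ioo 0 t' := ⟨hs.1, hs.2.trans_le ht.2⟩
      rw [div_le_iff₀ (hpos s)]
      have a1 := hd s hs' (hK s hs)
      have a2 := ha0 s hs'
      have a3 := hb0 s hs'
      have a4 := hz0 s
      have a5 : b s / B1 * B1 = b s := div_mul_cancel₀ _ hB1.ne'
      have a6 : (a s + b s / B1) * (z s + B1)
          = a s * z s + b s / B1 * B1 + (a s * B1 + b s / B1 * z s) := by ring
      rw [a6, a5]
      have a7 : 0 ≤ a s * B1 + b s / B1 * z s := by positivity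
      linarith
    have hat : IntegrableOn a (Icc 0 t) := hai.mono_set (Icc_subset_Icc_right ht.2)
    have hbt : IntegrableOn b (Icc 0 t) := hbi.mono_set (Icc_subset_Icc_right ht.2)
    have hgi : IntegrableOn (fun s => a s + b s / B1) (Icc 0 t) := hat.add (hbt.div_const _)
    have h1 := intervalIntegral.sub_le_integral_of_hasDeriv_right_of_le ht.1 hc hd' hgi hle
    have i1 : IntervalIntegrable a volume 0 t :=
      (intervalIntegrable_iff_integrableOn_Icc_of_le ht.1).2 hat
    have i2 : IntervalIntegrable (fun s => b s / B1) volume 0 t :=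
      ((intervalIntegrable_iff_integrableOn_Icc_of_le ht.1).2 hbt).div_const _
    rw [intervalIntegral.integral_add i1 i2, intervalIntegral.integral_div] at h1
    have h2 := hA t ht
    have h3 := hB t ht
    have h4 : (∫ s in (0 : ℝ)..t, b s) / B1 ≤ 1 := by
      rw [div_le_one hB1]
      exact h3
    have h5 : Real.log (z t + B1) ≤ Real.log (z 0 + B1) + (A1 + 1) := by linarith
    have h6 : z t + B1 ≤ (z 0 + B1) * Real.exp (A1 + 1) := by
      calc z t + B1 = Real.exp (Real.log (z t + B1)) := (Real.exp_log (hpos t)).symm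
        _ ≤ Real.exp (Real.log (z 0 + B1) + (A1 + 1)) := Real.exp_le_exp.2 h5
        _ = (z 0 + B1) * Real.exp (A1 + 1) := by rw [Real.exp_add, Real.exp_log (hpos 0)]
    have h7 : (z 0 + B1) * Real.exp (A1 + 1) < Kn := by
      rw [add_comm (z 0) B1]
      exact hfin
    linarith
  -- the function never reaches `Kn`
  intro t ht
  by_contra hcon
  push Not at hcon
  have hzct : ContinuousOn z (Icc 0 t) := hzc.mono (Icc_subset_Icc_right ht.2)
  have hcl : IsClosed (Icc 0 t ∩ z ⁻¹' Ici Kn) :=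
    hzct.preimage_isClosed_of_isClosed isClosed_Icc isClosed_Ici
  have hcp : IsCompact (Icc 0 t ∩ z ⁻¹' Ici Kn) :=
    isCompact_Icc.of_isClosed_subset hcl inter_subset_left
  obtain ⟨t1, ht1, hmin⟩ := hcp.exists_isLeast ⟨t, ⟨ht.1, le_rfl⟩, hcon⟩
  have h1 := hbd t1 ⟨ht1.1.1, ht1.1.2.trans ht.2⟩ (fun s hs => by
    by_contra hc
    push Not at hc
    have := hmin (show s ∈ Icc 0 t ∩ z ⁻¹' Ici Kn from
      ⟨⟨hs.1.le, (hs.2.trans_le ht1.1.2).le⟩, hc.le⟩)
    linarith [hs.2])
  have h2 : Kn ≤ z t1 := ht1.2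
  linarith

/-- The criterion: a truncated, quantitative form of the criteria of Kato and Beale-Kato-Majda. -/
theorem cut_log (r : ℕ) :
    ∃ C : ℝ, 0 < C ∧ ∀ (ν T : ℝ) (J : ℕ) (u : ℝ → V → V) (P : ℝ → V → ℝ)
      (α β : ℝ → ℝ), 0 ≤ ν → 0 < T → IsSol ν T u P → (∀ t ∈ Ioo 0 T, 0 ≤ α t) →
      (∀ t ∈ Ioo 0 T, 0 ≤ β t) → IntegrableOn α (Ioo 0 T) → IntegrableOn β (Ioo 0 T) →
      C * (1 + Real.log (1 + T ^ 2 * hn (r + 2) (u 0)) + ∫ t in Ioo 0 T, β t)
        * Real.exp (C * ∫ t in Ioo 0 T, α t) ≤ J →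
      (∀ t ∈ Ioo 0 T, ∀ n ≤ J, ∀ i m x,
        ‖S (ch (2 ^ n) (D m (fr fun y => u t y i))) x‖ ≤ β t + n * α t) →
      ∀ t ∈ Ico 0 T, T ^ 2 * hn (r + 2) (u t) < Real.exp J := by
  have hCb := Cb_pos r
  have hk := k2_pos r
  have hk1 : k2 r ≤ 1 := by
    have h1 : (1 : ℝ) ≤ 4 ^ (4 * r + 3) := one_le_pow₀ (by norm_num)
    rw [k2, div_le_one (by positivity)]
    linarith
  set B2 : ℝ := Real.log (1 / k2 r) with hB2
  have hB20 : 0 ≤ B2 := Real.log_nonneg (by rw [le_div_iff₀ hk]; linarith)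
  set D0 : ℝ := 3 * Cb r * (B2 + 6) + 1 with hD0
  have hD00 : 0 < D0 := by positivity
  set C : ℝ := D0 * Real.exp 1 + B2 + 6 + 3 * Cb r + 1 with hC
  have hC0 : 0 < C := by positivity
  refine ⟨C, hC0, ?_⟩
  intro ν T J u P α β hν hT h hα0 hβ0 hαi hβi hJ hcomp
  set Ia := ∫ t in Ioo 0 T, α t with hIa
  set Ib := ∫ t in Ioo 0 T, β t with hIb
  have hIa0 : 0 ≤ Ia := setIntegral_nonneg measurableSet_Ioo hα0
  have hIb0 : 0 ≤ Ib := setIntegral_nonneg measurableSet_Ioo hβ0
  have hf0 : ∀ s, 0 ≤ T ^ 2 * hn (r + 2) (u s) := fun s => mul_nonneg (sq_nonneg T) (hn_nonneg _ _)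
  set z : ℝ → ℝ := fun s => Real.log (1 + T ^ 2 * hn (r + 2) (u s)) with hz
  have hz0 : ∀ s, 0 ≤ z s := fun s => Real.log_nonneg (by linarith [hf0 s])
  have hfin : (Cb r * (3 * Ib + 3 * (B2 + 5) * Ia + 1) + z 0) * Real.exp (3 * Cb r * Ia + 1)
      < J - (B2 + 5) := by
    set w := 1 + z 0 + Ib with hw
    have hz00 := hz0 0
    have hw1 : 1 ≤ w := by rw [hw]; linarith
    have h1 : Cb r * (3 * Ib + 3 * (B2 + 5) * Ia + 1) + z 0 ≤ D0 * (w * (1 + Ia)) := by
      have e1 : D0 * (w * (1 + Ia)) = 3 * Cb r * (B2 + 6) * (1 + z 0 + Ib) * (1 + Ia)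
          + (1 + z 0 + Ib) * (1 + Ia) := by rw [hD0, hw]; ring
      have e2 : 3 * Cb r * (B2 + 6) * (1 + z 0 + Ib) * (1 + Ia)
          = Cb r * (3 * Ib + 3 * (B2 + 5) * Ia + 1)
            + Cb r * (3 * (B2 + 6) * z 0 + 3 * (B2 + 5) * Ib + 3 * Ia + (3 * (B2 + 6) - 1)
              + 3 * (B2 + 6) * (z 0 + Ib) * Ia) := by ring
      rw [e1, e2]
      have h2 : 0 ≤ Cb r * (3 * (B2 + 6) * z 0 + 3 * (B2 + 5) * Ib + 3 * Ia + (3 * (B2 + 6) - 1)
              + 3 * (B2 + 6) * (z 0 + Ib) * Ia) := by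
        have : 0 ≤ 3 * (B2 + 6) - 1 := by linarith
        positivity
      have h3 : z 0 ≤ (1 + z 0 + Ib) * (1 + Ia) := by nlinarith [mul_nonneg hz00 hIa0, mul_nonneg hIb0 hIa0]
      linarith
    have h2 : 1 + Ia ≤ Real.exp Ia := by
      have := Real.add_one_le_exp Ia
      linarith
    have h3 : (Cb r * (3 * Ib + 3 * (B2 + 5) * Ia + 1) + z 0) * Real.exp (3 * Cb r * Ia + 1)
        ≤ D0 * Real.exp 1 * (w * Real.exp (C * Ia)) := by
      calc (Cb r * (3 * Ib + 3 * (B2 + 5) * Ia + 1) + z 0) * Real.exp (3 * Cb r * Ia + 1)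
          ≤ D0 * (w * Real.exp Ia) * Real.exp (3 * Cb r * Ia + 1) := by
            gcongr
            exact h1.trans (by gcongr)
        _ = D0 * Real.exp 1 * (w * Real.exp ((3 * Cb r + 1) * Ia)) := by
            have : Real.exp ((3 * Cb r + 1) * Ia) = Real.exp Ia * Real.exp (3 * Cb r * Ia) := by
              rw [← Real.exp_add]
              congr 1
              ring
            rw [this, Real.exp_add]
            ring
        _ ≤ D0 * Real.exp 1 * (w * Real.exp (C * Ia)) := by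
            gcongr
            rw [hC]
            have : 0 ≤ D0 * Real.exp 1 := by positivity
            linarith
    have h4 : 1 ≤ w * Real.exp (C * Ia) :=
      one_le_mul_of_one_le_of_one_le hw1 (Real.one_le_exp (by positivity))
    have h5 : (D0 * Real.exp 1 + B2 + 6) * (w * Real.exp (C * Ia)) ≤ J := by
      refine le_trans ?_ hJ
      calc (D0 * Real.exp 1 + B2 + 6) * (w * Real.exp (C * Ia))
          ≤ C * (w * Real.exp (C * Ia)) := by
            gcongr
            rw [hC]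
            linarith
        _ = _ := by rw [hw]; ring
    nlinarith [mul_nonneg (by linarith : (0 : ℝ) ≤ B2 + 6) (by linarith : (0 : ℝ) ≤ w * Real.exp (C * Ia) - 1)]
  have hmain : ∀ t ∈ Ico 0 T, z t < J - (B2 + 5) := by
    intro t' ht'
    have hαt : IntegrableOn α (Icc 0 t') := by
      rw [integrableOn_Icc_iff_integrableOn_Ioc, integrableOn_Ioc_iff_integrableOn_Ioo]
      exact hαi.mono_set (Ioo_subset_Ioo_right ht'.2.le)
    have hβt : IntegrableOn β (Icc 0 t') := by
      rw [integrableOn_Icc_iff_integrableOn_Ioc, integrableOn_Ioc_iff_integrableOn_Ioo]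
      exact hβi.mono_set (Ioo_subset_Ioo_right ht'.2.le)
    have hcst : IntegrableOn (fun _ : ℝ => 1 / T) (Icc 0 t') :=
      integrableOn_const (by simp) (by simp)
    have hle : ∀ {g : ℝ → ℝ}, IntegrableOn g (Ioo 0 T) → (∀ t ∈ Ioo 0 T, 0 ≤ g t) →
        ∀ t ∈ Icc 0 t', ∫ s in (0 : ℝ)..t, g s ≤ ∫ s in Ioo 0 T, g s := by
      intro g hgi hg0 t ht
      rw [intervalIntegral.integral_of_le ht.1, integral_Ioc_eq_integral_Ioo]
      refine setIntegral_mono_set hgi ?_
        (Ioo_subset_Ioo_right (ht.2.trans ht'.2.le)).eventuallyLE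
      filter_upwards [ae_restrict_mem measurableSet_Ioo] with s hs
      exact hg0 s hs
    refine boot2 (z := z) (z' := fun s => T ^ 2 * (-(2 * ν * hn' (r + 2) (u s))
        - 2 * nl (r + 2) (fun i y => u s y i)) / (1 + T ^ 2 * hn (r + 2) (u s)))
      (a := fun s => 3 * Cb r * α s)
      (b := fun s => Cb r * (3 * β s + (3 * (B2 + 5)) * α s + 1 / T)) (t' := t')
      (A1 := 3 * Cb r * Ia) (B1 := Cb r * (3 * Ib + 3 * (B2 + 5) * Ia + 1)) hz0 ?_
      (fun s hs => ?_) (fun s hs => ?_) (fun s hs => ?_) (hαt.const_mul _)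
      ((((hβt.const_mul 3).add (hαt.const_mul _)).add hcst).const_mul _) (fun t ht => ?_)
      (fun t ht => ?_) (by positivity) (fun s hs hsK => ?_) hfin t' ⟨ht'.1, le_rfl⟩
    · have h1 : ContinuousOn (fun s => hn (r + 2) (u s)) (Icc 0 t') :=
        (hn_continuousOn h (r + 2)).mono fun s hs => ⟨hs.1, hs.2.trans_lt ht'.2⟩
      refine ContinuousOn.log (continuousOn_const.add (continuousOn_const.mul h1)) fun s hs => ?_
      have := hf0 s
      linarith
    · have h1 := hn_hasDerivAt h (r + 2) (t := s) ⟨hs.1, hs.2.trans ht'.2⟩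
      exact ((h1.const_mul (T ^ 2)).const_add 1).log (by linarith [hf0 s])
    · have := hα0 s ⟨hs.1, hs.2.trans ht'.2⟩
      positivity
    · have h1 := hα0 s ⟨hs.1, hs.2.trans ht'.2⟩
      have h2 := hβ0 s ⟨hs.1, hs.2.trans ht'.2⟩
      positivity
    · rw [intervalIntegral.integral_const_mul]
      have := hle hαi hα0 t ht
      gcongr
    · have i1 : IntervalIntegrable (fun s => 3 * β s) volume 0 t :=
        (intervalIntegrable_iff_integrableOn_Icc_of_le ht.1).2
          ((hβt.mono_set (Icc_subset_Icc_right ht.2)).const_mul 3)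
      have i2 : IntervalIntegrable (fun s => (3 * (B2 + 5)) * α s) volume 0 t :=
        (intervalIntegrable_iff_integrableOn_Icc_of_le ht.1).2
          ((hαt.mono_set (Icc_subset_Icc_right ht.2)).const_mul _)
      rw [intervalIntegral.integral_const_mul, intervalIntegral.integral_add (i1.add i2)
        intervalIntegrable_const, intervalIntegral.integral_add i1 i2,
        intervalIntegral.integral_const_mul, intervalIntegral.integral_const_mul,
        intervalIntegral.integral_const]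
      have a1 := hle hβi hβ0 t ht
      have a2 := hle hαi hα0 t ht
      have a3 : (t - 0) • (1 / T) ≤ 1 := by
        rw [smul_eq_mul, sub_zero, mul_one_div, div_le_one hT]
        exact (ht.2.trans ht'.2.le)
      gcongr
    · have hs' : s ∈ Ioo 0 T := ⟨hs.1, hs.2.trans ht'.2⟩
      have hI : s ∈ Ico 0 T := ⟨hs'.1.le, hs'.2⟩
      have hαs := hα0 s hs'
      have hβs := hβ0 s hs'
      have hzs := hz0 s
      -- the scale
      set n0 : ℕ := ⌈z s + B2⌉₊ with hn0
      have hn1 : z s + B2 ≤ n0 := Nat.le_ceil _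
      have hn2 : (n0 : ℝ) ≤ z s + B2 + 1 := (Nat.ceil_lt_add_one (by positivity)).le
      have hn4 : n0 + 4 ≤ J := by
        have : ((n0 + 4 : ℕ) : ℝ) ≤ J := by
          push_cast
          linarith
        exact_mod_cast this
      have hX : hn (r + 2) (u s) ≤ k2 r * (((2 : ℝ) ^ (n0 + 4)) ^ (4 * r + 3) / T ^ 2) := by
        have h1 : 1 + T ^ 2 * hn (r + 2) (u s) = Real.exp (z s) := by
          rw [hz]
          exact (Real.exp_log (by linarith [hf0 s])).symm
        have h2 : Real.exp (z s) ≤ k2 r * ((2 : ℝ) ^ (n0 + 4)) ^ (4 * r + 3) := by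
          have h3 : Real.exp (z s + B2) ≤ ((2 : ℝ) ^ (n0 + 4)) ^ (4 * r + 3) := by
            calc Real.exp (z s + B2) ≤ Real.exp n0 := Real.exp_le_exp.2 hn1
              _ = Real.exp 1 ^ n0 := by rw [← Real.exp_nat_mul, mul_one]
              _ ≤ (8 : ℝ) ^ n0 := by
                  gcongr
                  linarith [Real.exp_one_lt_d9]
              _ = ((2 : ℝ) ^ n0) ^ 3 := by rw [← pow_mul, mul_comm, pow_mul]; norm_num
              _ ≤ ((2 : ℝ) ^ (n0 + 4)) ^ 3 := by
                  gcongr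
                  · norm_num
                  · omega
              _ ≤ ((2 : ℝ) ^ (n0 + 4)) ^ (4 * r + 3) :=
                  pow_le_pow_right₀ (one_le_pow₀ (by norm_num)) (by omega)
          have e0 : Real.exp B2 = 1 / k2 r := by
            rw [hB2]
            exact Real.exp_log (one_div_pos.2 hk)
          rw [Real.exp_add, e0] at h3
          have h4 := mul_le_mul_of_nonneg_left h3 hk.le
          have h5 : k2 r * (Real.exp (z s) * (1 / k2 r)) = Real.exp (z s) := by
            have := hk.ne'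
            field_simp
          linarith
        have h4 : T ^ 2 * hn (r + 2) (u s) ≤ k2 r * ((2 : ℝ) ^ (n0 + 4)) ^ (4 * r + 3) := by
          linarith
        have h5 : hn (r + 2) (u s) = T ^ 2 * hn (r + 2) (u s) / T ^ 2 := by field_simp
        rw [h5, ← mul_div_assoc]
        gcongr
      have hb : ∀ i m x, ‖S (ch (2 ^ (n0 + 4)) (D m (fr fun y => u s y i))) x‖
          ≤ β s + (z s + B2 + 5) * α s := by
        intro i m x
        refine (hcomp s hs' (n0 + 4) hn4 i m x).trans ?_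
        push_cast
        have h1 : (n0 : ℝ) + 4 ≤ z s + B2 + 5 := by linarith
        have h2 := mul_le_mul_of_nonneg_right h1 hαs
        linarith
      have hG := cut_bd (r := r) (fun i => h.sp hI i) hT hb hX
      set G : ℝ := 3 * (β s + (z s + B2 + 5) * α s) + 1 / T with hGdef
      have hG0 : 0 ≤ G := by positivity
      have key := nl_le (r := r) (v := u s) (fun i => h.sp hI i) (h.divfree s hI)
        (K := 0) (L0 := 0) (ε := 0) (γ := G) le_rfl le_rfl le_rfl hG0 (fun n j m x => by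
          rw [if_neg (by push Not; positivity)]
          have := hG n j m x
          linarith)
      have h3 : -(2 * nl (r + 2) (fun i y => u s y i)) ≤ 2 * |nl (r + 2) (fun i y => u s y i)| := by
        have := neg_le_abs (nl (r + 2) (fun i y => u s y i))
        linarith
      have h4 : 0 ≤ ν * hn' (r + 2) (u s) := mul_nonneg hν (hn'_nonneg _ _)
      have e3 : Cb r * (0 * 0 ^ (4 * r + 6) * enstrophy (u s) + 0 * hn' (r + 2) (u s)
          + G * hn (r + 2) (u s)) = Cb r * G * hn (r + 2) (u s) := by ring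
      rw [e3] at key
      have hpos : 0 < 1 + T ^ 2 * hn (r + 2) (u s) := by linarith [hf0 s]
      rw [div_le_iff₀ hpos]
      have h6 : 0 ≤ Cb r * G := by positivity
      have h7 : 3 * Cb r * α s * z s + Cb r * (3 * β s + (3 * (B2 + 5)) * α s + 1 / T)
          = Cb r * G := by
        rw [hGdef]
        ring
      rw [h7]
      have h8 : -(2 * ν * hn' (r + 2) (u s)) - 2 * nl (r + 2) (fun i y => u s y i)
          ≤ Cb r * G * hn (r + 2) (u s) := by linarith
      have h9 := mul_le_mul_of_nonneg_left h8 (sq_nonneg T)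
      nlinarith
  intro t ht
  have h1 := hmain t ht
  have h2 : z t < J := by linarith
  have h3 : 1 + T ^ 2 * hn (r + 2) (u t) < Real.exp J := by
    have := (Real.log_lt_iff_lt_exp (by linarith [hf0 t])).1 h2
    exact this
  linarith

end Pool.Agent.W734.NS
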