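import Pool.Agent.W734.NS.Stat2

/-!
Frequency windows for the Navier-Stokes equations: the criterion with high derivatives.
-/

open MeasureTheory Set Filter Topology H459R3.NS
open scoped ContDiff ENNReal

namespace Pool.Agent.W734.NS

/-- A Gronwall inequality with a bootstrap. -/
theorem boot1 {f f' y g1 : ℝ → ℝ} {t' g2 g4 B1 Kn A0 E2 : ℝ} (hf0 : ∀ s, 0 ≤ f s)
    (hfc : ContinuousOn f (Icc 0 t')) (hfd : ∀ s ∈ Ioo 0 t', HasDerivAt f (f' s) s)
    (hy0 : ∀ s, 0 ≤ y s) (hyc : ContinuousOn y (Icc 0 t'))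
    (hyE : ∀ t ∈ Icc 0 t', ∫ s in (0 : ℝ)..t, y s ≤ E2) (hE20 : 0 ≤ E2) (hA : 0 < A0)
    (hg10 : ∀ s ∈ Ioo 0 t', 0 ≤ g1 s) (hg1i : IntegrableOn g1 (Icc 0 t'))
    (hg1B : ∀ t ∈ Icc 0 t', ∫ s in (0 : ℝ)..t, g1 s ≤ B1) (hg2 : 0 ≤ g2) (hg4 : 0 ≤ g4)
    (hd : ∀ s ∈ Ioo 0 t', f s ≤ Kn → f' s ≤ (g1 s + g2 * y s) * f s + g4 * y s)
    (hfin : (g4 * E2 + A0 + f 0) * Real.exp (B1 + g2 * E2 + 1) < Kn) :
    ∀ t ∈ Icc 0 t', f t < Kn := by
  set A1 := g4 * E2 + A0 with hA1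
  have hA10 : 0 < A1 := by positivity
  -- the bound while the function is at most `Kn`
  have hbd : ∀ t ∈ Icc 0 t', (∀ s ∈ Ioo 0 t, f s ≤ Kn) → f t < Kn := by
    intro t ht hK
    have hfct : ContinuousOn f (Icc 0 t) := hfc.mono (Icc_subset_Icc_right ht.2)
    have hpos : ∀ s, 0 < f s + A1 := fun s => by linarith [hf0 s]
    have hc : ContinuousOn (fun s => Real.log (f s + A1)) (Icc 0 t) :=
      (hfct.add continuousOn_const).log fun s _ => (hpos s).ne'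
    have hd' : ∀ s ∈ Ioo 0 t, HasDerivWithinAt (fun s => Real.log (f s + A1))
        (f' s / (f s + A1)) (Ioi s) s := by
      intro s hs
      exact (((hfd s ⟨hs.1, hs.2.trans_le ht.2⟩).add_const A1).log (hpos s).ne').hasDerivWithinAt
    have hle : ∀ s ∈ Ioo 0 t, f' s / (f s + A1) ≤ g1 s + (g2 + g4 / A1) * y s := by
      intro s hs
      have hs' : s ∈ Ioo 0 t' := ⟨hs.1, hs.2.trans_le ht.2⟩
      rw [div_le_iff₀ (hpos s)]
      have a1 := hd s hs' (hK s hs)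
      have a3 := hg10 s hs'
      have a4 := hy0 s
      have a40 := hf0 s
      have a5 : g4 / A1 * A1 = g4 := div_mul_cancel₀ _ hA10.ne'
      have a6 : (g1 s + (g2 + g4 / A1) * y s) * (f s + A1)
          = (g1 s + g2 * y s) * f s + g4 / A1 * A1 * y s
            + (g1 s * A1 + g2 * y s * A1 + g4 / A1 * y s * f s) := by ring
      rw [a6, a5]
      have a7 : 0 ≤ g1 s * A1 + g2 * y s * A1 + g4 / A1 * y s * f s := by positivity
      linarith
    have hyi : IntegrableOn y (Icc 0 t) := (hyc.mono (Icc_subset_Icc_right ht.2)).integrableOn_Icc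
    have hg1t : IntegrableOn g1 (Icc 0 t) := hg1i.mono_set (Icc_subset_Icc_right ht.2)
    have hgi : IntegrableOn (fun s => g1 s + (g2 + g4 / A1) * y s) (Icc 0 t) :=
      hg1t.add (hyi.const_mul _)
    have h1 := intervalIntegral.sub_le_integral_of_hasDeriv_right_of_le ht.1 hc hd' hgi hle
    have i1 : IntervalIntegrable g1 volume 0 t :=
      (intervalIntegrable_iff_integrableOn_Icc_of_le ht.1).2 hg1t
    have i2 : IntervalIntegrable (fun s => (g2 + g4 / A1) * y s) volume 0 t :=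
      ((intervalIntegrable_iff_integrableOn_Icc_of_le ht.1).2 hyi).const_mul _
    rw [intervalIntegral.integral_add i1 i2, intervalIntegral.integral_const_mul] at h1
    have h2 := hg1B t ht
    have h3 := hyE t ht
    have h4 : (g2 + g4 / A1) * ∫ s in (0 : ℝ)..t, y s ≤ g2 * E2 + 1 := by
      have a1 : (g2 + g4 / A1) * ∫ s in (0 : ℝ)..t, y s ≤ (g2 + g4 / A1) * E2 :=
        mul_le_mul_of_nonneg_left h3 (by positivity)
      have a2 : g4 / A1 * E2 ≤ 1 := by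
        rw [div_mul_eq_mul_div, div_le_one hA10, hA1]
        linarith
      linarith [add_mul g2 (g4 / A1) E2]
    have h5 : Real.log (f t + A1) ≤ Real.log (f 0 + A1) + (B1 + g2 * E2 + 1) := by linarith
    have h6 : f t + A1 ≤ (f 0 + A1) * Real.exp (B1 + g2 * E2 + 1) := by
      calc f t + A1 = Real.exp (Real.log (f t + A1)) := (Real.exp_log (hpos t)).symm
        _ ≤ Real.exp (Real.log (f 0 + A1) + (B1 + g2 * E2 + 1)) := Real.exp_le_exp.2 h5
        _ = (f 0 + A1) * Real.exp (B1 + g2 * E2 + 1) := by rw [Real.exp_add, Real.exp_log (hpos 0)]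
    have h7 : (f 0 + A1) * Real.exp (B1 + g2 * E2 + 1) < Kn := by
      rw [add_comm (f 0) A1]
      exact hfin
    linarith
  -- the function never reaches `Kn`
  intro t ht
  by_contra hcon
  push Not at hcon
  have hfct : ContinuousOn f (Icc 0 t) := hfc.mono (Icc_subset_Icc_right ht.2)
  have hcl : IsClosed (Icc 0 t ∩ f ⁻¹' Ici Kn) :=
    hfct.preimage_isClosed_of_isClosed isClosed_Icc isClosed_Ici
  have hcp : IsCompact (Icc 0 t ∩ f ⁻¹' Ici Kn) :=
    isCompact_Icc.of_isClosed_subset hcl inter_subset_left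
  obtain ⟨t1, ht1, hmin⟩ := hcp.exists_isLeast ⟨t, ⟨ht.1, le_rfl⟩, hcon⟩
  have h1 := hbd t1 ⟨ht1.1.1, ht1.1.2.trans ht.2⟩ (fun s hs => by
    by_contra hc
    push Not at hc
    have := hmin (show s ∈ Icc 0 t ∩ f ⁻¹' Ici Kn from
      ⟨⟨hs.1.le, (hs.2.trans_le ht1.1.2).le⟩, hc.le⟩)
    linarith [hs.2])
  have h2 : Kn ≤ f t1 := ht1.2
  linarith

/-- the constant in the bound of `Kf` -/
noncomputable def Pc (r : ℕ) : ℝ := (3200 * Cb r + 1) ^ (2 * r + 5) * 2 ^ (5 * r + 13)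

theorem Pc_pos (r : ℕ) : 0 < Pc r := by
  have := Cb_pos r
  unfold Pc
  positivity

theorem Kf_pow_le {r : ℕ} {ν E M : ℝ} (hν : 0 < ν) (hE : 0 ≤ E) (hM : 1 ≤ M) :
    Kf r ν E ⌈M⌉₊ ^ (4 * r + 10) ≤ Pc r * (M ^ (5 * r + 13) * (1 + E / ν) ^ (2 * r + 5)) := by
  have hC := Cb_pos r
  have hs : 0 ≤ E / ν := by positivity
  have hc1 : 1 ≤ ⌈M⌉₊ := Nat.one_le_ceil_iff.2 (by linarith)
  have hc1' : (1 : ℝ) ≤ (⌈M⌉₊ : ℝ) := by exact_mod_cast hc1
  have hc2 : (⌈M⌉₊ : ℝ) ≤ 2 * M := by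
    have := Nat.ceil_lt_add_one (show 0 ≤ M by linarith)
    linarith
  have e1 : Kf r ν E ⌈M⌉₊ ^ (4 * r + 10) = (Kf r ν E ⌈M⌉₊ ^ 2) ^ (2 * r + 5) := by
    rw [← pow_mul]
    congr 1
    ring
  rw [e1, Kf_sq hν hE, mul_pow, mul_pow]
  have h1 : ((⌈M⌉₊ : ℝ) ^ 2) ^ (2 * r + 5) * Real.sqrt (⌈M⌉₊ : ℝ) ^ (2 * r + 5)
      ≤ 2 ^ (5 * r + 13) * M ^ (5 * r + 13) := by
    have h2 : Real.sqrt (⌈M⌉₊ : ℝ) ^ (2 * r + 5) ≤ (⌈M⌉₊ : ℝ) ^ (r + 3) := by
      calc Real.sqrt (⌈M⌉₊ : ℝ) ^ (2 * r + 5) ≤ Real.sqrt (⌈M⌉₊ : ℝ) ^ (2 * (r + 3)) :=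
            pow_le_pow_right₀ (Real.one_le_sqrt.2 hc1') (by omega)
        _ = (⌈M⌉₊ : ℝ) ^ (r + 3) := by rw [pow_mul, Real.sq_sqrt (by positivity)]
    calc ((⌈M⌉₊ : ℝ) ^ 2) ^ (2 * r + 5) * Real.sqrt (⌈M⌉₊ : ℝ) ^ (2 * r + 5)
        ≤ ((⌈M⌉₊ : ℝ) ^ 2) ^ (2 * r + 5) * (⌈M⌉₊ : ℝ) ^ (r + 3) := by gcongr
      _ = (⌈M⌉₊ : ℝ) ^ (5 * r + 13) := by
          rw [← pow_mul, ← pow_add]
          congr 1
          ring
      _ ≤ (2 * M) ^ (5 * r + 13) := by gcongr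
      _ = _ := mul_pow _ _ _
  have h2 : (1 + 3200 * Cb r * (E / ν)) ^ (2 * r + 5)
      ≤ (3200 * Cb r + 1) ^ (2 * r + 5) * (1 + E / ν) ^ (2 * r + 5) := by
    rw [← mul_pow]
    refine pow_le_pow_left₀ (by positivity) ?_ _
    nlinarith
  calc ((⌈M⌉₊ : ℝ) ^ 2) ^ (2 * r + 5) * Real.sqrt (⌈M⌉₊ : ℝ) ^ (2 * r + 5)
        * (1 + 3200 * Cb r * (E / ν)) ^ (2 * r + 5)
      ≤ (2 ^ (5 * r + 13) * M ^ (5 * r + 13))
        * ((3200 * Cb r + 1) ^ (2 * r + 5) * (1 + E / ν) ^ (2 * r + 5)) := by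
        gcongr
    _ = _ := by unfold Pc; ring

theorem palin_le_hn {v : V → V} (hsp : ∀ i, SP (fun y => v y i)) (r : ℕ) :
    palin v ≤ hn (r + 2) v := by
  rw [hn_eq hsp]
  have e : palin v = ∑ i, n2 (Lam 1 (fr fun y => v y i)) ^ 2 := by
    rw [← hn_eq hsp]
    rfl
  rw [e]
  refine Finset.sum_le_sum fun i _ => ?_
  have hr := rap_fr (hsp i)
  rw [n2_sq, n2_sq]
  refine Summable.tsum_le_tsum (fun k => ?_) (summable_sq (rap_Lam hr _).summable)
    (summable_sq (rap_Lam hr _).summable)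
  rw [norm_Lam, norm_Lam, mul_pow, mul_pow]
  refine mul_le_mul_of_nonneg_right ?_ (sq_nonneg _)
  refine pow_le_pow_left₀ (pow_nonneg (L2_nonneg k) _) ?_ 2
  rcases Nat.eq_zero_or_pos (N k) with h0 | h0
  · have : k = 0 := N_eq_zero.1 h0
    rw [this]
    have : L2 0 = 0 := by unfold L2; simp
    rw [this]
    simp
  · have h1 : (1 : ℝ) ≤ L2 k := by
      have h2 : (1 : ℝ) ≤ (N k : ℝ) := by exact_mod_cast h0
      have h3 := le_L2 k
      nlinarith
    exact pow_le_pow_right₀ h1 (by omega)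

/-- The criterion for a window `(M, N]`. -/
theorem windows_hi {p : ℝ≥0∞} (hp : 3 < p) {q : ℝ} (hpq : 3 * (p⁻¹).toReal + 2 / q = 1) (r : ℕ)
    {K : ℝ} (hK : 0 ≤ K) :
    ∃ c C κ : ℝ, 0 < c ∧ 0 < C ∧ 0 < κ ∧ ∀ (ν T M Nw X A : ℝ) (u : ℝ → V → V) (P : ℝ → V → ℝ)
      (β : ℝ → ℝ), 0 < ν → IsSol ν T u P → 1 ≤ M → 0 < Nw → 0 ≤ A →
      X = C * (1 + hn (r + 2) (u 0) / ν ^ 2
        + M ^ (5 * r + 13) * (1 + Real.sqrt (energy (u 0)) / ν) ^ (2 * r + 8)) →
      A * energy (u 0) ≤ c * (ν ^ 2 * Real.log (Nw ^ (4 * r + 7) / X)) →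
      (∀ t ∈ Ioo 0 T, 0 ≤ β t) → IntegrableOn (fun t => β t ^ q) (Ioo 0 T) →
      ∫ t in Ioo 0 T, β t ^ q ≤ c * (ν ^ (q - 1) * Real.log (Nw ^ (4 * r + 7) / X)) →
      (∀ t ∈ Ioo 0 T, ∃ (v w : V → V) (Q : Set K3), SPV v ∧ SPV w ∧ DimTwo A Q ∧
          (∀ i k, M < len k → len k ≤ Nw → fr (fun x => v x i) k = 0) ∧
          (∀ i, ∀ k ∉ Q, fr (fun x => w x i) k = 0) ∧
          enstrophy w ≤ K ^ 2 * enstrophy (u t) ∧
          ∀ i, eLpNorm (fun x => u t x i - v x i - w x i) p (volume.restrict cube)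
            ≤ ENNReal.ofReal (β t)) →
      (∀ t ∈ Ico 0 T, hn (r + 2) (u t) < κ * (ν ^ 2 * Nw ^ (4 * r + 7))) ∧
      ∃ R, ∀ t ∈ Ico 0 T, ∀ x i, |u t x i| ≤ R := by
  have hθ1 : th p < 1 := th_lt_one hp
  have hq : q = 2 / (1 - th p) := by
    have h1 : 2 / q = 1 - th p := by
      have : th p = 3 * (p⁻¹).toReal := rfl
      rw [this]
      linarith
    rw [← h1]
    have : q ≠ 0 := by
      intro h0
      rw [h0, div_zero] at h1
      linarith
    field_simp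
  obtain ⟨D1, hD10, hD1⟩ := all_case hp r hK
  have hCb := Cb_pos r
  have hP := Pc_pos r
  have hκ := k0_pos r
  refine ⟨1 / (2 * Cb r * D1 + 1), (Real.exp 1 * (6400 * Cb r * Pc r + 1) + 1) / k0 r
    + 42 ^ (4 * r + 7) * Pc r, k0 r, by positivity, by positivity, hκ, ?_⟩
  set c : ℝ := 1 / (2 * Cb r * D1 + 1) with hc
  have hc0 : 0 < c := by positivity
  have hDc : 2 * (Cb r * D1) * c ≤ 1 := by
    rw [hc, mul_one_div, div_le_one (by positivity)]
    linarith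
  set C : ℝ := (Real.exp 1 * (6400 * Cb r * Pc r + 1) + 1) / k0 r + 42 ^ (4 * r + 7) * Pc r
    with hC
  have hC0 : 0 < C := by positivity
  have hCκ : Real.exp 1 * (6400 * Cb r * Pc r + 1) < k0 r * C := by
    rw [hC, mul_add (k0 r), mul_div_cancel₀ _ hκ.ne']
    have : 0 < k0 r * (42 ^ (4 * r + 7) * Pc r) := by positivity
    linarith
  have hC42 : 42 ^ (4 * r + 7) * Pc r ≤ C := by
    rw [hC]
    have : 0 ≤ (Real.exp 1 * (6400 * Cb r * Pc r + 1) + 1) / k0 r := by positivity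
    linarith
  intro ν T M Nw X A u P β hν h hM1 hNpos hA hX hAE hβ0 hβi hβ hcomp
  rcases le_or_gt T 0 with hT | hT
  · exact ⟨fun t ht => absurd (ht.1.trans_lt ht.2) (by linarith),
      0, fun t ht => absurd (ht.1.trans_lt ht.2) (by linarith)⟩
  set E0 := energy (u 0) with hE0
  have hE00 : 0 ≤ E0 := energy_nonneg _
  set E := Real.sqrt E0 with hE
  have hEn : 0 ≤ E := Real.sqrt_nonneg _
  have hE2 : E ^ 2 = E0 := Real.sq_sqrt hE00
  set s := E / ν with hs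
  have hs0 : 0 ≤ s := by positivity
  have hX00 : 0 ≤ hn (r + 2) (u 0) := hn_nonneg _ _
  have hMc : 1 ≤ ⌈M⌉₊ := Nat.one_le_ceil_iff.2 (by linarith)
  have hM0 : 0 < M := by linarith
  set Kk := Kf r ν E ⌈M⌉₊ with hKk
  have hKk1 : 1 ≤ Kk := by
    have h1 := le_Kf (r := r) hν hEn hMc
    have h2 : (1 : ℝ) ≤ (⌈M⌉₊ : ℝ) := by exact_mod_cast hMc
    exact h2.trans h1
  set Y := 1 + hn (r + 2) (u 0) / ν ^ 2 + M ^ (5 * r + 13) * (1 + s) ^ (2 * r + 8) with hY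
  have hY0 : 0 < Y := by positivity
  have hXpos : 0 < X := by rw [hX]; positivity
  set L := Real.log (Nw ^ (4 * r + 7) / X) with hL
  have hL0 : 0 ≤ L := by
    have h1 : 0 ≤ ∫ t in Ioo 0 T, β t ^ q :=
      setIntegral_nonneg measurableSet_Ioo fun s hs => Real.rpow_nonneg (hβ0 s hs) q
    have h2 : 0 ≤ (c * ν ^ (q - 1)) * L := by
      have : (c * ν ^ (q - 1)) * L = c * (ν ^ (q - 1) * L) := by ring
      rw [this]
      exact h1.trans hβ
    exact nonneg_of_mul_nonneg_right h2 (by positivity)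
  have hNX : X ≤ Nw ^ (4 * r + 7) := by
    have h1 : 0 < Nw ^ (4 * r + 7) / X := by positivity
    have h2 : 1 ≤ Nw ^ (4 * r + 7) / X := by
      by_contra hcon
      push Not at hcon
      rcases eq_or_lt_of_le hL0 with h3 | h3
      · have := Real.exp_log h1
        rw [← hL, ← h3, Real.exp_zero] at this
        linarith
      · have := Real.log_neg h1 hcon
        linarith
    rwa [le_div_iff₀ hXpos, one_mul] at h2
  have hKpow : Kk ^ (4 * r + 10) ≤ Pc r * (M ^ (5 * r + 13) * (1 + s) ^ (2 * r + 5)) :=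
    Kf_pow_le hν hEn hM1
  have h25 : (1 + s) ^ (2 * r + 5) ≤ (1 + s) ^ (2 * r + 8) :=
    pow_le_pow_right₀ (by linarith) (by omega)
  -- the window is long
  have hKN : 42 * Kk ≤ Nw := by
    by_contra hcon
    push Not at hcon
    have h1 : Nw ^ (4 * r + 7) < (42 * Kk) ^ (4 * r + 7) :=
      pow_lt_pow_left₀ hcon hNpos.le (by omega)
    have h2 : (42 * Kk) ^ (4 * r + 7) ≤ X := by
      calc (42 * Kk) ^ (4 * r + 7) = 42 ^ (4 * r + 7) * Kk ^ (4 * r + 7) := mul_pow _ _ _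
        _ ≤ 42 ^ (4 * r + 7) * Kk ^ (4 * r + 10) := by
            gcongr 42 ^ (4 * r + 7) * ?_
            exact pow_le_pow_right₀ hKk1 (by omega)
        _ ≤ 42 ^ (4 * r + 7) * (Pc r * (M ^ (5 * r + 13) * (1 + s) ^ (2 * r + 8))) := by
            gcongr 42 ^ (4 * r + 7) * ?_
            refine hKpow.trans ?_
            gcongr
        _ = (42 ^ (4 * r + 7) * Pc r) * (M ^ (5 * r + 13) * (1 + s) ^ (2 * r + 8)) := by ring
        _ ≤ C * Y := by
            gcongr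
            rw [hY]
            have : 0 ≤ hn (r + 2) (u 0) / ν ^ 2 := by positivity
            linarith
        _ = X := hX.symm
    linarith
  have hβ1 : ∀ t ∈ Ico 0 T, IntegrableOn (fun s => β s ^ q) (Icc 0 t) := by
    intro t ht
    rw [integrableOn_Icc_iff_integrableOn_Ioc, integrableOn_Ioc_iff_integrableOn_Ioo]
    exact hβi.mono_set (Ioo_subset_Ioo_right ht.2.le)
  set g4 : ℝ := Cb r * (12800 * Kk ^ 3 * E * Kk ^ (4 * r + 6)) with hg4
  have hg40 : 0 ≤ g4 := by positivity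
  have hfin : (g4 * (E0 / (2 * ν)) + ν ^ 2 + hn (r + 2) (u 0))
      * Real.exp (Cb r * D1 * c * L + Cb r * D1 * (A / ν) * (E0 / (2 * ν)) + 1)
        < k0 r * (ν ^ 2 * Nw ^ (4 * r + 7)) := by
    have h1 : g4 * (E0 / (2 * ν)) ≤ 6400 * Cb r * Pc r
        * (M ^ (5 * r + 13) * (1 + s) ^ (2 * r + 8)) * ν ^ 2 := by
      have e1 : g4 * (E0 / (2 * ν)) = 6400 * Cb r * (Kk ^ (4 * r + 9) * s ^ 3) * ν ^ 2 := by
        have e3 : Kk ^ 3 * Kk ^ (4 * r + 6) = Kk ^ (4 * r + 9) := by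
          rw [← pow_add]
          congr 1
          ring
        rw [hg4, hs, ← hE2, ← e3]
        field_simp
        ring
      rw [e1]
      have h2 : Kk ^ (4 * r + 9) * s ^ 3
          ≤ Pc r * (M ^ (5 * r + 13) * (1 + s) ^ (2 * r + 8)) := by
        calc Kk ^ (4 * r + 9) * s ^ 3 ≤ Kk ^ (4 * r + 10) * (1 + s) ^ 3 := by
              gcongr ?_ * ?_
              · exact pow_le_pow_right₀ hKk1 (by omega)
              · exact pow_le_pow_left₀ hs0 (by linarith) 3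
          _ ≤ (Pc r * (M ^ (5 * r + 13) * (1 + s) ^ (2 * r + 5))) * (1 + s) ^ 3 := by gcongr
          _ = Pc r * (M ^ (5 * r + 13) * ((1 + s) ^ (2 * r + 5) * (1 + s) ^ 3)) := by ring
          _ = _ := by
              rw [← pow_add]
      calc 6400 * Cb r * (Kk ^ (4 * r + 9) * s ^ 3) * ν ^ 2
          ≤ 6400 * Cb r * (Pc r * (M ^ (5 * r + 13) * (1 + s) ^ (2 * r + 8))) * ν ^ 2 := by gcongr
        _ = _ := by ring
    have h2 : g4 * (E0 / (2 * ν)) + ν ^ 2 + hn (r + 2) (u 0)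
        ≤ (6400 * Cb r * Pc r + 1) * Y * ν ^ 2 := by
      have e2 : hn (r + 2) (u 0) = hn (r + 2) (u 0) / ν ^ 2 * ν ^ 2 := by field_simp
      set Z := M ^ (5 * r + 13) * (1 + s) ^ (2 * r + 8) with hZ
      have hZ0 : 0 ≤ Z := by positivity
      set x0 := hn (r + 2) (u 0) / ν ^ 2 with hx0
      have hx00 : 0 ≤ x0 := by positivity
      have h3 : 0 ≤ 6400 * Cb r * Pc r * (1 + x0) * ν ^ 2 := by positivity
      have h4 : 0 ≤ Z * ν ^ 2 := by positivity
      have e3 : (6400 * Cb r * Pc r + 1) * Y * ν ^ 2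
          = 6400 * Cb r * Pc r * Z * ν ^ 2 + ν ^ 2 + x0 * ν ^ 2
            + (6400 * Cb r * Pc r * (1 + x0) * ν ^ 2 + Z * ν ^ 2) := by
        rw [hY]
        ring
      rw [e3, e2]
      linarith
    have h3 : Real.exp (Cb r * D1 * c * L + Cb r * D1 * (A / ν) * (E0 / (2 * ν)) + 1)
        ≤ Nw ^ (4 * r + 7) / X * Real.exp 1 := by
      rw [Real.exp_add]
      refine mul_le_mul_of_nonneg_right ?_ (Real.exp_pos _).le
      have e0' : Nw ^ (4 * r + 7) / X = Real.exp L := by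
        rw [hL, Real.exp_log (by positivity)]
      rw [e0']
      refine Real.exp_le_exp.2 ?_
      have e1 : Cb r * D1 * (A / ν) * (E0 / (2 * ν)) = Cb r * D1 / 2 * ((A * E0) / ν ^ 2) := by
        field_simp
      have e2 : (A * E0) / ν ^ 2 ≤ c * L := by
        rw [div_le_iff₀ (by positivity)]
        linarith
      have e3 : Cb r * D1 / 2 * ((A * E0) / ν ^ 2) ≤ Cb r * D1 * (c * L) := by
        calc Cb r * D1 / 2 * ((A * E0) / ν ^ 2) ≤ Cb r * D1 / 2 * (c * L) := by gcongr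
          _ ≤ Cb r * D1 * (c * L) := by
            have : 0 ≤ Cb r * D1 * (c * L) := by positivity
            linarith
      rw [e1]
      calc Cb r * D1 * c * L + Cb r * D1 / 2 * ((A * E0) / ν ^ 2)
          ≤ Cb r * D1 * c * L + Cb r * D1 * (c * L) := by linarith
        _ = (2 * (Cb r * D1) * c) * L := by ring
        _ ≤ 1 * L := mul_le_mul_of_nonneg_right hDc hL0
        _ = L := one_mul _
    calc (g4 * (E0 / (2 * ν)) + ν ^ 2 + hn (r + 2) (u 0))
        * Real.exp (Cb r * D1 * c * L + Cb r * D1 * (A / ν) * (E0 / (2 * ν)) + 1)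
        ≤ ((6400 * Cb r * Pc r + 1) * Y * ν ^ 2) * (Nw ^ (4 * r + 7) / X * Real.exp 1) := by
          refine mul_le_mul h2 h3 (Real.exp_pos _).le ?_
          positivity
      _ = Real.exp 1 * (6400 * Cb r * Pc r + 1) * (ν ^ 2 * Nw ^ (4 * r + 7) / C) := by
          rw [hX]
          field_simp
      _ < k0 r * C * (ν ^ 2 * Nw ^ (4 * r + 7) / C) :=
          mul_lt_mul_of_pos_right hCκ (by positivity)
      _ = k0 r * (ν ^ 2 * Nw ^ (4 * r + 7)) := by field_simp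
  have hmain : ∀ t ∈ Ico 0 T, hn (r + 2) (u t) < k0 r * (ν ^ 2 * Nw ^ (4 * r + 7)) := by
    intro t' ht'
    refine boot1 (f := fun s => hn (r + 2) (u s))
      (f' := fun s => -(2 * ν * hn' (r + 2) (u s)) - 2 * nl (r + 2) (fun i y => u s y i))
      (y := fun s => enstrophy (u s)) (t' := t')
      (g1 := fun s => Cb r * D1 * ν ^ (1 - q) * β s ^ q) (g2 := Cb r * D1 * (A / ν)) (g4 := g4)
      (B1 := Cb r * D1 * c * L) (Kn := k0 r * (ν ^ 2 * Nw ^ (4 * r + 7))) (A0 := ν ^ 2)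
      (E2 := E0 / (2 * ν))
      (fun s => hn_nonneg _ _) ?_ (fun s hs => hn_hasDerivAt h (r + 2) ⟨hs.1, hs.2.trans ht'.2⟩)
      (fun s => enstrophy_nonneg _) ?_ (fun t ht => ?_) (by positivity) (by positivity)
      (fun s hs => ?_) ((hβ1 t' ht').const_mul _) (fun t ht => ?_) (by positivity) hg40
      (fun s hs hsK => ?_) hfin t' ⟨ht'.1, le_rfl⟩
    · exact (hn_continuousOn h (r + 2)).mono fun s hs => ⟨hs.1, hs.2.trans_lt ht'.2⟩
    · exact h.enstrophy_continuousOn.mono fun s hs => ⟨hs.1, hs.2.trans_lt ht'.2⟩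
    · exact h.int_enstrophy hν ⟨ht.1, ht.2.trans_lt ht'.2⟩
    · have := Real.rpow_nonneg (hβ0 s ⟨hs.1, hs.2.trans ht'.2⟩) q
      positivity
    · rw [intervalIntegral.integral_const_mul]
      have a1 : ∫ s in (0 : ℝ)..t, β s ^ q ≤ ∫ s in Ioo 0 T, β s ^ q := by
        rw [intervalIntegral.integral_of_le ht.1, integral_Ioc_eq_integral_Ioo]
        refine setIntegral_mono_set hβi ?_
          (Ioo_subset_Ioo_right (ht.2.trans ht'.2.le)).eventuallyLE
        filter_upwards [ae_restrict_mem measurableSet_Ioo] with s hs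
        exact Real.rpow_nonneg (hβ0 s hs) q
      have a2 : ∫ s in (0 : ℝ)..t, β s ^ q ≤ c * (ν ^ (q - 1) * L) := a1.trans hβ
      have a3 : ν ^ (1 - q) * ν ^ (q - 1) = 1 := by
        rw [← Real.rpow_add hν]
        simp
      calc Cb r * D1 * ν ^ (1 - q) * ∫ s in (0 : ℝ)..t, β s ^ q
          ≤ Cb r * D1 * ν ^ (1 - q) * (c * (ν ^ (q - 1) * L)) := by gcongr
        _ = Cb r * D1 * c * L * (ν ^ (1 - q) * ν ^ (q - 1)) := by ring
        _ = Cb r * D1 * c * L := by rw [a3, mul_one]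
    · have hs' : s ∈ Ioo 0 T := ⟨hs.1, hs.2.trans ht'.2⟩
      have hI : s ∈ Ico 0 T := ⟨hs'.1.le, hs'.2⟩
      obtain ⟨v, w, Q, hv, hw, hQ, hvk, hwQ, hwG, hLp⟩ := hcomp s hs'
      have hu : SPV (u s) := ⟨contDiff_pi.2 fun i => (h.sp hI i).smooth, h.per_u s hI⟩
      have hG := hD1 ν (β s) A E Nw ⌈M⌉₊ (u s) v w Q hν (hβ0 s hs') hMc hEn hKN hu
        (by rw [hE2]; exact h.energy_le hν hI) hsK hv hw hQ
        (fun i k hk1 hk2 => hvk i k ((Nat.le_ceil M).trans_lt hk1) hk2) hwQ hwG hLp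
      have hγ0 : 0 ≤ D1 * (ν * (β s / ν) ^ (2 / (1 - th p)) + A / ν * enstrophy (u s)) := by
        have h1 := enstrophy_nonneg (u s)
        have h2 := hβ0 s hs'
        positivity
      have key := nl_le (r := r) (v := u s) (fun i => h.sp hI i) (h.divfree s hI)
        (K := Kk) (L0 := 12800 * Kk ^ 3 * E) (ε := e0 r * ν)
        (γ := D1 * (ν * (β s / ν) ^ (2 / (1 - th p)) + A / ν * enstrophy (u s)))
        (by linarith) (by positivity) (by have := e0_pos r; positivity) hγ0 hG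
      have e1 : ν * (β s / ν) ^ (2 / (1 - th p)) = ν ^ (1 - q) * β s ^ q := by
        rw [← hq, Real.div_rpow (hβ0 s hs') hν.le, Real.rpow_sub hν, Real.rpow_one]
        ring
      rw [e1] at key
      have e2 : Cb r * (e0 r * ν * hn' (r + 2) (u s)) = ν * hn' (r + 2) (u s) := by
        unfold e0
        field_simp
      have h3 : -(2 * nl (r + 2) (fun i y => u s y i)) ≤ 2 * |nl (r + 2) (fun i y => u s y i)| := by
        have := neg_le_abs (nl (r + 2) (fun i y => u s y i))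
        linarith
      have h4 : 0 ≤ ν * hn' (r + 2) (u s) := mul_nonneg hν.le (hn'_nonneg _ _)
      have e3 : Cb r * (12800 * Kk ^ 3 * E * Kk ^ (4 * r + 6) * enstrophy (u s)
          + e0 r * ν * hn' (r + 2) (u s)
          + D1 * (ν ^ (1 - q) * β s ^ q + A / ν * enstrophy (u s)) * hn (r + 2) (u s))
          = g4 * enstrophy (u s) + Cb r * (e0 r * ν * hn' (r + 2) (u s))
            + (Cb r * D1 * ν ^ (1 - q) * β s ^ q + Cb r * D1 * (A / ν) * enstrophy (u s))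
              * hn (r + 2) (u s) := by
        rw [hg4]
        ring
      rw [e3, e2] at key
      linarith
  refine ⟨hmain, Real.sqrt (energy (u 0)) + Real.sqrt C4
    * Real.sqrt (k0 r * (ν ^ 2 * Nw ^ (4 * r + 7))), fun t ht x i => ?_⟩
  refine (h.abs_le hν ht i x).trans ?_
  have h1 : palin (u t) ≤ hn (r + 2) (u t) := palin_le_hn (fun i => h.sp ht i) r
  have h2 := (h1.trans (hmain t ht).le)
  gcongr

end Pool.Agent.W734.NS
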