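import Pool.Agent.W734.NS.Stat3

/-!
The bounds of the low frequency gradients at all scales.
-/

open MeasureTheory Set Filter Topology H459R3.NS
open scoped ContDiff ENNReal

namespace Pool.Agent.W734.NS

/-- The bound at all scales. -/
theorem all_dy {s : ℝ} (hs0 : -1 < s) (hs1 : s < 1) (r : ℕ) {Kw : ℝ} (hKw : 0 ≤ Kw) :
    ∃ D1 : ℝ, 0 ≤ D1 ∧ ∀ (ν β A E : ℝ) (j0 J : ℕ) (u w : V → V) (Q : Set K3), 0 < ν → 0 ≤ β →
      0 ≤ E → 42 * Kf r ν E (2 ^ j0) ≤ 2 ^ J → SPV u → energy u ≤ E ^ 2 →
      hn (r + 2) u ≤ k0 r * (ν ^ 2 * (2 ^ J) ^ (4 * r + 7)) → SPV w → DimTwo A Q →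
      (∀ i, ∀ k ∉ Q, fr (fun x => w x i) k = 0) → enstrophy w ≤ Kw ^ 2 * enstrophy u →
      (∀ j, j0 ≤ j → j ≤ J → ∀ i x, ‖S (dl j (fr fun y => u y i - w y i)) x‖
        ≤ e0 r / 50000 * (ν * 2 ^ j) + (2 : ℝ) ^ (-(s * j)) * β) →
      ∀ n i m x, ‖S (ch (2 ^ (n + 2)) (D m (fr fun y => u y i))) x‖
          ≤ if (2 : ℝ) ^ n ≤ Kf r ν E (2 ^ j0) then 12800 * Kf r ν E (2 ^ j0) ^ 3 * E
            else e0 r * ν * 4 ^ n
              + D1 * (ν * (β / ν) ^ (2 / (1 + s)) + A / ν * enstrophy u) := by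
  obtain ⟨D1, hD10, hD1⟩ := win_dy hs0 hs1 r hKw
  refine ⟨D1, hD10, ?_⟩
  intro ν β A E j0 J u w Q hν hβ hE hKN hu huE hX hw hQ hwQ hwG hdl n j m x
  have hC := Cb_pos r
  have he := e0_pos r
  have hA : 0 ≤ A := hQ.nonneg
  have hM : 1 ≤ 2 ^ j0 := Nat.one_le_two_pow
  have hKM := le_Kf (r := r) hν hE hM
  have hwin := hD1 ν β A E j0 J u w Q hν hβ hE hu huE hw hQ hwQ hwG hdl
  set M : ℕ := 2 ^ j0 with hMdef
  have hM' : (1 : ℝ) ≤ M := by exact_mod_cast hM
  set K := Kf r ν E M with hK
  set Nw : ℝ := 2 ^ J with hNw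
  have hK1 : 1 ≤ K := hM'.trans hKM
  have su : SP (fun y => u y j) := hu.sp j
  have rU : Rap (fr fun y => u y j) := rap_fr su
  have hy0 : 0 ≤ enstrophy u := enstrophy_nonneg _
  split_ifs with h
  · -- low frequencies
    have hR1 : 1 ≤ 2 ^ (n + 2) := Nat.one_le_two_pow
    refine (sup_low rU hR1 m x).trans ?_
    have h1 : n2 (fr fun y => u y j) ≤ E := by
      have h2 : n2 (fr fun y => u y j) ^ 2 ≤ E ^ 2 := by
        rw [n2_fr su]
        refine le_trans ?_ huE
        exact Finset.single_le_sum (f := fun i => ∫ x in cube, u x i ^ 2)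
          (fun _ _ => integral_nonneg fun _ => sq_nonneg _) (Finset.mem_univ j)
      exact (pow_le_pow_iff_left₀ (n2_nonneg _) hE (by norm_num)).1 h2
    have h2 : ((2 ^ (n + 2) : ℕ) : ℝ) ≤ 4 * K := by
      push_cast
      rw [pow_add]
      linarith
    have h3 : Real.sqrt ((2 ^ (n + 2) : ℕ) : ℝ) ≤ 2 * K := by
      rw [Real.sqrt_le_left (by positivity)]
      nlinarith
    calc 400 * ((((2 ^ (n + 2) : ℕ) : ℝ)) ^ 2 * Real.sqrt ((2 ^ (n + 2) : ℕ) : ℝ))
          * n2 (fr fun y => u y j)
        ≤ 400 * ((4 * K) ^ 2 * (2 * K)) * E := by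
          have := n2_nonneg (fr fun y => u y j)
          gcongr
      _ = _ := by ring
  · push Not at h
    rcases le_or_gt (n + 1) J with hw1 | hw1
    · -- the window
      refine (hwin n j m x h hw1).trans ?_
      have : 0 ≤ e0 r * ν * 4 ^ n := by positivity
      linarith
    · -- high frequencies
      have hJ1 : 1 ≤ J := by
        by_contra hcon
        have : J = 0 := by omega
        rw [hNw, this, pow_zero] at hKN
        linarith
      obtain ⟨n0, rfl⟩ : ∃ n0, J = n0 + 1 := ⟨J - 1, by omega⟩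
      have hlt : n0 < n := by omega
      have hn1 : Nw = 2 ^ n0 * 2 := by rw [hNw, pow_succ]
      have hNw0 : 0 < Nw := by rw [hNw]; positivity
      have hK0 : K < 2 ^ n0 := by
        rw [hn1] at hKN
        linarith
      set R0 : ℕ := 2 ^ (n0 + 2) with hR0
      set R : ℕ := 2 ^ (n + 2) with hR
      have hR01 : 1 ≤ R0 := Nat.one_le_two_pow
      have hRR : R0 ≤ R := Nat.pow_le_pow_right (by norm_num) (by omega)
      have hdec : ch R (D m (fr fun y => u y j)) = fun k => ch R0 (D m (fr fun y => u y j)) k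
          + (chi R k - chi R0 k) * D m (fr fun y => u y j) k := by
        funext k
        simp only [ch]
        ring
      have s1 : Summable (ch R0 (D m (fr fun y => u y j))) := (rap_ch (rU.D m) R0).summable
      have s2 : Summable fun k => (chi R k - chi R0 k) * D m (fr fun y => u y j) k := by
        have := (rap_ch (rU.D m) R).summable.sub s1
        refine this.congr fun k => ?_
        simp only [ch]
        ring
      rw [hdec, S_add' s1 s2]
      have b1 := hwin n0 j m x hK0 (by omega)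
      have b2 : ‖S (fun k => (chi R k - chi R0 k) * D m (fr fun y => u y j) k) x‖
          ≤ 4 * Real.pi * Real.sqrt (26 / (R0 : ℝ) ^ (4 * r + 3)
            * nd (4 * r + 8) (fr fun y => u y j)) := by
        refine sup_tail rU hR01 r (by positivity) (fun k hk => ?_) (fun k => ?_) x
        · rw [chi_one hk, chi_one (hk.trans hRR), sub_self, zero_mul]
        · rw [norm_mul, norm_D]
          have h1 : ‖chi R k - chi R0 k‖ ≤ 2 := by
            refine (norm_sub_le _ _).trans ?_
            have := norm_chi_le R k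
            have := norm_chi_le R0 k
            linarith
          have h2 := abs_le_of_Qf (mem_Qf.2 (le_refl (N k))) m
          have hp := Real.pi_pos
          calc ‖chi R k - chi R0 k‖ * (2 * Real.pi * |(k m : ℝ)| * ‖fr (fun y => u y j) k‖)
              ≤ 2 * (2 * Real.pi * (N k : ℝ) * ‖fr (fun y => u y j) k‖) := by gcongr
            _ = _ := by ring
      have b3 : 26 / (R0 : ℝ) ^ (4 * r + 3) * nd (4 * r + 8) (fr fun y => u y j)
          ≤ (e0 r / 180000 * (ν * Nw ^ 2)) ^ 2 := by
        have h1 : nd (4 * r + 8) (fr fun y => u y j) ≤ k0 r * (ν ^ 2 * Nw ^ (4 * r + 7)) := by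
          refine le_trans ?_ hX
          refine le_trans ?_ (nd_hn_le hu.sp r)
          exact Finset.single_le_sum (f := fun j => nd (4 * r + 8) (fr fun y => u y j))
            (fun _ _ => nd_nonneg _ _) (Finset.mem_univ j)
        have h2 : Nw / 11 ≤ R0 := by
          rw [hR0]
          push_cast
          rw [pow_add]
          linarith
        have h3 : 26 / (R0 : ℝ) ^ (4 * r + 3) ≤ 26 / (Nw / 11) ^ (4 * r + 3) := by
          gcongr
        calc 26 / (R0 : ℝ) ^ (4 * r + 3) * nd (4 * r + 8) (fr fun y => u y j)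
            ≤ 26 / (Nw / 11) ^ (4 * r + 3) * (k0 r * (ν ^ 2 * Nw ^ (4 * r + 7))) := by
              have := nd_nonneg (4 * r + 8) (fr fun y => u y j)
              gcongr
          _ = _ := by
              have e1 : Nw ^ (4 * r + 7) = Nw ^ (4 * r + 3) * Nw ^ 4 := by
                rw [← pow_add]
              rw [k0, e1, div_pow]
              have : Nw ^ (4 * r + 3) ≠ 0 := by positivity
              field_simp
      have b4 : 4 * Real.pi * Real.sqrt (26 / (R0 : ℝ) ^ (4 * r + 3)
            * nd (4 * r + 8) (fr fun y => u y j)) ≤ e0 r / 8 * ν * 4 ^ n0 := by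
        have h1 : Real.sqrt (26 / (R0 : ℝ) ^ (4 * r + 3) * nd (4 * r + 8) (fr fun y => u y j))
            ≤ e0 r / 180000 * (ν * Nw ^ 2) := by
          rw [Real.sqrt_le_left (by positivity)]
          exact b3
        have hp4 : Real.pi ≤ 3.15 := Real.pi_lt_d2.le
        have e4 : (4 : ℝ) ^ n0 = ((2 : ℝ) ^ n0) ^ 2 := by
          rw [← pow_mul, mul_comm n0 2, pow_mul]
          norm_num
        have h2 : Nw ^ 2 ≤ 4 * 4 ^ n0 := by
          rw [e4, hn1]
          linarith [mul_pow ((2 : ℝ) ^ n0) 2 2]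
        have h3 : 0 ≤ e0 r / 8 * ν * 4 ^ n0 := by positivity
        calc 4 * Real.pi * Real.sqrt (26 / (R0 : ℝ) ^ (4 * r + 3)
              * nd (4 * r + 8) (fr fun y => u y j))
            ≤ 4 * 3.15 * (e0 r / 180000 * (ν * (4 * 4 ^ n0))) := by
              gcongr
              exact h1.trans (by gcongr)
          _ = (0.00224 : ℝ) * (e0 r / 8 * ν * 4 ^ n0) := by ring
          _ ≤ _ := by linarith
      have b5 : e0 r * ν * 4 ^ n0 ≤ e0 r * ν * 4 ^ n := by
        gcongr
        norm_num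
      have b6 : 0 ≤ e0 r * ν * 4 ^ n0 := by positivity
      refine (norm_add_le _ _).trans ((add_le_add b1 (b2.trans b4)).trans ?_)
      linarith

end Pool.Agent.W734.NS
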