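import Pool.Agent.W734.NS.Dyn
import Pool.Agent.W734.NS.Stat4

/-!
Frequency windows for the Navier-Stokes equations: bounds of the dyadic pieces.
-/

open MeasureTheory Set Filter Topology H459R3.NS
open scoped ContDiff ENNReal

namespace Pool.Agent.W734.NS

/-- The abstract criterion: a bound of the gradients of the low frequency parts at all scales. -/
theorem dyn_main (r : ℕ) {q D1 c C : ℝ} (hD10 : 0 ≤ D1) (hc0 : 0 < c)
    (hDc : 2 * (Cb r * D1) * c ≤ 1) (hC0 : 0 < C)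
    (hCκ : Real.exp 1 * (6400 * Cb r * Pc r + 1) < k0 r * C)
    (hC42 : 42 ^ (4 * r + 7) * Pc r ≤ C) {ν T M Nw X A : ℝ} {u : ℝ → V → V} {P : ℝ → V → ℝ}
    {β : ℝ → ℝ} (hν : 0 < ν) (h : IsSol ν T u P) (hM1 : 1 ≤ M) (hNpos : 0 < Nw) (hA : 0 ≤ A)
    (hX : X = C * (1 + hn (r + 2) (u 0) / ν ^ 2
        + M ^ (5 * r + 13) * (1 + Real.sqrt (energy (u 0)) / ν) ^ (2 * r + 8)))
    (hAE : A * energy (u 0) ≤ c * (ν ^ 2 * Real.log (Nw ^ (4 * r + 7) / X)))
    (hβ0 : ∀ t ∈ Ioo 0 T, 0 ≤ β t) (hβi : IntegrableOn (fun t => β t ^ q) (Ioo 0 T))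
    (hβ : ∫ t in Ioo 0 T, β t ^ q ≤ c * (ν ^ (q - 1) * Real.log (Nw ^ (4 * r + 7) / X)))
    (hcomp : 42 * Kf r ν (Real.sqrt (energy (u 0))) ⌈M⌉₊ ≤ Nw → ∀ t ∈ Ioo 0 T,
      energy (u t) ≤ Real.sqrt (energy (u 0)) ^ 2 → SPV (u t) →
      hn (r + 2) (u t) ≤ k0 r * (ν ^ 2 * Nw ^ (4 * r + 7)) →
      ∀ n j m x, ‖S (ch (2 ^ (n + 2)) (D m (fr fun y => u t y j))) x‖
          ≤ if (2 : ℝ) ^ n ≤ Kf r ν (Real.sqrt (energy (u 0))) ⌈M⌉₊
            then 12800 * Kf r ν (Real.sqrt (energy (u 0))) ⌈M⌉₊ ^ 3 * Real.sqrt (energy (u 0))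
            else e0 r * ν * 4 ^ n
              + D1 * (ν ^ (1 - q) * β t ^ q + A / ν * enstrophy (u t))) :
    (∀ t ∈ Ico 0 T, hn (r + 2) (u t) < k0 r * (ν ^ 2 * Nw ^ (4 * r + 7))) ∧
      ∃ R, ∀ t ∈ Ico 0 T, ∀ x i, |u t x i| ≤ R := by
  have hCb := Cb_pos r
  have hP := Pc_pos r
  have hκ := k0_pos r
  rcases le_or_gt T 0 with hT | hT
  · exact ⟨fun t ht => absurd (ht.1.trans_lt ht.2) (by linarith),
      0, fun t ht => absurd (ht.1.trans_lt ht.2) (by linarith)⟩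
  set E0 := energy (u 0) with hE0
  have hE00 : 0 ≤ E0 := energy_nonneg _
  set E := Real.sqrt E0 with hE
  have hEn : 0 ≤ E := Real.sqrt_nonneg _
  have hE2 : E ^ 2 = E0 := Real.sq_sqrt hE00
  set s := E / ν with hs
  have hs0 : 0 ≤ s := by positivity
  have hX00 : 0 ≤ hn (r + 2) (u 0) := hn_nonneg _ _
  have hMc : 1 ≤ ⌈M⌉₊ := Nat.one_le_ceil_iff.2 (by linarith)
  have hM0 : 0 < M := by linarith
  set Kk := Kf r ν E ⌈M⌉₊ with hKk
  have hKk1 : 1 ≤ Kk := by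
    have h1 := le_Kf (r := r) hν hEn hMc
    have h2 : (1 : ℝ) ≤ (⌈M⌉₊ : ℝ) := by exact_mod_cast hMc
    exact h2.trans h1
  set Y := 1 + hn (r + 2) (u 0) / ν ^ 2 + M ^ (5 * r + 13) * (1 + s) ^ (2 * r + 8) with hY
  have hY0 : 0 < Y := by positivity
  have hXpos : 0 < X := by rw [hX]; positivity
  set L := Real.log (Nw ^ (4 * r + 7) / X) with hL
  have hL0 : 0 ≤ L := by
    have h1 : 0 ≤ ∫ t in Ioo 0 T, β t ^ q :=
      setIntegral_nonneg measurableSet_Ioo fun s hs => Real.rpow_nonneg (hβ0 s hs) q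
    have h2 : 0 ≤ (c * ν ^ (q - 1)) * L := by
      have : (c * ν ^ (q - 1)) * L = c * (ν ^ (q - 1) * L) := by ring
      rw [this]
      exact h1.trans hβ
    exact nonneg_of_mul_nonneg_right h2 (by positivity)
  have hNX : X ≤ Nw ^ (4 * r + 7) := by
    have h1 : 0 < Nw ^ (4 * r + 7) / X := by positivity
    have h2 : 1 ≤ Nw ^ (4 * r + 7) / X := by
      by_contra hcon
      push Not at hcon
      rcases eq_or_lt_of_le hL0 with h3 | h3
      · have := Real.exp_log h1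
        rw [← hL, ← h3, Real.exp_zero] at this
        linarith
      · have := Real.log_neg h1 hcon
        linarith
    rwa [le_div_iff₀ hXpos, one_mul] at h2
  have hKpow : Kk ^ (4 * r + 10) ≤ Pc r * (M ^ (5 * r + 13) * (1 + s) ^ (2 * r + 5)) :=
    Kf_pow_le hν hEn hM1
  have h25 : (1 + s) ^ (2 * r + 5) ≤ (1 + s) ^ (2 * r + 8) :=
    pow_le_pow_right₀ (by linarith) (by omega)
  -- the window is long
  have hKN : 42 * Kk ≤ Nw := by
    by_contra hcon
    push Not at hcon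
    have h1 : Nw ^ (4 * r + 7) < (42 * Kk) ^ (4 * r + 7) :=
      pow_lt_pow_left₀ hcon hNpos.le (by omega)
    have h2 : (42 * Kk) ^ (4 * r + 7) ≤ X := by
      calc (42 * Kk) ^ (4 * r + 7) = 42 ^ (4 * r + 7) * Kk ^ (4 * r + 7) := mul_pow _ _ _
        _ ≤ 42 ^ (4 * r + 7) * Kk ^ (4 * r + 10) := by
            gcongr 42 ^ (4 * r + 7) * ?_
            exact pow_le_pow_right₀ hKk1 (by omega)
        _ ≤ 42 ^ (4 * r + 7) * (Pc r * (M ^ (5 * r + 13) * (1 + s) ^ (2 * r + 8))) := by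
            gcongr 42 ^ (4 * r + 7) * ?_
            refine hKpow.trans ?_
            gcongr
        _ = (42 ^ (4 * r + 7) * Pc r) * (M ^ (5 * r + 13) * (1 + s) ^ (2 * r + 8)) := by ring
        _ ≤ C * Y := by
            gcongr
            rw [hY]
            have : 0 ≤ hn (r + 2) (u 0) / ν ^ 2 := by positivity
            linarith
        _ = X := hX.symm
    linarith
  have hβ1 : ∀ t ∈ Ico 0 T, IntegrableOn (fun s => β s ^ q) (Icc 0 t) := by
    intro t ht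
    rw [integrableOn_Icc_iff_integrableOn_Ioc, integrableOn_Ioc_iff_integrableOn_Ioo]
    exact hβi.mono_set (Ioo_subset_Ioo_right ht.2.le)
  set g4 : ℝ := Cb r * (12800 * Kk ^ 3 * E * Kk ^ (4 * r + 6)) with hg4
  have hg40 : 0 ≤ g4 := by positivity
  have hfin : (g4 * (E0 / (2 * ν)) + ν ^ 2 + hn (r + 2) (u 0))
      * Real.exp (Cb r * D1 * c * L + Cb r * D1 * (A / ν) * (E0 / (2 * ν)) + 1)
        < k0 r * (ν ^ 2 * Nw ^ (4 * r + 7)) := by
    have h1 : g4 * (E0 / (2 * ν)) ≤ 6400 * Cb r * Pc r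
        * (M ^ (5 * r + 13) * (1 + s) ^ (2 * r + 8)) * ν ^ 2 := by
      have e1 : g4 * (E0 / (2 * ν)) = 6400 * Cb r * (Kk ^ (4 * r + 9) * s ^ 3) * ν ^ 2 := by
        have e3 : Kk ^ 3 * Kk ^ (4 * r + 6) = Kk ^ (4 * r + 9) := by
          rw [← pow_add]
          congr 1
          ring
        rw [hg4, hs, ← hE2, ← e3]
        field_simp
        ring
      rw [e1]
      have h2 : Kk ^ (4 * r + 9) * s ^ 3
          ≤ Pc r * (M ^ (5 * r + 13) * (1 + s) ^ (2 * r + 8)) := by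
        calc Kk ^ (4 * r + 9) * s ^ 3 ≤ Kk ^ (4 * r + 10) * (1 + s) ^ 3 := by
              gcongr ?_ * ?_
              · exact pow_le_pow_right₀ hKk1 (by omega)
              · exact pow_le_pow_left₀ hs0 (by linarith) 3
          _ ≤ (Pc r * (M ^ (5 * r + 13) * (1 + s) ^ (2 * r + 5))) * (1 + s) ^ 3 := by gcongr
          _ = Pc r * (M ^ (5 * r + 13) * ((1 + s) ^ (2 * r + 5) * (1 + s) ^ 3)) := by ring
          _ = _ := by
              rw [← pow_add]
      calc 6400 * Cb r * (Kk ^ (4 * r + 9) * s ^ 3) * ν ^ 2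
          ≤ 6400 * Cb r * (Pc r * (M ^ (5 * r + 13) * (1 + s) ^ (2 * r + 8))) * ν ^ 2 := by gcongr
        _ = _ := by ring
    have h2 : g4 * (E0 / (2 * ν)) + ν ^ 2 + hn (r + 2) (u 0)
        ≤ (6400 * Cb r * Pc r + 1) * Y * ν ^ 2 := by
      have e2 : hn (r + 2) (u 0) = hn (r + 2) (u 0) / ν ^ 2 * ν ^ 2 := by field_simp
      set Z := M ^ (5 * r + 13) * (1 + s) ^ (2 * r + 8) with hZ
      have hZ0 : 0 ≤ Z := by positivity
      set x0 := hn (r + 2) (u 0) / ν ^ 2 with hx0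
      have hx00 : 0 ≤ x0 := by positivity
      have h3 : 0 ≤ 6400 * Cb r * Pc r * (1 + x0) * ν ^ 2 := by positivity
      have h4 : 0 ≤ Z * ν ^ 2 := by positivity
      have e3 : (6400 * Cb r * Pc r + 1) * Y * ν ^ 2
          = 6400 * Cb r * Pc r * Z * ν ^ 2 + ν ^ 2 + x0 * ν ^ 2
            + (6400 * Cb r * Pc r * (1 + x0) * ν ^ 2 + Z * ν ^ 2) := by
        rw [hY]
        ring
      rw [e3, e2]
      linarith
    have h3 : Real.exp (Cb r * D1 * c * L + Cb r * D1 * (A / ν) * (E0 / (2 * ν)) + 1)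
        ≤ Nw ^ (4 * r + 7) / X * Real.exp 1 := by
      rw [Real.exp_add]
      refine mul_le_mul_of_nonneg_right ?_ (Real.exp_pos _).le
      have e0' : Nw ^ (4 * r + 7) / X = Real.exp L := by
        rw [hL, Real.exp_log (by positivity)]
      rw [e0']
      refine Real.exp_le_exp.2 ?_
      have e1 : Cb r * D1 * (A / ν) * (E0 / (2 * ν)) = Cb r * D1 / 2 * ((A * E0) / ν ^ 2) := by
        field_simp
      have e2 : (A * E0) / ν ^ 2 ≤ c * L := by
        rw [div_le_iff₀ (by positivity)]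
        linarith
      have e3 : Cb r * D1 / 2 * ((A * E0) / ν ^ 2) ≤ Cb r * D1 * (c * L) := by
        calc Cb r * D1 / 2 * ((A * E0) / ν ^ 2) ≤ Cb r * D1 / 2 * (c * L) := by gcongr
          _ ≤ Cb r * D1 * (c * L) := by
            have : 0 ≤ Cb r * D1 * (c * L) := by positivity
            linarith
      rw [e1]
      calc Cb r * D1 * c * L + Cb r * D1 / 2 * ((A * E0) / ν ^ 2)
          ≤ Cb r * D1 * c * L + Cb r * D1 * (c * L) := by linarith
        _ = (2 * (Cb r * D1) * c) * L := by ring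
        _ ≤ 1 * L := mul_le_mul_of_nonneg_right hDc hL0
        _ = L := one_mul _
    calc (g4 * (E0 / (2 * ν)) + ν ^ 2 + hn (r + 2) (u 0))
        * Real.exp (Cb r * D1 * c * L + Cb r * D1 * (A / ν) * (E0 / (2 * ν)) + 1)
        ≤ ((6400 * Cb r * Pc r + 1) * Y * ν ^ 2) * (Nw ^ (4 * r + 7) / X * Real.exp 1) := by
          refine mul_le_mul h2 h3 (Real.exp_pos _).le ?_
          positivity
      _ = Real.exp 1 * (6400 * Cb r * Pc r + 1) * (ν ^ 2 * Nw ^ (4 * r + 7) / C) := by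
          rw [hX]
          field_simp
      _ < k0 r * C * (ν ^ 2 * Nw ^ (4 * r + 7) / C) :=
          mul_lt_mul_of_pos_right hCκ (by positivity)
      _ = k0 r * (ν ^ 2 * Nw ^ (4 * r + 7)) := by field_simp
  have hmain : ∀ t ∈ Ico 0 T, hn (r + 2) (u t) < k0 r * (ν ^ 2 * Nw ^ (4 * r + 7)) := by
    intro t' ht'
    refine boot1 (f := fun s => hn (r + 2) (u s))
      (f' := fun s => -(2 * ν * hn' (r + 2) (u s)) - 2 * nl (r + 2) (fun i y => u s y i))
      (y := fun s => enstrophy (u s)) (t' := t')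
      (g1 := fun s => Cb r * D1 * ν ^ (1 - q) * β s ^ q) (g2 := Cb r * D1 * (A / ν)) (g4 := g4)
      (B1 := Cb r * D1 * c * L) (Kn := k0 r * (ν ^ 2 * Nw ^ (4 * r + 7))) (A0 := ν ^ 2)
      (E2 := E0 / (2 * ν))
      (fun s => hn_nonneg _ _) ?_ (fun s hs => hn_hasDerivAt h (r + 2) ⟨hs.1, hs.2.trans ht'.2⟩)
      (fun s => enstrophy_nonneg _) ?_ (fun t ht => ?_) (by positivity) (by positivity)
      (fun s hs => ?_) ((hβ1 t' ht').const_mul _) (fun t ht => ?_) (by positivity) hg40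
      (fun s hs hsK => ?_) hfin t' ⟨ht'.1, le_rfl⟩
    · exact (hn_continuousOn h (r + 2)).mono fun s hs => ⟨hs.1, hs.2.trans_lt ht'.2⟩
    · exact h.enstrophy_continuousOn.mono fun s hs => ⟨hs.1, hs.2.trans_lt ht'.2⟩
    · exact h.int_enstrophy hν ⟨ht.1, ht.2.trans_lt ht'.2⟩
    · have := Real.rpow_nonneg (hβ0 s ⟨hs.1, hs.2.trans ht'.2⟩) q
      positivity
    · rw [intervalIntegral.integral_const_mul]
      have a1 : ∫ s in (0 : ℝ)..t, β s ^ q ≤ ∫ s in Ioo 0 T, β s ^ q := by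
        rw [intervalIntegral.integral_of_le ht.1, integral_Ioc_eq_integral_Ioo]
        refine setIntegral_mono_set hβi ?_
          (Ioo_subset_Ioo_right (ht.2.trans ht'.2.le)).eventuallyLE
        filter_upwards [ae_restrict_mem measurableSet_Ioo] with s hs
        exact Real.rpow_nonneg (hβ0 s hs) q
      have a2 : ∫ s in (0 : ℝ)..t, β s ^ q ≤ c * (ν ^ (q - 1) * L) := a1.trans hβ
      have a3 : ν ^ (1 - q) * ν ^ (q - 1) = 1 := by
        rw [← Real.rpow_add hν]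
        simp
      calc Cb r * D1 * ν ^ (1 - q) * ∫ s in (0 : ℝ)..t, β s ^ q
          ≤ Cb r * D1 * ν ^ (1 - q) * (c * (ν ^ (q - 1) * L)) := by gcongr
        _ = Cb r * D1 * c * L * (ν ^ (1 - q) * ν ^ (q - 1)) := by ring
        _ = Cb r * D1 * c * L := by rw [a3, mul_one]
    · have hs' : s ∈ Ioo 0 T := ⟨hs.1, hs.2.trans ht'.2⟩
      have hI : s ∈ Ico 0 T := ⟨hs'.1.le, hs'.2⟩
      have hu : SPV (u s) := ⟨contDiff_pi.2 fun i => (h.sp hI i).smooth, h.per_u s hI⟩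
      have hG := hcomp hKN s hs' (by rw [hE2]; exact h.energy_le hν hI) hu hsK
      have hγ0 : 0 ≤ D1 * (ν ^ (1 - q) * β s ^ q + A / ν * enstrophy (u s)) := by
        have h1 := enstrophy_nonneg (u s)
        have h2 := Real.rpow_nonneg (hβ0 s hs') q
        positivity
      have key := nl_le (r := r) (v := u s) (fun i => h.sp hI i) (h.divfree s hI)
        (K := Kk) (L0 := 12800 * Kk ^ 3 * E) (ε := e0 r * ν)
        (γ := D1 * (ν ^ (1 - q) * β s ^ q + A / ν * enstrophy (u s)))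
        (by linarith) (by positivity) (by have := e0_pos r; positivity) hγ0 hG
      have e2 : Cb r * (e0 r * ν * hn' (r + 2) (u s)) = ν * hn' (r + 2) (u s) := by
        unfold e0
        field_simp
      have h3 : -(2 * nl (r + 2) (fun i y => u s y i)) ≤ 2 * |nl (r + 2) (fun i y => u s y i)| := by
        have := neg_le_abs (nl (r + 2) (fun i y => u s y i))
        linarith
      have h4 : 0 ≤ ν * hn' (r + 2) (u s) := mul_nonneg hν.le (hn'_nonneg _ _)
      have e3 : Cb r * (12800 * Kk ^ 3 * E * Kk ^ (4 * r + 6) * enstrophy (u s)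
          + e0 r * ν * hn' (r + 2) (u s)
          + D1 * (ν ^ (1 - q) * β s ^ q + A / ν * enstrophy (u s)) * hn (r + 2) (u s))
          = g4 * enstrophy (u s) + Cb r * (e0 r * ν * hn' (r + 2) (u s))
            + (Cb r * D1 * ν ^ (1 - q) * β s ^ q + Cb r * D1 * (A / ν) * enstrophy (u s))
              * hn (r + 2) (u s) := by
        rw [hg4]
        ring
      rw [e3, e2] at key
      linarith
  refine ⟨hmain, Real.sqrt (energy (u 0)) + Real.sqrt C4
    * Real.sqrt (k0 r * (ν ^ 2 * Nw ^ (4 * r + 7))), fun t ht x i => ?_⟩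
  refine (h.abs_le hν ht i x).trans ?_
  have h1 : palin (u t) ≤ hn (r + 2) (u t) := palin_le_hn (fun i => h.sp ht i) r
  have h2 := (h1.trans (hmain t ht).le)
  gcongr


/-- The constant in the threshold. -/
noncomputable def Cw (r : ℕ) : ℝ :=
  (Real.exp 1 * (6400 * Cb r * Pc r + 1) + 1) / k0 r + 42 ^ (4 * r + 7) * Pc r

theorem Cw_pos (r : ℕ) : 0 < Cw r := by
  have hCb := Cb_pos r
  have hP := Pc_pos r
  have hκ := k0_pos r
  unfold Cw
  positivity

/-- The criterion for the dyadic pieces in a window. -/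
theorem windows_dy {s : ℝ} (hs0 : -1 < s) (hs1 : s < 1) (r : ℕ) {K : ℝ} (hK : 0 ≤ K) :
    ∃ c : ℝ, 0 < c ∧ c ≤ e0 r / 50000 ∧ ∀ (ν T X A : ℝ) (j0 J : ℕ) (u : ℝ → V → V)
      (P : ℝ → V → ℝ) (β : ℝ → ℝ), 0 < ν → IsSol ν T u P → 0 ≤ A →
      X = Cw r * (1 + hn (r + 2) (u 0) / ν ^ 2
        + ((2 : ℝ) ^ j0) ^ (5 * r + 13) * (1 + Real.sqrt (energy (u 0)) / ν) ^ (2 * r + 8)) →
      A * energy (u 0) ≤ c * (ν ^ 2 * Real.log (((2 : ℝ) ^ J) ^ (4 * r + 7) / X)) →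
      (∀ t ∈ Ioo 0 T, 0 ≤ β t) → IntegrableOn (fun t => β t ^ (2 / (1 + s))) (Ioo 0 T) →
      ∫ t in Ioo 0 T, β t ^ (2 / (1 + s)) ≤ c * (ν ^ (2 / (1 + s) - 1)
        * Real.log (((2 : ℝ) ^ J) ^ (4 * r + 7) / X)) →
      (∀ t ∈ Ioo 0 T, ∃ (w : V → V) (Q : Set K3), SPV w ∧ DimTwo A Q ∧
          (∀ i, ∀ k ∉ Q, fr (fun x => w x i) k = 0) ∧
          enstrophy w ≤ K ^ 2 * enstrophy (u t) ∧
          ∀ j, j0 ≤ j → j ≤ J → ∀ i x, ‖S (dl j (fr fun y => u t y i - w y i)) x‖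
            ≤ c * (ν * 2 ^ j) + (2 : ℝ) ^ (-(s * j)) * β t) →
      (∀ t ∈ Ico 0 T, hn (r + 2) (u t) < k0 r * (ν ^ 2 * ((2 : ℝ) ^ J) ^ (4 * r + 7))) ∧
      ∃ R, ∀ t ∈ Ico 0 T, ∀ x i, |u t x i| ≤ R := by
  obtain ⟨D1, hD10, hD1⟩ := all_dy hs0 hs1 r hK
  have hCb := Cb_pos r
  have hP := Pc_pos r
  have hκ := k0_pos r
  have he := e0_pos r
  have hCw := Cw_pos r
  refine ⟨min (1 / (2 * Cb r * D1 + 1)) (e0 r / 50000), by positivity, min_le_right _ _, ?_⟩
  set c : ℝ := min (1 / (2 * Cb r * D1 + 1)) (e0 r / 50000) with hc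
  have hc0 : 0 < c := by positivity
  have hc1 : c ≤ e0 r / 50000 := min_le_right _ _
  have hDc : 2 * (Cb r * D1) * c ≤ 1 := by
    have h1 : 2 * (Cb r * D1) * c ≤ 2 * (Cb r * D1) * (1 / (2 * Cb r * D1 + 1)) := by
      gcongr
      exact min_le_left _ _
    refine h1.trans ?_
    rw [mul_one_div, div_le_one (by positivity)]
    linarith
  have hCκ : Real.exp 1 * (6400 * Cb r * Pc r + 1) < k0 r * Cw r := by
    rw [Cw, mul_add (k0 r), mul_div_cancel₀ _ hκ.ne']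
    have : 0 < k0 r * (42 ^ (4 * r + 7) * Pc r) := by positivity
    linarith
  have hC42 : 42 ^ (4 * r + 7) * Pc r ≤ Cw r := by
    rw [Cw]
    have : 0 ≤ (Real.exp 1 * (6400 * Cb r * Pc r + 1) + 1) / k0 r := by positivity
    linarith
  intro ν T X A j0 J u P β hν h hA hX hAE hβ0 hβi hβ hcomp
  have hceil : ⌈(2 : ℝ) ^ j0⌉₊ = 2 ^ j0 := by
    have : ((2 : ℝ) ^ j0) = (((2 ^ j0 : ℕ)) : ℝ) := by push_cast; rfl
    rw [this, Nat.ceil_natCast]
  refine dyn_main r hD10 hc0 hDc hCw hCκ hC42 hν h (one_le_pow₀ (by norm_num)) (by positivity) hA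
    hX hAE hβ0 hβi hβ ?_
  rw [hceil]
  intro hKN t ht hen hu hsK n j m x
  obtain ⟨w, Q, hw, hQ, hwQ, hwG, hdl⟩ := hcomp t ht
  have hβt := hβ0 t ht
  have hG := hD1 ν (β t) A (Real.sqrt (energy (u 0))) j0 J (u t) w Q hν hβt (Real.sqrt_nonneg _)
    hKN hu hen hsK hw hQ hwQ hwG (fun j hj0 hjJ i x => (hdl j hj0 hjJ i x).trans (by gcongr))
    n j m x
  have e1 : ν * (β t / ν) ^ (2 / (1 + s)) = ν ^ (1 - 2 / (1 + s)) * β t ^ (2 / (1 + s)) := by
    rw [Real.div_rpow hβt hν.le, Real.rpow_sub hν, Real.rpow_one]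
    ring
  rw [e1] at hG
  exact hG

end Pool.Agent.W734.NS
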