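import Pool.Agent.W734.NS.Bf2

/-!
Bounds for the sup norms of the gradients of the low frequency parts.
-/

open MeasureTheory Set Filter Topology H459R3.NS
open scoped ContDiff ENNReal

namespace Pool.Agent.W734.NS

/-! ### sums over the dyadic scales -/

theorem geo_le {r : ℝ} (hr : 2 ≤ r) (m : ℕ) : ∑ n ∈ Finset.range (m + 1), r ^ n ≤ 2 * r ^ m := by
  induction m with
  | zero => simp
  | succ m ih =>
    rw [Finset.sum_range_succ]
    have : 0 ≤ r ^ m := by positivity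
    rw [pow_succ]
    nlinarith

theorem dy_le {x : ℝ} (hx : 0 ≤ x) (d : ℕ) (m : ℕ) :
    ∑ n ∈ Finset.range m, (if (2 : ℝ) ^ n < x then ((2 : ℝ) ^ (d + 1)) ^ n else 0)
      ≤ 2 * x ^ (d + 1) := by
  induction m with
  | zero => simp; positivity
  | succ m ih =>
    by_cases h : (2 : ℝ) ^ m < x
    · have h1 : ∑ n ∈ Finset.range (m + 1), (if (2 : ℝ) ^ n < x then ((2 : ℝ) ^ (d + 1)) ^ n else 0)
          ≤ ∑ n ∈ Finset.range (m + 1), ((2 : ℝ) ^ (d + 1)) ^ n := by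
        refine Finset.sum_le_sum fun n _ => ?_
        split_ifs
        · exact le_rfl
        · positivity
      refine h1.trans ((geo_le ?_ m).trans ?_)
      · calc (2 : ℝ) = 2 ^ 1 := by norm_num
          _ ≤ 2 ^ (d + 1) := pow_le_pow_right₀ (by norm_num) (by omega)
      · rw [← pow_mul, mul_comm (d + 1) m, pow_mul]
        gcongr
    · rw [Finset.sum_range_succ, if_neg h, add_zero]
      exact ih

/-- weighted `ℓ²` norm -/
noncomputable def nd (d : ℕ) (a : K3 → ℂ) : ℝ := ∑' k, (N k : ℝ) ^ d * ‖a k‖ ^ 2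

theorem summable_nd {a : K3 → ℂ} (ha : Rap a) (d : ℕ) :
    Summable fun k => (N k : ℝ) ^ d * ‖a k‖ ^ 2 := by
  have hM : ∀ k, ‖a k‖ ≤ ∑' m, ‖a m‖ := fun k => ha.summable.norm.le_tsum k fun _ _ => norm_nonneg _
  refine Summable.of_nonneg_of_le (fun k => by positivity) (fun k => ?_)
    ((ha d).mul_right (∑' m, ‖a m‖))
  rw [sq, ← mul_assoc]
  exact mul_le_mul_of_nonneg_left (hM k) (by positivity)

theorem nd_nonneg (d : ℕ) (a : K3 → ℂ) : 0 ≤ nd d a := tsum_nonneg fun _ => by positivity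

theorem sum_W_le {a : K3 → ℂ} (ha : Rap a) (d m : ℕ) :
    ∑ n ∈ Finset.range m, ((2 : ℝ) ^ (d + 1)) ^ n * n2 ((Wn n).indicator a) ^ 2
      ≤ 2 * 32 ^ (d + 1) * nd (d + 1) a := by
  have h1 : ∀ n, ((2 : ℝ) ^ (d + 1)) ^ n * n2 ((Wn n).indicator a) ^ 2
      = ∑' k, ((2 : ℝ) ^ (d + 1)) ^ n * ‖(Wn n).indicator a k‖ ^ 2 := by
    intro n
    rw [n2_sq, tsum_mul_left]
  have hs : ∀ n, Summable fun k => ((2 : ℝ) ^ (d + 1)) ^ n * ‖(Wn n).indicator a k‖ ^ 2 :=
    fun n => (summable_sq (ha.ind _).summable).mul_left _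
  simp_rw [h1]
  rw [← Summable.tsum_finsetSum fun n _ => hs n, nd, ← tsum_mul_left]
  refine Summable.tsum_le_tsum (fun k => ?_) (summable_sum fun n _ => hs n)
    ((summable_nd ha (d + 1)).mul_left _)
  have h2 : ∀ n, ((2 : ℝ) ^ (d + 1)) ^ n * ‖(Wn n).indicator a k‖ ^ 2
      = (if (2 : ℝ) ^ n < 32 * (N k : ℝ) then ((2 : ℝ) ^ (d + 1)) ^ n else 0) * ‖a k‖ ^ 2 := by
    intro n
    by_cases hk : k ∈ Wn n
    · have : (2 : ℝ) ^ n < 32 * (N k : ℝ) := by
        have : 2 ^ n < 32 * N k := hk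
        exact_mod_cast this
      rw [indicator_of_mem hk, if_pos this]
    · have : ¬ (2 : ℝ) ^ n < 32 * (N k : ℝ) := by
        intro h
        refine hk ?_
        show 2 ^ n < 32 * N k
        exact_mod_cast h
      rw [indicator_of_notMem hk, if_neg this]
      simp
  simp_rw [h2]
  rw [← Finset.sum_mul]
  calc _ ≤ (2 * (32 * (N k : ℝ)) ^ (d + 1)) * ‖a k‖ ^ 2 :=
        mul_le_mul_of_nonneg_right (dy_le (by positivity) d m) (sq_nonneg _)
    _ = _ := by rw [mul_pow]; ring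

/-! ### finitely many frequencies -/

theorem S_fin_le {a b : K3 → ℂ} (ha : Rap a) (F : Finset K3) (hb : ∀ k, k ∉ F → b k = 0) {c : ℝ}
    (hc : 0 ≤ c) (h : ∀ k ∈ F, ‖b k‖ ≤ c * ‖a k‖) (x : V) :
    ‖S b x‖ ≤ c * (Real.sqrt F.card * n2 a) := by
  have hs : Summable b := summable_of_ne_finset_zero (s := F) hb
  refine (norm_S_le hs x).trans ?_
  rw [tsum_eq_sum (s := F) fun k hk => by rw [hb k hk, norm_zero]]
  refine (Finset.sum_le_sum h).trans ?_
  rw [← Finset.mul_sum]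
  refine mul_le_mul_of_nonneg_left ?_ hc
  have a1 := Finset.sum_mul_sq_le_sq_mul_sq F (fun _ => (1 : ℝ)) (fun k => ‖a k‖)
  simp only [one_mul, one_pow, Finset.sum_const, nsmul_eq_mul, mul_one] at a1
  have a2 : ∑ k ∈ F, ‖a k‖ ^ 2 ≤ n2 a ^ 2 := by
    rw [n2_sq]
    exact (summable_sq ha.summable).sum_le_tsum _ fun _ _ => sq_nonneg _
  have a3 : (∑ k ∈ F, ‖a k‖) ^ 2 ≤ (Real.sqrt F.card * n2 a) ^ 2 := by
    rw [mul_pow, Real.sq_sqrt (by positivity)]
    exact a1.trans (mul_le_mul_of_nonneg_left a2 (by positivity))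
  exact (pow_le_pow_iff_left₀ (Finset.sum_nonneg fun _ _ => norm_nonneg _)
    (mul_nonneg (Real.sqrt_nonneg _) (n2_nonneg _)) (by norm_num)).1 a3

theorem abs_le_of_Qf {k : K3} {R : ℕ} (h : k ∈ Qf R) (m : Fin 3) : |(k m : ℝ)| ≤ R := by
  have h1 := (N_le_iff k R).1 (mem_Qf.1 h) m
  exact_mod_cast h1

/-- The low frequencies in terms of the energy. -/
theorem sup_low {a : K3 → ℂ} (ha : Rap a) {R : ℕ} (hR : 1 ≤ R) (m : Fin 3) (x : V) :
    ‖S (ch R (D m a)) x‖ ≤ 400 * ((R : ℝ) ^ 2 * Real.sqrt R) * n2 a := by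
  have hp := Real.pi_pos
  have hR' : (1 : ℝ) ≤ R := by exact_mod_cast hR
  have h1 := S_fin_le (b := ch R (D m a)) ha (Qf (3 * R)) (fun k hk => by
    rw [mem_Qf] at hk
    exact ch_zero_of R _ (by omega)) (c := 2 * Real.pi * (3 * R)) (by positivity) (fun k hk => by
    rw [ch, norm_mul, norm_D]
    have h2 := norm_chi_le R k
    have h3 := abs_le_of_Qf hk m
    push_cast at h3
    calc ‖chi R k‖ * (2 * Real.pi * |(k m : ℝ)| * ‖a k‖)
        ≤ 1 * (2 * Real.pi * (3 * R) * ‖a k‖) := by gcongr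
      _ = _ := by ring) x
  refine h1.trans ?_
  have h2 : Real.sqrt (Qf (3 * R)).card ≤ 20 * (R * Real.sqrt R) := by
    rw [Real.sqrt_le_left (by positivity), card_Qf, mul_pow, mul_pow, Real.sq_sqrt (by positivity)]
    push_cast
    have h3 : (2 * (3 * R) + 1 : ℝ) ≤ 7 * R := by linarith
    calc (2 * (3 * R) + 1 : ℝ) ^ 3 ≤ (7 * R) ^ 3 := by gcongr
      _ = 343 * ((R : ℝ) ^ 2 * R) := by ring
      _ ≤ 20 ^ 2 * ((R : ℝ) ^ 2 * R) := by
        have : 0 ≤ (R : ℝ) ^ 2 * R := by positivity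
        nlinarith
  have h4 : Real.pi ≤ 3.15 := Real.pi_lt_d2.le
  have hn := n2_nonneg a
  calc 2 * Real.pi * (3 * R) * (Real.sqrt (Qf (3 * R)).card * n2 a)
      ≤ 2 * 3.15 * (3 * R) * (20 * (R * Real.sqrt R) * n2 a) := by gcongr
    _ = 378 * ((R : ℝ) ^ 2 * Real.sqrt R) * n2 a := by ring
    _ ≤ _ := by
      have : 0 ≤ (R : ℝ) ^ 2 * Real.sqrt R := by positivity
      nlinarith [mul_nonneg this hn]

/-- Two-dimensional sets of frequencies. -/
theorem sup_two {a : K3 → ℂ} (ha : Rap a) {A : ℝ} {Q : Set K3} (hQ : DimTwo A Q)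
    (haQ : ∀ k, k ∉ Q → a k = 0) {R : ℕ} (hR : 1 ≤ R) (x : V) :
    ‖S (ch R a) x‖ ≤ 3 * R * Real.sqrt A * n2 a := by
  classical
  have h1 := S_fin_le (b := ch R a) ha ((Qf (3 * R)).filter (· ∈ Q)) (fun k hk => by
    rw [Finset.mem_filter, not_and_or, mem_Qf] at hk
    rcases hk with hk | hk
    · exact ch_zero_of R _ (by omega)
    · rw [ch, haQ k hk, mul_zero]) (c := 1) zero_le_one (fun k hk => by
    rw [ch, norm_mul]
    exact mul_le_mul_of_nonneg_right (norm_chi_le R k) (norm_nonneg _)) x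
  refine h1.trans ?_
  rw [one_mul]
  have h2 : Real.sqrt ((Qf (3 * R)).filter (· ∈ Q)).card ≤ 3 * R * Real.sqrt A := by
    have h3 := hQ 0 (3 * R) (by omega)
    have h4 : ({q ∈ Q | ∀ j, |q j - (0 : K3) j| ≤ ((3 * R : ℕ) : ℤ)} : Set K3)
        = ((Qf (3 * R)).filter (· ∈ Q) : Finset K3) := by
      ext k
      simp only [Pi.zero_apply, sub_zero, Finset.coe_filter, mem_ofPred_eq, mem_Qf, N_le_iff]
      tauto
    rw [h4, Set.ncard_coe_finset] at h3
    have h5 : 3 * (R : ℝ) * Real.sqrt A = Real.sqrt (A * ((3 * R : ℕ) : ℝ) ^ 2) := by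
      rw [Real.sqrt_mul hQ.nonneg, Real.sqrt_sq (by positivity)]
      push_cast
      ring
    rw [h5]
    exact Real.sqrt_le_sqrt h3
  exact mul_le_mul_of_nonneg_right h2 (n2_nonneg _)

end Pool.Agent.W734.NS
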