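import Pool.Agent.W734.NS.Gn

/-!
Bounds for the sup norms of the gradients of the low frequency parts: the `L^p` norm and the tail.
-/

open MeasureTheory Set Filter Topology H459R3.NS
open scoped ContDiff ENNReal

namespace Pool.Agent.W734.NS

/-! ### the `L^p` norm -/

theorem nrm_S {b : K3 → ℂ} (hb : Summable b) : nrm (fun x => ‖S b x‖) = n2 b := by
  unfold nrm
  rw [integral_norm_sq hb, Real.sqrt_sq (n2_nonneg b)]

theorem eLpNorm_six_le {c : K3 → ℂ} {R : ℕ} (hc : ∀ k, k ∉ Qf R → c k = 0) :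
    eLpNorm (fun x => ‖S c x‖) 6 (volume.restrict cube)
      ≤ ENNReal.ofReal ((2 * R + 1) * n2 c) := by
  have hs := summable_fin hc
  have hcc : Continuous fun x => ‖S c x‖ := (S_continuous hs).norm
  set B : ℝ := Real.sqrt (Qf R).card * n2 c with hB
  have hB0 : 0 ≤ B := mul_nonneg (Real.sqrt_nonneg _) (n2_nonneg _)
  have hsup : ∀ x, ‖S c x‖ ≤ B := by
    intro x
    have h := S_fin_le (a := c) (rap_fin hc) (Qf R) hc zero_le_one (fun k _ => by rw [one_mul]) x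
    rwa [one_mul] at h
  have hint : ∫ x in cube, ‖S c x‖ ^ 6 ≤ ((2 * R + 1) * n2 c) ^ 6 := by
    have h1 : ∫ x in cube, ‖S c x‖ ^ 6 ≤ ∫ x in cube, B ^ 4 * ‖S c x‖ ^ 2 := by
      refine integral_mono (integrableOn_cube (hcc.pow 6))
        (integrableOn_cube (continuous_const.mul (hcc.pow 2))) fun x => ?_
      have h2 : ‖S c x‖ ^ 4 ≤ B ^ 4 := pow_le_pow_left₀ (norm_nonneg _) (hsup x) 4
      calc ‖S c x‖ ^ 6 = ‖S c x‖ ^ 4 * ‖S c x‖ ^ 2 := by ring
        _ ≤ B ^ 4 * ‖S c x‖ ^ 2 := mul_le_mul_of_nonneg_right h2 (sq_nonneg _)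
    refine h1.trans (le_of_eq ?_)
    rw [integral_const_mul, integral_norm_sq hs, hB, mul_pow]
    have e1 : Real.sqrt ((Qf R).card : ℝ) ^ 4 = (2 * R + 1) ^ 6 := by
      have : Real.sqrt ((Qf R).card : ℝ) ^ 4 = (Real.sqrt ((Qf R).card : ℝ) ^ 2) ^ 2 := by ring
      rw [this, Real.sq_sqrt (by positivity), card_Qf]
      push_cast
      ring
    rw [e1]
    ring
  have h6 : (6 : ℝ≥0∞).toReal = 6 := by norm_num
  rw [eLpNorm_eq_lintegral_rpow_enorm_toReal (by norm_num) (by norm_num), h6]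
  have e2 : ∀ x, ‖‖S c x‖‖ₑ ^ (6 : ℝ) = ENNReal.ofReal (‖S c x‖ ^ 6) := by
    intro x
    rw [enorm_norm, ← ofReal_norm, ENNReal.ofReal_rpow_of_nonneg (norm_nonneg _) (by norm_num)]
    congr 1
    exact_mod_cast Real.rpow_natCast ‖S c x‖ 6
  simp_rw [e2]
  have hi : IntegrableOn (fun x => ‖S c x‖ ^ 6) cube := integrableOn_cube (hcc.pow 6)
  rw [← ofReal_integral_eq_lintegral_ofReal hi (Eventually.of_forall fun x => by positivity)]
  rw [ENNReal.ofReal_rpow_of_nonneg (integral_nonneg fun x => by positivity) (by norm_num)]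
  refine ENNReal.ofReal_le_ofReal ?_
  have hn := n2_nonneg c
  calc (∫ x in cube, ‖S c x‖ ^ 6) ^ (1 / 6 : ℝ) ≤ (((2 * R + 1) * n2 c) ^ 6) ^ (1 / 6 : ℝ) :=
        Real.rpow_le_rpow (integral_nonneg fun x => by positivity) hint (by norm_num)
    _ = (2 * R + 1) * n2 c := by
        rw [← Real.rpow_natCast, ← Real.rpow_mul (by positivity)]
        norm_num

/-- Nikolskii's inequality in a weak form. -/
theorem tri_Lp {p : ℝ≥0∞} (hp : 3 < p) {r : V → ℝ} {β : ℝ} (hr : SP r) (hβ : 0 ≤ β)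
    (hrβ : eLpNorm r p (volume.restrict cube) ≤ ENNReal.ofReal β) {b c : K3 → ℂ}
    (hb : Summable b) {R : ℕ} (hc : ∀ k, k ∉ Qf R → c k = 0) :
    ‖Tri (fr r) b c‖ ≤ β * (2 * R + 1) ^ th p * (n2 b * n2 c) := by
  have hθ0 := th_nonneg p
  have hθ1 := th_lt_one hp
  have hcs := summable_fin hc
  have hn := n2_nonneg c
  have hn' := n2_nonneg b
  rw [tri_eq (rap_fr hr).summable hb hcs]
  have h1 : ENNReal.ofReal ‖∫ x in cube, S (fr r) x * (S b x * S c x)‖
      ≤ ∫⁻ x in cube, ‖r x‖ₑ * (‖(‖S b x‖ : ℝ)‖ₑ * ‖(‖S c x‖ : ℝ)‖ₑ) := by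
    rw [ofReal_norm]
    refine (enorm_integral_le_lintegral_enorm _).trans (le_of_eq ?_)
    congr 1
    funext x
    rw [S_fr hr, enorm_mul, enorm_mul, enorm_norm, enorm_norm]
    congr 1
    rw [← ofReal_norm, Complex.norm_real, ofReal_norm]
  have h2 := holder hp hr.cont (f := fun x => ‖S b x‖) (g := fun x => ‖S c x‖)
    (S_continuous hb).norm (S_continuous hcs).norm
  rw [eLpNorm_two (S_continuous hb).norm, eLpNorm_two (S_continuous hcs).norm, nrm_S hb,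
    nrm_S hcs] at h2
  have h3 : ENNReal.ofReal ‖∫ x in cube, S (fr r) x * (S b x * S c x)‖
      ≤ ENNReal.ofReal (β * (n2 b * (n2 c ^ (1 - th p) * ((2 * R + 1) * n2 c) ^ th p))) := by
    refine h1.trans (h2.trans ?_)
    rw [ENNReal.ofReal_mul hβ, ENNReal.ofReal_mul hn', ENNReal.ofReal_mul (by positivity),
      ← ENNReal.ofReal_rpow_of_nonneg hn (by linarith),
      ← ENNReal.ofReal_rpow_of_nonneg (by positivity) hθ0]
    gcongr
    exact eLpNorm_six_le hc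
  have h4 := (ENNReal.ofReal_le_ofReal_iff (by positivity)).1 h3
  refine h4.trans (le_of_eq ?_)
  rw [Real.mul_rpow (by positivity) hn]
  have e1 : n2 c ^ (1 - th p) * n2 c ^ th p = n2 c := by
    rw [← Real.rpow_add_of_nonneg hn (by linarith) hθ0]
    simp
  calc β * (n2 b * (n2 c ^ (1 - th p) * ((2 * R + 1) ^ th p * n2 c ^ th p)))
      = β * (2 * R + 1) ^ th p * (n2 b * (n2 c ^ (1 - th p) * n2 c ^ th p)) := by ring
    _ = _ := by rw [e1]

theorem sup_Lp {p : ℝ≥0∞} (hp : 3 < p) {r : V → ℝ} {β : ℝ} (hr : SP r) (hβ : 0 ≤ β)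
    (hrβ : eLpNorm r p (volume.restrict cube) ≤ ENNReal.ofReal β) {R : ℕ} (hR : 1 ≤ R)
    (j : Fin 3) (x : V) :
    ‖S (ch R (D j (fr r))) x‖ ≤ 180 * β * ((R : ℝ) * (R : ℝ) ^ th p) := by
  have hpi := Real.pi_pos
  have hθ0 := th_nonneg p
  have hθ1 := th_lt_one hp
  have hR' : (1 : ℝ) ≤ R := by exact_mod_cast hR
  set b := iq (2 * R) with hb
  set c : K3 → ℂ := fun m => iq R m / (Qf R).card with hc
  have hb0 : ∀ k, k ∉ Qf (2 * R) → b k = 0 := fun k hk => iq_zero hk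
  have hc0 : ∀ k, k ∉ Qf R → c k = 0 := fun k hk => icr_zero hk
  have hs1 := summable_fin hb0
  have hs2 := summable_fin hc0
  have ha := (rap_fr hr).summable
  have e : S (ch R (D j (fr r))) x
      = -Tri (fr r) (tw x (D j b)) (tw x c) - Tri (fr r) (tw x b) (tw x (D j c)) := by
    rw [← S_corr ha (summable_fin (D_zero_of hb0 j)) hs2,
      ← S_corr ha hs1 (summable_fin (D_zero_of hc0 j))]
    have hsum : ∀ {b c : K3 → ℂ}, Summable b → Summable c →
        Summable fun k => corr b c k * fr r k * ee k x := by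
      intro b c hb hc
      have h3 := (summable_tri ha (summable_tw hb x) (summable_tw hc x)).prod
      refine h3.congr fun k => ?_
      unfold corr tw
      rw [← tsum_mul_right, ← tsum_mul_right]
      refine tsum_congr fun m => ?_
      have e : ee k x = ee (-m) x * ee (-(-k - m)) x := by
        rw [← ee_add_left]
        congr 1
        abel
      simp only
      rw [e]
      ring
    unfold S
    rw [← tsum_neg, ← (hsum (summable_fin (D_zero_of hb0 j)) hs2).neg.tsum_sub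
      (hsum hs1 (summable_fin (D_zero_of hc0 j)))]
    refine tsum_congr fun k => ?_
    have h4 : D j (chi R) k = -(corr (D j b) c k) - corr b (D j c) k :=
      D_corr (rap_fin hb0) (rap_fin hc0) j k
    have h5 : ch R (D j (fr r)) k = D j (chi R) k * fr r k := by
      rw [ch, D, D]
      ring
    rw [h5, h4]
    ring
  have tz : ∀ {c : K3 → ℂ} {R : ℕ}, (∀ k, k ∉ Qf R → c k = 0) →
      ∀ k, k ∉ Qf R → tw x c k = 0 := fun h k hk => by rw [tw, h k hk, zero_mul]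
  have k1 := tri_Lp hp hr hβ hrβ (summable_tw (summable_fin (D_zero_of hb0 j)) x) (tz hc0)
  have k2 := tri_Lp hp hr hβ hrβ (summable_tw hs1 x) (tz (D_zero_of hc0 j))
  rw [n2_tw, n2_tw] at k1 k2
  have hn1 := n2_D_le hb0 j
  have hn2 := n2_D_le hc0 j
  have hn := n2_prod_le R
  rw [← hb, ← hc] at hn
  have hq : (0 : ℝ) ≤ β * (2 * R + 1) ^ th p := by positivity
  rw [e]
  refine (norm_sub_le _ _).trans ?_
  rw [norm_neg]
  have m1 : n2 (D j b) * n2 c ≤ 2 * Real.pi * (2 * R) * 3 := by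
    calc n2 (D j b) * n2 c ≤ (2 * Real.pi * ((2 * R : ℕ) : ℝ) * n2 b) * n2 c :=
          mul_le_mul_of_nonneg_right hn1 (n2_nonneg _)
      _ = 2 * Real.pi * (2 * R) * (n2 b * n2 c) := by push_cast; ring
      _ ≤ _ := by gcongr
  have m2 : n2 b * n2 (D j c) ≤ 2 * Real.pi * R * 3 := by
    calc n2 b * n2 (D j c) ≤ n2 b * (2 * Real.pi * R * n2 c) :=
          mul_le_mul_of_nonneg_left hn2 (n2_nonneg _)
      _ = 2 * Real.pi * R * (n2 b * n2 c) := by ring
      _ ≤ _ := by gcongr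
  have m3 : (2 * (R : ℝ) + 1) ^ th p ≤ 3 * (R : ℝ) ^ th p := by
    calc (2 * (R : ℝ) + 1) ^ th p ≤ (3 * R) ^ th p :=
          Real.rpow_le_rpow (by positivity) (by linarith) hθ0
      _ = 3 ^ th p * (R : ℝ) ^ th p := Real.mul_rpow (by norm_num) (by positivity)
      _ ≤ 3 ^ (1 : ℝ) * (R : ℝ) ^ th p := by
        gcongr
        · norm_num
      _ = _ := by rw [Real.rpow_one]
  have h4 : Real.pi ≤ 3.15 := Real.pi_lt_d2.le
  have h5 : 0 ≤ β * (R * (R : ℝ) ^ th p) := by positivity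
  calc _ ≤ β * (2 * R + 1) ^ th p * (2 * Real.pi * (2 * R) * 3)
        + β * (2 * R + 1) ^ th p * (2 * Real.pi * R * 3) :=
        add_le_add (k1.trans (mul_le_mul_of_nonneg_left m1 hq))
          (k2.trans (mul_le_mul_of_nonneg_left m2 hq))
    _ = 18 * Real.pi * (β * R) * (2 * R + 1) ^ th p := by ring
    _ ≤ 18 * 3.15 * (β * R) * (3 * (R : ℝ) ^ th p) := by gcongr
    _ = 170.1 * (β * (R * (R : ℝ) ^ th p)) := by ring
    _ ≤ 180 * (β * (R * (R : ℝ) ^ th p)) := by nlinarith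
    _ = _ := by ring

/-! ### the tail -/

theorem card_shell (m : ℕ) : (((Qf (m + 1)) \ (Qf m)).card : ℝ) ≤ 26 * (m + 1 : ℝ) ^ 2 := by
  have hsub : Qf m ⊆ Qf (m + 1) := by
    intro k hk
    rw [mem_Qf] at hk ⊢
    omega
  rw [Finset.card_sdiff_of_subset hsub, card_Qf, card_Qf]
  have h1 : (2 * m + 1) ^ 3 ≤ (2 * (m + 1) + 1) ^ 3 := by gcongr; omega
  push_cast [Nat.cast_sub h1]
  nlinarith [sq_nonneg (m : ℝ), (Nat.cast_nonneg m : (0 : ℝ) ≤ m)]

theorem tail_sum (R : ℕ) (hR : 1 ≤ R) (m : ℕ) (hm : R ≤ m) :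
    ∑ k ∈ (Qf m) \ (Qf R), 1 / (N k : ℝ) ^ 6 ≤ 26 * (1 / (R : ℝ) ^ 3 - 1 / (m : ℝ) ^ 3) := by
  induction m, hm using Nat.le_induction with
  | base => simp
  | succ m hm ih =>
    have hm0 : (1 : ℝ) ≤ m := by exact_mod_cast hR.trans hm
    have hsub : Qf m ⊆ Qf (m + 1) := by
      intro k hk
      rw [mem_Qf] at hk ⊢
      omega
    have hsub2 : Qf R ⊆ Qf m := by
      intro k hk
      rw [mem_Qf] at hk ⊢
      omega
    have e1 : (Qf (m + 1)) \ (Qf R) = ((Qf m) \ (Qf R)) ∪ ((Qf (m + 1)) \ (Qf m)) := by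
      ext k
      simp only [Finset.mem_sdiff, Finset.mem_union, mem_Qf]
      omega
    have hdis : Disjoint ((Qf m) \ (Qf R)) ((Qf (m + 1)) \ (Qf m)) := by
      rw [Finset.disjoint_left]
      intro k h1 h2
      exact (Finset.mem_sdiff.1 h2).2 (Finset.mem_sdiff.1 h1).1
    rw [e1, Finset.sum_union hdis]
    have h2 : ∑ k ∈ (Qf (m + 1)) \ (Qf m), 1 / (N k : ℝ) ^ 6 ≤ 26 / (m + 1 : ℝ) ^ 4 := by
      have h3 : ∀ k ∈ (Qf (m + 1)) \ (Qf m), 1 / (N k : ℝ) ^ 6 = 1 / (m + 1 : ℝ) ^ 6 := by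
        intro k hk
        rw [Finset.mem_sdiff, mem_Qf, mem_Qf] at hk
        have : N k = m + 1 := by omega
        rw [this]
        push_cast
        rfl
      rw [Finset.sum_congr rfl h3, Finset.sum_const, nsmul_eq_mul]
      calc (((Qf (m + 1)) \ (Qf m)).card : ℝ) * (1 / (m + 1 : ℝ) ^ 6)
          ≤ (26 * (m + 1 : ℝ) ^ 2) * (1 / (m + 1 : ℝ) ^ 6) := by
            gcongr
            exact card_shell m
        _ = 26 / (m + 1 : ℝ) ^ 4 := by field_simp
    have h3 : 1 / (m + 1 : ℝ) ^ 4 ≤ 1 / (m : ℝ) ^ 3 - 1 / (m + 1 : ℝ) ^ 3 := by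
      rw [div_sub_div _ _ (by positivity) (by positivity), div_le_div_iff₀ (by positivity)
        (by positivity)]
      have : (0 : ℝ) < m := by linarith
      have e : (m + 1 : ℝ) ^ 4 = (m + 1) * (m + 1) ^ 3 := by ring
      nlinarith [pow_pos this 2, pow_pos this 3, pow_pos this 4, pow_pos this 5, pow_pos this 6,
        pow_pos this 7]
    push_cast
    have h4 : 26 / (m + 1 : ℝ) ^ 4 = 26 * (1 / (m + 1 : ℝ) ^ 4) := by ring
    rw [h4] at h2
    linarith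

theorem tail_fin {a : K3 → ℂ} (ha : Rap a) {R : ℕ} (hR : 1 ≤ R) (r : ℕ) (F : Finset K3)
    (hF : ∀ k ∈ F, R < N k) :
    ∑ k ∈ F, (N k : ℝ) * ‖a k‖ ≤ Real.sqrt (26 / (R : ℝ) ^ (4 * r + 3) * nd (4 * r + 8) a) := by
  have hR0 : (0 : ℝ) < R := by exact_mod_cast hR
  have h1 : ∀ k ∈ F, (N k : ℝ) * ‖a k‖
      = (1 / (N k : ℝ) ^ (2 * r + 3)) * ((N k : ℝ) ^ (2 * r + 4) * ‖a k‖) := by
    intro k hk
    have : (0 : ℝ) < N k := by
      have := hF k hk
      exact_mod_cast lt_of_le_of_lt (Nat.zero_le _) this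
    field_simp
    ring
  rw [Finset.sum_congr rfl h1]
  refine Real.le_sqrt_of_sq_le ?_
  refine (Finset.sum_mul_sq_le_sq_mul_sq F _ _).trans ?_
  refine mul_le_mul ?_ ?_ (Finset.sum_nonneg fun _ _ => sq_nonneg _) (by positivity)
  · -- the first factor
    set m : ℕ := max R (F.sup N) with hm
    have hRm : R ≤ m := le_max_left _ _
    have hsub : F ⊆ (Qf m) \ (Qf R) := by
      intro k hk
      rw [Finset.mem_sdiff, mem_Qf, mem_Qf]
      exact ⟨(Finset.le_sup (f := N) hk).trans (le_max_right _ _), not_le.2 (hF k hk)⟩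
    have h2 : ∀ k ∈ F, (1 / (N k : ℝ) ^ (2 * r + 3)) ^ 2
        ≤ (1 / (R : ℝ) ^ (4 * r)) * (1 / (N k : ℝ) ^ 6) := by
      intro k hk
      have h3 : (R : ℝ) ≤ N k := by exact_mod_cast (hF k hk).le
      have h4 : (0 : ℝ) < N k := hR0.trans_le h3
      have e1 : (1 / (N k : ℝ) ^ (2 * r + 3)) ^ 2
          = (1 / (N k : ℝ) ^ (4 * r)) * (1 / (N k : ℝ) ^ 6) := by
        rw [div_pow, one_pow, ← pow_mul, div_mul_div_comm, one_mul, ← pow_add]
        congr 2
        ring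
      rw [e1]
      gcongr
    refine (Finset.sum_le_sum h2).trans ?_
    rw [← Finset.mul_sum]
    have h5 : ∑ k ∈ F, 1 / (N k : ℝ) ^ 6 ≤ 26 / (R : ℝ) ^ 3 := by
      refine (Finset.sum_le_sum_of_subset_of_nonneg hsub fun _ _ _ => by positivity).trans ?_
      refine (tail_sum R hR m hRm).trans ?_
      have : 0 ≤ 1 / (m : ℝ) ^ 3 := by positivity
      have e : 26 / (R : ℝ) ^ 3 = 26 * (1 / (R : ℝ) ^ 3) := by ring
      rw [e]
      linarith
    calc 1 / (R : ℝ) ^ (4 * r) * ∑ k ∈ F, 1 / (N k : ℝ) ^ 6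
        ≤ 1 / (R : ℝ) ^ (4 * r) * (26 / (R : ℝ) ^ 3) := by gcongr
      _ = _ := by rw [div_mul_div_comm, one_mul, ← pow_add]
  · have h2 : ∀ k, ((N k : ℝ) ^ (2 * r + 4) * ‖a k‖) ^ 2 = (N k : ℝ) ^ (4 * r + 8) * ‖a k‖ ^ 2 := by
      intro k
      rw [mul_pow, ← pow_mul]
      congr 2
      ring
    simp_rw [h2]
    exact (summable_nd ha _).sum_le_tsum _ fun _ _ => by positivity

/-- The tail. -/
theorem sup_tail {a : K3 → ℂ} (ha : Rap a) {R : ℕ} (hR : 1 ≤ R) (r : ℕ) {b : K3 → ℂ} {c : ℝ}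
    (hc : 0 ≤ c) (hb0 : ∀ k, N k ≤ R → b k = 0) (hb : ∀ k, ‖b k‖ ≤ c * ((N k : ℝ) * ‖a k‖)) (x : V) :
    ‖S b x‖ ≤ c * Real.sqrt (26 / (R : ℝ) ^ (4 * r + 3) * nd (4 * r + 8) a) := by
  have hs : Summable b := by
    refine Summable.of_norm (Summable.of_nonneg_of_le (fun k => norm_nonneg _) hb ?_)
    refine Summable.mul_left _ ?_
    simpa using ha 1
  refine (norm_S_le hs x).trans ?_
  refine Real.tsum_le_of_sum_le (fun k => norm_nonneg _) fun F => ?_
  classical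
  have h1 : ∑ k ∈ F, ‖b k‖ = ∑ k ∈ F.filter (fun k => R < N k), ‖b k‖ := by
    rw [Finset.sum_filter]
    refine Finset.sum_congr rfl fun k _ => ?_
    split_ifs with h
    · rfl
    · rw [hb0 k (not_lt.1 h), norm_zero]
  rw [h1]
  refine (Finset.sum_le_sum fun k _ => hb k).trans ?_
  rw [← Finset.mul_sum]
  exact mul_le_mul_of_nonneg_left (tail_fin ha hR r _ fun k hk => (Finset.mem_filter.1 hk).2) hc

end Pool.Agent.W734.NS
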