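import Pool.Agent.W734.NS.Win2

/-!
Evolution of the integral of `|Δ^l u|²`.
-/

open MeasureTheory Set Filter Topology H459R3.NS
open scoped ContDiff

namespace Pool.Agent.W734.NS

/-- The iterated Laplacian. -/
noncomputable def li (l : ℕ) (f : V → ℝ) : V → ℝ := lap^[l] f

theorem li_zero (f : V → ℝ) : li 0 f = f := rfl

theorem li_succ (l : ℕ) (f : V → ℝ) : li (l + 1) f = lap (li l f) :=
  Function.iterate_succ_apply' _ _ _

theorem li_add (a b : ℕ) (f : V → ℝ) : li (a + b) f = li a (li b f) :=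
  Function.iterate_add_apply _ _ _ _

theorem sp_li {f : V → ℝ} (hf : SP f) (l : ℕ) : SP (li l f) := by
  induction l with
  | zero => exact hf
  | succ l ih => rw [li_succ]; exact ih.lap

theorem int_li_symm {f g : V → ℝ} (hf : SP f) (hg : SP g) (l : ℕ) :
    ∫ x in cube, li l f x * g x = ∫ x in cube, f x * li l g x := by
  induction l generalizing g with
  | zero => rfl
  | succ l ih =>
    have e : li (l + 1) g = li l (lap g) := by
      rw [li_add]
      rfl
    rw [li_succ, int_lap_symm (sp_li hf l) hg, ih hg.lap, e]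

theorem div_li {v : Fin 3 → V → ℝ} (hv : ∀ i, SP (v i)) (hdiv : ∀ x, ∑ i, pd i (v i) x = 0)
    (l : ℕ) (x : V) : ∑ i, pd i (li l (v i)) x = 0 := by
  induction l generalizing x with
  | zero => exact hdiv x
  | succ l ih =>
    simp_rw [li_succ]
    exact div_lap (fun i => sp_li (hv i) l) ih x

section

variable {ν T : ℝ} {u : ℝ → V → V} {p : ℝ → V → ℝ}

theorem contDiffOn_li {f : ℝ → V → ℝ}
    (hf : ContDiffOn ℝ ∞ (fun z : ℝ × V => f z.1 z.2) (Ico 0 T ×ˢ univ)) (l : ℕ) :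
    ContDiffOn ℝ ∞ (fun z : ℝ × V => li l (f z.1) z.2) (Ico 0 T ×ˢ univ) := by
  induction l with
  | zero => exact hf
  | succ l ih =>
    simp_rw [li_succ]
    exact contDiffOn_lap (f := fun s => li l (f s)) ih

theorem dt_li {f : ℝ → V → ℝ}
    (hf : ContDiffOn ℝ ∞ (fun z : ℝ × V => f z.1 z.2) (Ico 0 T ×ˢ univ)) {t : ℝ}
    (ht : t ∈ Ioo 0 T) (l : ℕ) (x : V) : dt (fun s => li l (f s)) t x = li l (dt f t) x := by
  induction l generalizing x with
  | zero => rfl
  | succ l ih =>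
    simp_rw [li_succ]
    rw [dt_lap (f := fun s => li l (f s)) (contDiffOn_li hf l) ht x]
    congr 1
    funext y
    exact ih y

/-- `∫ |Δ^l v|²` -/
noncomputable def hn (l : ℕ) (v : V → V) : ℝ := ∑ i, ∫ x in cube, li l (fun y => v y i) x ^ 2

/-- `∫ |∇Δ^l v|²` -/
noncomputable def hn' (l : ℕ) (v : V → V) : ℝ :=
  ∑ i, ∑ m, ∫ x in cube, pd m (li l (fun y => v y i)) x ^ 2

theorem hn_nonneg (l : ℕ) (v : V → V) : 0 ≤ hn l v :=
  Finset.sum_nonneg fun _ _ => integral_nonneg fun _ => sq_nonneg _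

theorem hn'_nonneg (l : ℕ) (v : V → V) : 0 ≤ hn' l v :=
  Finset.sum_nonneg fun _ _ => Finset.sum_nonneg fun _ _ => integral_nonneg fun _ => sq_nonneg _

theorem hn_continuousOn (h : IsSol ν T u p) (l : ℕ) :
    ContinuousOn (fun s => hn l (u s)) (Ico 0 T) := by
  unfold hn
  refine continuousOn_finsetSum _ fun i _ => ?_
  exact continuousOn_int (F := fun s x => li l (fun y => u s y i) x ^ 2)
    ((contDiffOn_li (f := fun s y => u s y i) (h.smooth_c i) l).continuousOn.pow 2)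

/-- the nonlinear term -/
noncomputable def nl (l : ℕ) (v : Fin 3 → V → ℝ) : ℝ :=
  ∑ i, ∫ x in cube, li (l + l) (v i) x * conv v i x

theorem hn_hasDerivAt (h : IsSol ν T u p) (l : ℕ) {t : ℝ} (ht : t ∈ Ioo 0 T) :
    HasDerivAt (fun s => hn l (u s))
      (-(2 * ν * hn' l (u t)) - 2 * nl l (fun i y => u t y i)) t := by
  have hI : t ∈ Ico 0 T := ⟨ht.1.le, ht.2⟩
  set v : Fin 3 → V → ℝ := fun i y => u t y i with hv
  have hsp : ∀ i, SP (v i) := fun i => h.sp hI i
  have hdiv : ∀ x, ∑ i, pd i (v i) x = 0 := h.divfree t hI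
  have h1 : ∀ i, HasDerivAt (fun s => ∫ x in cube, li l (fun y => u s y i) x ^ 2)
      (2 * ∫ x in cube, li l (v i) x * li l (dt (fun s y => u s y i) t) x) t := by
    intro i
    have hG := contDiffOn_li (f := fun s y => u s y i) (h.smooth_c i) l
    have hG1 : ContDiffOn ℝ 1 (fun z : ℝ × V => li l (fun y => u z.1 y i) z.2)
        (Ioo 0 T ×ˢ univ) :=
      mono_Ioo (f := fun s x => li l (fun y => u s y i) x) hG (by norm_cast)
    have hF : ContDiffOn ℝ 1 (fun z : ℝ × V => li l (fun y => u z.1 y i) z.2 ^ 2)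
        (Ioo 0 T ×ˢ univ) := hG1.pow 2
    have key := hasDerivAt_int (F := fun s x => li l (fun y => u s y i) x ^ 2) hF ht
    refine key.congr_deriv ?_
    rw [← integral_const_mul]
    congr 1
    funext x
    have h2 : HasDerivAt (fun s => li l (fun y => u s y i) x)
        (li l (dt (fun s y => u s y i) t) x) t := by
      have h3 := hasDerivAt_slice (F := fun s x => li l (fun y => u s y i) x) hG1 ht x
      have h4 := dt_li (f := fun s y => u s y i) (h.smooth_c i) ht l x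
      rw [H459R3.NS.dt_eq (f := fun s => li l (fun y => u s y i)) hG ht x] at h4
      rwa [h4] at h3
    have h3 : HasDerivAt (fun s => li l (fun y => u s y i) x ^ 2) _ t := h2.pow 2
    rw [h3.deriv]
    simp only [hv]
    push_cast
    ring
  have h2 : HasDerivAt (fun s => hn l (u s))
      (∑ i, 2 * ∫ x in cube, li l (v i) x * li l (dt (fun s y => u s y i) t) x) t :=
    HasDerivAt.fun_sum fun i _ => h1 i
  refine h2.congr_deriv ?_
  have e1 : ∀ i, ∫ x in cube, li l (v i) x * li l (dt (fun s y => u s y i) t) x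
      = ν * (∫ x in cube, li (l + l) (v i) x * lap (v i) x)
        - (∫ x in cube, li (l + l) (v i) x * conv v i x)
        - ∫ x in cube, li (l + l) (v i) x * pd i (p t) x := by
    intro i
    rw [← int_li_symm (sp_li (hsp i) l) (h.sp_dt ht i), ← li_add]
    have e : ∀ x, li (l + l) (v i) x * dt (fun s y => u s y i) t x
        = ν * (li (l + l) (v i) x * lap (v i) x) - li (l + l) (v i) x * conv v i x
          - li (l + l) (v i) x * pd i (p t) x := by
      intro x
      rw [h.dt_eq ht]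
      ring
    simp_rw [e]
    have i1 : IntegrableOn (fun x => ν * (li (l + l) (v i) x * lap (v i) x)) cube :=
      ((sp_li (hsp i) (l + l)).mul (hsp i).lap).int.const_mul ν
    have i2 : IntegrableOn (fun x => li (l + l) (v i) x * conv v i x) cube :=
      ((sp_li (hsp i) (l + l)).mul (sp_conv hsp i)).int
    have i3 : IntegrableOn (fun x => li (l + l) (v i) x * pd i (p t) x) cube :=
      ((sp_li (hsp i) (l + l)).mul ((h.sp_p hI).pd i)).int
    have i12 : IntegrableOn (fun x => ν * (li (l + l) (v i) x * lap (v i) x)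
        - li (l + l) (v i) x * conv v i x) cube := i1.sub i2
    rw [integral_sub i12 i3, integral_sub i1 i2, integral_const_mul]
  simp_rw [e1]
  have e2 : ∑ i, ∫ x in cube, li (l + l) (v i) x * pd i (p t) x = 0 :=
    int_press (v := fun i => li (l + l) (v i)) (fun i => sp_li (hsp i) _)
      (div_li hsp hdiv (l + l)) (h.sp_p hI)
  rw [← Finset.mul_sum, Finset.sum_sub_distrib, Finset.sum_sub_distrib, e2, ← Finset.mul_sum]
  have e3 : ∑ i, ∫ x in cube, li (l + l) (v i) x * lap (v i) x = -hn' l (u t) := by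
    unfold hn'
    rw [← Finset.sum_neg_distrib]
    refine Finset.sum_congr rfl fun i _ => ?_
    have e4 : li l (lap (v i)) = lap (li l (v i)) := by
      rw [← li_succ, li_add]
      rfl
    rw [li_add, int_li_symm (sp_li (hsp i) l) (hsp i).lap, e4]
    have e5 : ∫ x in cube, li l (v i) x * lap (li l (v i)) x
        = ∫ x in cube, lap (li l (v i)) x * li l (v i) x := by
      congr 1
      funext x
      ring
    rw [e5, int_lap_mul (sp_li (hsp i) l) (sp_li (hsp i) l)]
    congr 1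
    refine Finset.sum_congr rfl fun j _ => ?_
    congr 1
    funext x
    rw [sq]
  rw [e3]
  unfold nl
  ring

end

/-- `(2 π |k|)²` -/
noncomputable def L2 (k : K3) : ℝ := (2 * Real.pi) ^ 2 * ∑ j, (k j : ℝ) ^ 2

theorem L2_nonneg (k : K3) : 0 ≤ L2 k := by unfold L2; positivity

theorem L2_neg (k : K3) : L2 (-k) = L2 k := by unfold L2; simp

/-- The power of the Laplacian (up to the sign). -/
noncomputable def Lam (e : ℕ) (a : K3 → ℂ) (k : K3) : ℂ := ((L2 k ^ e : ℝ) : ℂ) * a k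

theorem Lam_zero (a : K3 → ℂ) : Lam 0 a = a := by
  funext k
  simp [Lam]

theorem Lam_add (d e : ℕ) (a : K3 → ℂ) : Lam (d + e) a = Lam d (Lam e a) := by
  funext k
  unfold Lam
  push_cast
  ring

theorem norm_Lam (e : ℕ) (a : K3 → ℂ) (k : K3) : ‖Lam e a k‖ = L2 k ^ e * ‖a k‖ := by
  rw [Lam, norm_mul, Complex.norm_real, Real.norm_of_nonneg (pow_nonneg (L2_nonneg k) e)]

theorem sum_sq_le_N (k : K3) : ∑ j, (k j : ℝ) ^ 2 ≤ 3 * (N k : ℝ) ^ 2 := by
  have h : ∀ j, (k j : ℝ) ^ 2 ≤ (N k : ℝ) ^ 2 := by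
    intro j
    have h1 := (N_le_iff k (N k)).1 le_rfl j
    have h2 : |(k j : ℝ)| ≤ N k := by exact_mod_cast h1
    rw [← sq_abs]
    exact pow_le_pow_left₀ (abs_nonneg _) h2 2
  calc ∑ j, (k j : ℝ) ^ 2 ≤ ∑ _j : Fin 3, (N k : ℝ) ^ 2 := Finset.sum_le_sum fun j _ => h j
    _ = 3 * (N k : ℝ) ^ 2 := by simp

theorem L2_le (k : K3) : L2 k ≤ 12 * Real.pi ^ 2 * (N k : ℝ) ^ 2 := by
  unfold L2
  have := sum_sq_le_N k
  have hp := Real.pi_pos
  calc (2 * Real.pi) ^ 2 * ∑ j, (k j : ℝ) ^ 2 ≤ (2 * Real.pi) ^ 2 * (3 * (N k : ℝ) ^ 2) := by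
        gcongr
    _ = _ := by ring

theorem le_L2 (k : K3) : (N k : ℝ) ^ 2 ≤ L2 k := by
  unfold L2
  have h1 := N_sq_le k
  have h2 : (1 : ℝ) ≤ (2 * Real.pi) ^ 2 := by nlinarith [Real.pi_gt_three]
  have h3 : 0 ≤ ∑ j, (k j : ℝ) ^ 2 := by positivity
  nlinarith

theorem rap_Lam {a : K3 → ℂ} (h : Rap a) (e : ℕ) : Rap (Lam e a) := by
  intro n
  refine Summable.of_nonneg_of_le (fun k => by positivity) (fun k => ?_)
    ((h (n + 2 * e)).mul_left ((12 * Real.pi ^ 2) ^ e))
  rw [norm_Lam]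
  calc (N k : ℝ) ^ n * (L2 k ^ e * ‖a k‖)
      ≤ (N k : ℝ) ^ n * ((12 * Real.pi ^ 2 * (N k : ℝ) ^ 2) ^ e * ‖a k‖) := by
        gcongr
        · exact L2_nonneg k
        · exact L2_le k
    _ = _ := by ring

theorem D_Lam (m : Fin 3) (e : ℕ) (a : K3 → ℂ) : D m (Lam e a) = Lam e (D m a) := by
  funext k
  unfold D Lam
  ring

theorem fr_lap {f : V → ℝ} (hf : SP f) (k : K3) : fr (lap f) k = -(L2 k : ℂ) * fr f k := by
  have e2 : fr (lap f) k = ∑ j, D j (D j (fr f)) k := by
    unfold lap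
    rw [fr_sum fun j _ => (hf.pd j).pd j]
    refine Finset.sum_congr rfl fun j _ => ?_
    rw [fr_pd (hf.pd j), fr_pd hf]
  rw [e2]
  unfold D L2
  push_cast
  rw [Finset.mul_sum, ← Finset.sum_neg_distrib, Finset.sum_mul]
  refine Finset.sum_congr rfl fun j _ => ?_
  have := Complex.I_sq
  linear_combination ((2 * Real.pi : ℂ) ^ 2 * (k j : ℂ) ^ 2 * fr f k) * this

theorem fr_li {f : V → ℝ} (hf : SP f) (l : ℕ) (k : K3) :
    fr (li l f) k = (-(L2 k : ℂ)) ^ l * fr f k := by
  induction l with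
  | zero => simp [li_zero]
  | succ l ih => rw [li_succ, fr_lap (sp_li hf l), ih]; ring

theorem fr_li_even {f : V → ℝ} (hf : SP f) (l : ℕ) : fr (li (l + l) f) = Lam (l + l) (fr f) := by
  funext k
  rw [fr_li hf, Lam]
  push_cast
  rw [Even.neg_pow ⟨l, rfl⟩]

theorem norm_fr_li {f : V → ℝ} (hf : SP f) (l : ℕ) (k : K3) :
    ‖fr (li l f) k‖ = ‖Lam l (fr f) k‖ := by
  rw [fr_li hf, norm_Lam, norm_mul, norm_pow, norm_neg, Complex.norm_real,
    Real.norm_of_nonneg (L2_nonneg k)]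

theorem hn_eq {v : V → V} (hv : ∀ i, SP (fun y => v y i)) (l : ℕ) :
    hn l v = ∑ i, n2 (Lam l (fr (fun y => v y i))) ^ 2 := by
  unfold hn
  refine Finset.sum_congr rfl fun i _ => ?_
  rw [← n2_fr (sp_li (hv i) l), n2_sq, n2_sq]
  refine tsum_congr fun k => ?_
  rw [norm_fr_li (hv i)]

theorem norm_D (m : Fin 3) (a : K3 → ℂ) (k : K3) :
    ‖D m a k‖ = 2 * Real.pi * |(k m : ℝ)| * ‖a k‖ := by
  rw [D, norm_mul, norm_mul, norm_mul, norm_mul, Complex.norm_I, mul_one, Complex.norm_real,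
    Real.norm_eq_abs, abs_of_pos Real.pi_pos, Complex.norm_ofNat, Complex.norm_intCast]

theorem hn'_eq {v : V → V} (hv : ∀ i, SP (fun y => v y i)) (l : ℕ) :
    hn' l v = ∑ i, ∑ m, n2 (D m (Lam l (fr (fun y => v y i)))) ^ 2 := by
  unfold hn'
  refine Finset.sum_congr rfl fun i _ => Finset.sum_congr rfl fun m _ => ?_
  rw [← n2_fr ((sp_li (hv i) l).pd m), fr_pd (sp_li (hv i) l), n2_sq, n2_sq]
  refine tsum_congr fun k => ?_
  rw [norm_D, norm_D, norm_fr_li (hv i)]

/-- the nonlinear term in terms of the Fourier coefficients -/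
theorem nl_eq {v : Fin 3 → V → ℝ} (hv : ∀ i, SP (v i)) (l : ℕ) :
    ((nl l v : ℝ) : ℂ) = ∑ i, ∑ j, Tri (fr (v j)) (D j (fr (v i))) (Lam (l + l) (fr (v i))) := by
  unfold nl
  push_cast
  refine Finset.sum_congr rfl fun i _ => ?_
  have e1 : ∫ x in cube, li (l + l) (v i) x * conv v i x
      = ∑ j, ∫ x in cube, v j x * (pd j (v i) x * li (l + l) (v i) x) := by
    rw [← integral_finsetSum _ fun j _ =>
      ((hv j).mul (((hv i).pd j).mul (sp_li (hv i) (l + l)))).int]
    congr 1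
    funext x
    unfold conv
    rw [Finset.mul_sum]
    refine Finset.sum_congr rfl fun j _ => ?_
    ring
  rw [e1]
  push_cast
  refine Finset.sum_congr rfl fun j _ => ?_
  rw [← tri_fr (hv j) ((hv i).pd j) (sp_li (hv i) (l + l)), fr_pd (hv i), fr_li_even (hv i)]

end Pool.Agent.W734.NS
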