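import Pool.Agent.H459R3.NS.Final

/-!
Low frequency part of a smooth periodic function.
-/

open MeasureTheory Set Filter Topology H459R3.NS
open scoped ContDiff

namespace Pool.Agent.W734.NS

/-- The Euclidean length of a frequency. -/
noncomputable def len (k : K3) : ℝ := Real.sqrt (∑ j, (k j : ℝ) ^ 2)

theorem len_nonneg (k : K3) : 0 ≤ len k := Real.sqrt_nonneg _

theorem len_sq (k : K3) : len k ^ 2 = ∑ j, (k j : ℝ) ^ 2 := Real.sq_sqrt (by positivity)

theorem len_neg (k : K3) : len (-k) = len k := by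
  unfold len
  simp

theorem abs_le_len (k : K3) (j : Fin 3) : |(k j : ℝ)| ≤ len k := by
  have h : |(k j : ℝ)| ^ 2 ≤ len k ^ 2 := by
    rw [len_sq, sq_abs]
    exact Finset.single_le_sum (f := fun j => (k j : ℝ) ^ 2) (fun _ _ => sq_nonneg _)
      (Finset.mem_univ j)
  exact (pow_le_pow_iff_left₀ (abs_nonneg _) (len_nonneg _) (by norm_num)).1 h

/-- frequencies of length at most `M` -/
def lowset (M : ℝ) : Set K3 := {k | len k ≤ M}

theorem lowset_sub (M : ℝ) : lowset M ⊆ Set.Icc (fun _ => -⌊M⌋) (fun _ => ⌊M⌋) := by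
  intro k hk
  have h : ∀ j, |(k j : ℝ)| ≤ M := fun j => (abs_le_len k j).trans hk
  constructor
  · intro j
    have h1 := (abs_le.1 (h j)).1
    have h2 : ((-(k j) : ℤ) : ℝ) ≤ M := by push_cast; linarith
    have h3 := Int.le_floor.2 h2
    simp only
    linarith
  · intro j
    exact Int.le_floor.2 (abs_le.1 (h j)).2

theorem lowset_finite (M : ℝ) : (lowset M).Finite :=
  (Set.finite_Icc _ _).subset (lowset_sub M)

theorem lowset_ncard (M : ℝ) (hM : 1 ≤ M) : ((lowset_finite M).toFinset.card : ℝ) ≤ 27 * M ^ 3 := by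
  have h1 : (lowset_finite M).toFinset ⊆ Finset.Icc (fun _ : Fin 3 => -⌊M⌋) (fun _ => ⌊M⌋) := by
    intro k hk
    rw [Set.Finite.mem_toFinset] at hk
    rw [Finset.mem_Icc]
    exact lowset_sub M hk
  have h2 := Finset.card_le_card h1
  have h3 : (Finset.Icc (fun _ : Fin 3 => -⌊M⌋) (fun _ => ⌊M⌋)).card = (2 * ⌊M⌋ + 1).toNat ^ 3 := by
    rw [Pi.card_Icc]
    simp only [Int.card_Icc, Finset.prod_const, Finset.card_univ, Fintype.card_fin]
    congr 2
    ring
  have h4 : (0 : ℤ) ≤ ⌊M⌋ := Int.floor_nonneg.2 (by linarith)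
  have h5 : (((2 * ⌊M⌋ + 1).toNat : ℕ) : ℝ) ≤ 3 * M := by
    have e : (((2 * ⌊M⌋ + 1).toNat : ℕ) : ℝ) = 2 * (⌊M⌋ : ℝ) + 1 := by
      have : (((2 * ⌊M⌋ + 1).toNat : ℕ) : ℤ) = 2 * ⌊M⌋ + 1 := Int.toNat_of_nonneg (by linarith)
      exact_mod_cast this
    rw [e]
    have := Int.floor_le M
    linarith
  rw [h3] at h2
  calc ((lowset_finite M).toFinset.card : ℝ) ≤ (((2 * ⌊M⌋ + 1).toNat ^ 3 : ℕ) : ℝ) := by
        exact_mod_cast h2
    _ = (((2 * ⌊M⌋ + 1).toNat : ℕ) : ℝ) ^ 3 := by push_cast; ring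
    _ ≤ (3 * M) ^ 3 := by gcongr
    _ = 27 * M ^ 3 := by ring

theorem fr_conj {f : V → ℝ} (k : K3) : fr f (-k) = (starRingEnd ℂ) (fr f k) := by
  unfold fr fc
  rw [← integral_conj]
  congr 1
  funext x
  rw [map_mul, Complex.conj_ofReal, ← ee_neg, neg_neg]

/-- The part with frequencies of length at most `M`. -/
noncomputable def low (M : ℝ) (f : V → ℝ) (x : V) : ℝ :=
  (H459R3.NS.S ((lowset M).indicator (fr f)) x).re

theorem ind_neg {f : V → ℝ} (M : ℝ) (k : K3) :
    (lowset M).indicator (fr f) (-k) = (starRingEnd ℂ) ((lowset M).indicator (fr f) k) := by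
  have e : (-k ∈ lowset M) ↔ k ∈ lowset M := by
    unfold lowset
    simp only [mem_ofPred_eq, len_neg]
  by_cases hk : k ∈ lowset M
  · rw [indicator_of_mem (e.2 hk), indicator_of_mem hk, fr_conj]
  · rw [indicator_of_notMem (fun h => hk (e.1 h)), indicator_of_notMem hk, map_zero]

theorem low_eq {f : V → ℝ} (M : ℝ) (x : V) :
    ((low M f x : ℝ) : ℂ) = H459R3.NS.S ((lowset M).indicator (fr f)) x := by
  have h : (starRingEnd ℂ) (H459R3.NS.S ((lowset M).indicator (fr f)) x)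
      = H459R3.NS.S ((lowset M).indicator (fr f)) x := by
    unfold H459R3.NS.S
    rw [Complex.conj_tsum, ← (Equiv.neg K3).tsum_eq]
    refine tsum_congr fun k => ?_
    simp only [Equiv.neg_apply]
    rw [map_mul, ← ind_neg, ← ee_neg, neg_neg]
  exact Complex.conj_eq_iff_re.1 h

theorem S_finite (M : ℝ) (a : K3 → ℂ) (x : V) :
    H459R3.NS.S ((lowset M).indicator a) x
      = ∑ k ∈ (lowset_finite M).toFinset, a k * ee k x := by
  unfold H459R3.NS.S
  rw [tsum_eq_sum (s := (lowset_finite M).toFinset)]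
  · refine Finset.sum_congr rfl fun k hk => ?_
    rw [Set.Finite.mem_toFinset] at hk
    rw [indicator_of_mem hk]
  · intro k hk
    rw [Set.Finite.mem_toFinset] at hk
    rw [indicator_of_notMem hk, zero_mul]

theorem sp_low {f : V → ℝ} (M : ℝ) : SP (low M f) := by
  constructor
  · have : low M f = fun x => Complex.reCLM (∑ k ∈ (lowset_finite M).toFinset, fr f k * ee k x) := by
      funext x
      unfold low
      rw [S_finite]
      rfl
    rw [this]
    refine Complex.reCLM.contDiff.comp ?_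
    exact ContDiff.sum fun k _ => contDiff_const.mul (ee_contDiff k)
  · intro i x
    unfold low
    rw [S_finite, S_finite]
    simp only [ee_per _ i x]

theorem fr_low {f : V → ℝ} (hf : SP f) (M : ℝ) :
    fr (low M f) = (lowset M).indicator (fr f) := by
  funext k
  have h := integral_ee_S (-k) ((rap_fr hf).ind (lowset M)).summable
  rw [neg_neg] at h
  rw [← h]
  show fc (fun x => ((low M f x : ℝ) : ℂ)) k = _
  unfold fc
  congr 1
  funext x
  simp only [low_eq]

theorem norm_D_le_len (m : Fin 3) (a : K3 → ℂ) (k : K3) :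
    ‖D m a k‖ ≤ 2 * Real.pi * (len k * ‖a k‖) := by
  have hp := Real.pi_pos
  rw [D, norm_mul, norm_mul, norm_mul, norm_mul, Complex.norm_I, mul_one, Complex.norm_real,
    Real.norm_eq_abs, abs_of_pos hp, Complex.norm_ofNat, Complex.norm_intCast]
  have := abs_le_len k m
  calc 2 * Real.pi * |(k m : ℝ)| * ‖a k‖ ≤ 2 * Real.pi * len k * ‖a k‖ := by gcongr
    _ = _ := by ring

theorem abs_pd_low_le {f : V → ℝ} (hf : SP f) {M : ℝ} (hM : 1 ≤ M) (j : Fin 3) (x : V) :
    |pd j (low M f) x| ≤ 2 * Real.pi * M * Real.sqrt (27 * M ^ 3) * nrm f := by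
  have hp := Real.pi_pos
  have hr := rap_fr hf
  have h1 : ((pd j (low M f) x : ℝ) : ℂ)
      = H459R3.NS.S ((lowset M).indicator (D j (fr f))) x := by
    rw [← S_fr ((sp_low M).pd j), fr_pd (sp_low M), fr_low hf, D_ind]
  rw [S_finite] at h1
  have h2 : |pd j (low M f) x| = ‖((pd j (low M f) x : ℝ) : ℂ)‖ := by
    rw [Complex.norm_real, Real.norm_eq_abs]
  rw [h2, h1]
  refine (norm_sum_le _ _).trans ?_
  have h3 : ∀ k ∈ (lowset_finite M).toFinset, ‖D j (fr f) k * ee k x‖
      ≤ 2 * Real.pi * M * ‖fr f k‖ := by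
    intro k hk
    rw [Set.Finite.mem_toFinset] at hk
    rw [norm_mul, norm_ee, mul_one]
    refine (norm_D_le_len j (fr f) k).trans ?_
    have : len k ≤ M := hk
    calc 2 * Real.pi * (len k * ‖fr f k‖) ≤ 2 * Real.pi * (M * ‖fr f k‖) := by gcongr
      _ = _ := by ring
  refine (Finset.sum_le_sum h3).trans ?_
  rw [← Finset.mul_sum]
  have h4 : ∑ k ∈ (lowset_finite M).toFinset, ‖fr f k‖ ≤ Real.sqrt (27 * M ^ 3) * nrm f := by
    have a1 := Finset.sum_mul_sq_le_sq_mul_sq (lowset_finite M).toFinset (fun _ => (1 : ℝ))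
      (fun k => ‖fr f k‖)
    simp only [one_mul, one_pow, Finset.sum_const, nsmul_eq_mul, mul_one] at a1
    have a2 : ∑ k ∈ (lowset_finite M).toFinset, ‖fr f k‖ ^ 2 ≤ nrm f ^ 2 := by
      rw [nrm_sq, ← n2_fr hf, n2_sq]
      exact (summable_sq hr.summable).sum_le_tsum _ fun _ _ => sq_nonneg _
    have a3 : (∑ k ∈ (lowset_finite M).toFinset, ‖fr f k‖) ^ 2
        ≤ (Real.sqrt (27 * M ^ 3) * nrm f) ^ 2 := by
      rw [mul_pow, Real.sq_sqrt (by positivity)]
      refine a1.trans ?_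
      exact mul_le_mul (lowset_ncard M hM) a2 (Finset.sum_nonneg fun _ _ => sq_nonneg _)
        (by positivity)
    exact (pow_le_pow_iff_left₀ (Finset.sum_nonneg fun _ _ => norm_nonneg _)
      (mul_nonneg (Real.sqrt_nonneg _) (nrm_nonneg _)) (by norm_num)).1 a3
  calc 2 * Real.pi * M * ∑ k ∈ (lowset_finite M).toFinset, ‖fr f k‖
      ≤ 2 * Real.pi * M * (Real.sqrt (27 * M ^ 3) * nrm f) := by gcongr
    _ = _ := by ring

end Pool.Agent.W734.NS
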