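import Pool.Agent.W734.NS.Hl

/-!
Smooth cut-offs of the frequencies as Fourier multipliers, Bernstein's inequality.
-/

open MeasureTheory Set Filter Topology H459R3.NS
open scoped ContDiff ENNReal

namespace Pool.Agent.W734.NS

/-- the cube of frequencies -/
noncomputable def Qf (R : ℕ) : Finset K3 := Finset.Icc (fun _ => -(R : ℤ)) (fun _ => (R : ℤ))

theorem mem_Qf {R : ℕ} {k : K3} : k ∈ Qf R ↔ N k ≤ R := by
  unfold Qf
  rw [Finset.mem_Icc, N_le_iff]
  constructor
  · rintro ⟨h1, h2⟩ j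
    exact abs_le.2 ⟨h1 j, h2 j⟩
  · intro h
    exact ⟨fun j => (abs_le.1 (h j)).1, fun j => (abs_le.1 (h j)).2⟩

theorem card_Qf (R : ℕ) : (Qf R).card = (2 * R + 1) ^ 3 := by
  unfold Qf
  rw [Pi.card_Icc]
  simp only [Int.card_Icc, Finset.prod_const, Finset.card_univ, Fintype.card_fin]
  congr 1
  have : (R : ℤ) + 1 - -(R : ℤ) = ((2 * R + 1 : ℕ) : ℤ) := by push_cast; ring
  rw [this, Int.toNat_natCast]

theorem card_Qf_pos (R : ℕ) : 0 < ((Qf R).card : ℝ) := by
  rw [card_Qf]
  positivity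

/-- the indicator of the cube -/
noncomputable def iq (R : ℕ) (k : K3) : ℂ := if k ∈ Qf R then 1 else 0

theorem summable_fin {a : K3 → ℂ} {R : ℕ} (h : ∀ k, k ∉ Qf R → a k = 0) : Summable a :=
  summable_of_ne_finset_zero (s := Qf R) fun k hk => h k hk

theorem rap_fin {a : K3 → ℂ} {R : ℕ} (h : ∀ k, k ∉ Qf R → a k = 0) : Rap a := by
  intro n
  refine summable_of_ne_finset_zero (s := Qf R) fun k hk => ?_
  rw [h k hk, norm_zero, mul_zero]

theorem iq_zero {R : ℕ} {k : K3} (h : k ∉ Qf R) : iq R k = 0 := if_neg h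

theorem n2_fin_sq {a : K3 → ℂ} {R : ℕ} (h : ∀ k, k ∉ Qf R → a k = 0) :
    n2 a ^ 2 = ∑ k ∈ Qf R, ‖a k‖ ^ 2 := by
  rw [n2_sq]
  refine tsum_eq_sum fun k hk => ?_
  rw [h k hk]
  simp

theorem n2_iq (R : ℕ) : n2 (iq R) = Real.sqrt (Qf R).card := by
  rw [← Real.sqrt_sq (n2_nonneg (iq R)), n2_fin_sq (R := R) fun k hk => iq_zero hk]
  congr 1
  rw [Finset.sum_congr rfl (g := fun _ => (1 : ℝ)) fun k hk => by rw [iq, if_pos hk]; simp]
  simp

/-- correlation -/
noncomputable def corr (b c : K3 → ℂ) (k : K3) : ℂ := ∑' m, b m * c (-k - m)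

/-- multiplication by a character -/
noncomputable def tw (x : V) (b : K3 → ℂ) (m : K3) : ℂ := b m * ee (-m) x

theorem norm_tw (x : V) (b : K3 → ℂ) (m : K3) : ‖tw x b m‖ = ‖b m‖ := by
  rw [tw, norm_mul, norm_ee, mul_one]

theorem summable_tw {b : K3 → ℂ} (hb : Summable b) (x : V) : Summable (tw x b) := by
  refine Summable.of_norm ?_
  simp_rw [norm_tw]
  exact hb.norm

theorem n2_tw (x : V) (b : K3 → ℂ) : n2 (tw x b) = n2 b := by
  unfold n2
  simp_rw [norm_tw]

theorem S_corr {a b c : K3 → ℂ} (ha : Summable a) (hb : Summable b) (hc : Summable c) (x : V) :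
    S (fun k => corr b c k * a k) x = Tri a (tw x b) (tw x c) := by
  have h1 := (summable_tri ha (summable_tw hb x) (summable_tw hc x)).tsum_prod
  rw [Tri, h1]
  unfold S
  refine tsum_congr fun k => ?_
  unfold corr tw
  dsimp only
  rw [← tsum_mul_right, ← tsum_mul_right]
  refine tsum_congr fun m => ?_
  have e : ee k x = ee (-m) x * ee (-(-k - m)) x := by
    rw [← ee_add_left]
    congr 1
    abel
  rw [e]
  ring

theorem norm_S_corr_le {a b c : K3 → ℂ} (ha : Summable a) (hb : Summable b) (hc : Summable c)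
    {M : ℝ} (hM : ∀ x, ‖S a x‖ ≤ M) (x : V) :
    ‖S (fun k => corr b c k * a k) x‖ ≤ M * (n2 b * n2 c) := by
  rw [S_corr ha hb hc]
  have h := norm_tri_le ha (summable_tw hb x) (summable_tw hc x) hM
  rwa [n2_tw, n2_tw] at h

/-- differentiation of a correlation -/
theorem D_corr {b c : K3 → ℂ} (hb : Rap b) (hc : Rap c) (j : Fin 3) (k : K3) :
    D j (corr b c) k = -(corr (D j b) c k) - corr b (D j c) k := by
  have hs : ∀ {b c : K3 → ℂ}, Rap b → Rap c → Summable fun m => b m * c (-k - m) := by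
    intro b c hb hc
    have hM : ∀ k, ‖c k‖ ≤ ∑' m, ‖c m‖ := fun k =>
      hc.summable.norm.le_tsum k fun _ _ => norm_nonneg _
    refine Summable.of_norm ?_
    refine Summable.of_nonneg_of_le (fun m => norm_nonneg _) (fun m => ?_)
      (hb.summable.norm.mul_right (∑' m, ‖c m‖))
    rw [norm_mul]
    exact mul_le_mul_of_nonneg_left (hM _) (norm_nonneg _)
  unfold corr
  rw [← tsum_neg, ← (hs (hb.D j) hc).neg.tsum_sub (hs hb (hc.D j)), D, ← tsum_mul_left]
  refine tsum_congr fun m => ?_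
  simp only [D, Pi.sub_apply, Pi.neg_apply]
  push_cast
  ring

/-- the smooth cut-off -/
noncomputable def chi (R : ℕ) (k : K3) : ℂ := corr (iq (2 * R)) (fun m => iq R m / (Qf R).card) k

theorem icr_zero {R : ℕ} {k : K3} (h : k ∉ Qf R) : iq R k / (Qf R).card = 0 := by
  rw [iq_zero h, zero_div]

theorem chi_eq (R : ℕ) (k : K3) :
    chi R k = (((Qf R).filter fun m => N (k + m) ≤ 2 * R).card : ℂ) / (Qf R).card := by
  unfold chi corr
  rw [← ((Equiv.subLeft (-k)).tsum_eq (f := fun m => iq (2 * R) m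
    * (iq R (-k - m) / (Qf R).card)))]
  simp only [Equiv.subLeft_apply]
  rw [tsum_eq_sum (s := Qf R)]
  · rw [Finset.card_filter]
    push_cast
    rw [Finset.sum_div]
    refine Finset.sum_congr rfl fun m hm => ?_
    have e1 : -k - (-k - m) = m := by abel
    have e2 : N (-k - m) = N (k + m) := by
      rw [← N_neg]
      congr 1
      abel
    rw [e1]
    have e3 : iq R m = 1 := if_pos hm
    rw [e3]
    simp only [iq, mem_Qf, e2]
    split_ifs <;> simp
  · intro m hm
    have e1 : -k - (-k - m) = m := by abel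
    rw [e1, iq_zero hm]
    simp

theorem N_add_le (a b : K3) : N (a + b) ≤ N a + N b := by
  rw [N_le_iff]
  intro j
  have h1 := (N_le_iff a (N a)).1 le_rfl j
  have h2 := (N_le_iff b (N b)).1 le_rfl j
  rw [Pi.add_apply]
  push_cast
  exact (abs_add_le _ _).trans (add_le_add h1 h2)

theorem chi_one {R : ℕ} {k : K3} (h : N k ≤ R) : chi R k = 1 := by
  rw [chi_eq, Finset.filter_true_of_mem]
  · have := card_Qf_pos R
    have h2 : ((Qf R).card : ℂ) ≠ 0 := by
      exact_mod_cast this.ne'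
    exact div_self h2
  · intro m hm
    have := N_add_le k m
    have := mem_Qf.1 hm
    omega

theorem chi_zero {R : ℕ} {k : K3} (h : 3 * R < N k) : chi R k = 0 := by
  rw [chi_eq, Finset.filter_false_of_mem]
  · simp
  · intro m hm
    have h1 : N k ≤ N (k + m) + N m := by
      have := N_add_le (k + m) (-m)
      rw [N_neg] at this
      simpa using this
    have := mem_Qf.1 hm
    omega

theorem norm_chi_le (R : ℕ) (k : K3) : ‖chi R k‖ ≤ 1 := by
  rw [chi_eq, norm_div, Complex.norm_natCast, Complex.norm_natCast,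
    div_le_one (card_Qf_pos R)]
  exact_mod_cast Finset.card_filter_le _ _

theorem norm_one_sub_chi_le (R : ℕ) (k : K3) : ‖1 - chi R k‖ ≤ 1 := by
  rw [chi_eq]
  have h0 := card_Qf_pos R
  have h1 : (((Qf R).filter fun m => N (k + m) ≤ 2 * R).card : ℝ) ≤ (Qf R).card := by
    exact_mod_cast Finset.card_filter_le _ _
  have e : (1 : ℂ) - (((Qf R).filter fun m => N (k + m) ≤ 2 * R).card : ℂ) / (Qf R).card
      = ((1 - (((Qf R).filter fun m => N (k + m) ≤ 2 * R).card : ℝ) / (Qf R).card : ℝ) : ℂ) := by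
    push_cast
    ring
  rw [e, Complex.norm_real, Real.norm_eq_abs, abs_le]
  have h2 : (((Qf R).filter fun m => N (k + m) ≤ 2 * R).card : ℝ) / (Qf R).card ≤ 1 := by
    rw [div_le_one h0]; exact h1
  have h3 : 0 ≤ (((Qf R).filter fun m => N (k + m) ≤ 2 * R).card : ℝ) / (Qf R).card := by
    positivity
  constructor <;> linarith

theorem n2_icr (R : ℕ) : n2 (fun m => iq R m / (Qf R).card) = (Real.sqrt (Qf R).card)⁻¹ := by
  have h0 := card_Qf_pos R
  rw [← Real.sqrt_sq (n2_nonneg _), n2_fin_sq (R := R) fun k hk => icr_zero hk,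
    ← Real.sqrt_inv]
  congr 1
  rw [Finset.sum_congr rfl (g := fun _ => (((Qf R).card : ℝ) ^ 2)⁻¹) fun k hk => by
    rw [iq, if_pos hk, norm_div, norm_one, Complex.norm_natCast]
    simp]
  rw [Finset.sum_const, nsmul_eq_mul]
  field_simp

theorem n2_prod_le (R : ℕ) : n2 (iq (2 * R)) * n2 (fun m => iq R m / (Qf R).card) ≤ 3 := by
  rw [n2_iq, n2_icr, ← div_eq_mul_inv, ← Real.sqrt_div (by positivity)]
  rw [Real.sqrt_le_left (by norm_num), div_le_iff₀ (card_Qf_pos R), card_Qf, card_Qf]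
  push_cast
  have h : ((2 * (2 * R) + 1 : ℝ)) ^ 3 ≤ (2 * (2 * R + 1)) ^ 3 := by
    gcongr
    linarith
  have h2 : (0 : ℝ) ≤ (2 * R + 1) ^ 3 := by positivity
  nlinarith

/-- The cut-off as a multiplier for the sup norm. -/
theorem norm_S_chi_le {a : K3 → ℂ} (ha : Summable a) {M : ℝ} (hM : ∀ x, ‖S a x‖ ≤ M) (R : ℕ)
    (x : V) : ‖S (fun k => chi R k * a k) x‖ ≤ 3 * M := by
  have hM0 : 0 ≤ M := (norm_nonneg _).trans (hM 0)
  have h := norm_S_corr_le ha (b := iq (2 * R)) (c := fun m => iq R m / (Qf R).card)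
    (summable_fin fun k hk => iq_zero hk) (summable_fin fun k hk => icr_zero hk) hM x
  refine h.trans ?_
  have := mul_le_mul_of_nonneg_left (n2_prod_le R) hM0
  linarith

theorem n2_le_of_le {a b : K3 → ℂ} (hb : Summable b) {C : ℝ} (hC : 0 ≤ C)
    (h : ∀ k, ‖a k‖ ≤ C * ‖b k‖) : n2 a ≤ C * n2 b := by
  have hs := summable_sq hb
  have h1 : n2 a ^ 2 ≤ (C * n2 b) ^ 2 := by
    rw [mul_pow, n2_sq, n2_sq, ← tsum_mul_left]
    have hb' : ∀ k, ‖a k‖ ^ 2 ≤ C ^ 2 * ‖b k‖ ^ 2 := by
      intro k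
      rw [← mul_pow]
      exact pow_le_pow_left₀ (norm_nonneg _) (h k) 2
    exact Summable.tsum_le_tsum hb' (Summable.of_nonneg_of_le (fun k => by positivity) hb'
      (hs.mul_left _)) (hs.mul_left _)
  exact (pow_le_pow_iff_left₀ (n2_nonneg _) (mul_nonneg hC (n2_nonneg _)) (by norm_num)).1 h1

theorem n2_D_le {a : K3 → ℂ} {R : ℕ} (h : ∀ k, k ∉ Qf R → a k = 0) (j : Fin 3) :
    n2 (D j a) ≤ 2 * Real.pi * R * n2 a := by
  have hp := Real.pi_pos
  refine n2_le_of_le (summable_fin h) (by positivity) fun k => ?_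
  by_cases hk : k ∈ Qf R
  · rw [norm_D]
    have h1 := (N_le_iff k R).1 (mem_Qf.1 hk) j
    have h2 : |(k j : ℝ)| ≤ R := by exact_mod_cast h1
    gcongr
  · rw [D, h k hk]
    simp

theorem D_zero_of {a : K3 → ℂ} {R : ℕ} (h : ∀ k, k ∉ Qf R → a k = 0) (j : Fin 3) :
    ∀ k, k ∉ Qf R → D j a k = 0 := fun k hk => by rw [D, h k hk, mul_zero]

/-- The derivative of the cut-off as a multiplier. -/
theorem norm_S_D_chi_le {a : K3 → ℂ} (ha : Summable a) {M : ℝ} (hM : ∀ x, ‖S a x‖ ≤ M) (R : ℕ)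
    (j : Fin 3) (x : V) : ‖S (fun k => D j (chi R) k * a k) x‖ ≤ 18 * Real.pi * R * M := by
  have hp := Real.pi_pos
  have hM0 : 0 ≤ M := (norm_nonneg _).trans (hM 0)
  set b := iq (2 * R) with hb
  set c : K3 → ℂ := fun m => iq R m / (Qf R).card with hc
  have hb0 : ∀ k, k ∉ Qf (2 * R) → b k = 0 := fun k hk => iq_zero hk
  have hc0 : ∀ k, k ∉ Qf R → c k = 0 := fun k hk => icr_zero hk
  have hs1 := summable_fin hb0
  have hs2 := summable_fin hc0
  have h1 := norm_S_corr_le ha (summable_fin (D_zero_of hb0 j)) hs2 hM x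
  have h2 := norm_S_corr_le ha hs1 (summable_fin (D_zero_of hc0 j)) hM x
  have hn1 := n2_D_le hb0 j
  have hn2 := n2_D_le hc0 j
  have hn := n2_prod_le R
  rw [← hb, ← hc] at hn
  have e : S (fun k => D j (chi R) k * a k) x
      = -S (fun k => corr (D j b) c k * a k) x - S (fun k => corr b (D j c) k * a k) x := by
    have hsum : ∀ {b c : K3 → ℂ}, Summable b → Summable c →
        Summable fun k => corr b c k * a k * ee k x := by
      intro b c hb hc
      have h3 := (summable_tri ha (summable_tw hb x) (summable_tw hc x)).prod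
      refine h3.congr fun k => ?_
      unfold corr tw
      rw [← tsum_mul_right, ← tsum_mul_right]
      refine tsum_congr fun m => ?_
      have e : ee k x = ee (-m) x * ee (-(-k - m)) x := by
        rw [← ee_add_left]
        congr 1
        abel
      simp only
      rw [e]
      ring
    unfold S
    rw [← tsum_neg, ← (hsum (summable_fin (D_zero_of hb0 j)) hs2).neg.tsum_sub
      (hsum hs1 (summable_fin (D_zero_of hc0 j)))]
    refine tsum_congr fun k => ?_
    have h4 : D j (chi R) k = -(corr (D j b) c k) - corr b (D j c) k :=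
      D_corr (rap_fin hb0) (rap_fin hc0) j k
    dsimp only
    rw [h4]
    ring
  rw [e]
  refine (norm_sub_le _ _).trans ?_
  rw [norm_neg]
  have k1 : M * (n2 (D j b) * n2 c) ≤ M * (2 * Real.pi * (2 * R) * (n2 b * n2 c)) := by
    refine mul_le_mul_of_nonneg_left ?_ hM0
    calc n2 (D j b) * n2 c ≤ (2 * Real.pi * ((2 * R : ℕ) : ℝ) * n2 b) * n2 c :=
          mul_le_mul_of_nonneg_right hn1 (n2_nonneg _)
      _ = _ := by push_cast; ring
  have k2 : M * (n2 b * n2 (D j c)) ≤ M * (2 * Real.pi * R * (n2 b * n2 c)) := by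
    refine mul_le_mul_of_nonneg_left ?_ hM0
    calc n2 b * n2 (D j c) ≤ n2 b * (2 * Real.pi * R * n2 c) :=
          mul_le_mul_of_nonneg_left hn2 (n2_nonneg _)
      _ = _ := by ring
  have k3 : M * (2 * Real.pi * (2 * R) * (n2 b * n2 c)) ≤ M * (2 * Real.pi * (2 * R) * 3) := by
    gcongr
  have k4 : M * (2 * Real.pi * R * (n2 b * n2 c)) ≤ M * (2 * Real.pi * R * 3) := by
    gcongr
  linarith

/-- Bernstein's inequality -/
theorem bernstein {a : K3 → ℂ} (ha : Summable a) {R : ℕ} (h0 : ∀ k, R < N k → a k = 0) {M : ℝ}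
    (hM : ∀ x, ‖S a x‖ ≤ M) (j : Fin 3) (x : V) : ‖S (D j a) x‖ ≤ 18 * Real.pi * R * M := by
  have e : D j a = fun k => D j (chi R) k * a k := by
    funext k
    by_cases hk : N k ≤ R
    · rw [D, D, chi_one hk]
      ring
    · rw [D, h0 k (by omega)]
      ring
  rw [e]
  exact norm_S_D_chi_le ha hM R j x

/-- Bernstein's inequality for powers of the Laplacian -/
theorem bernstein_Lam {a : K3 → ℂ} (ha : Rap a) {R : ℕ} (h0 : ∀ k, R < N k → a k = 0) {M : ℝ}
    (hM : ∀ x, ‖S a x‖ ≤ M) (e : ℕ) (x : V) :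
    ‖S (Lam e a) x‖ ≤ (3 * (18 * Real.pi * R) ^ 2) ^ e * M := by
  induction e generalizing x with
  | zero => rw [Lam_zero]; simpa using hM x
  | succ e ih =>
    have hz : ∀ k, R < N k → Lam e a k = 0 := fun k hk => by rw [Lam, h0 k hk, mul_zero]
    have hr := rap_Lam ha e
    have h1 : Lam (e + 1) a = fun k => -∑ j, D j (D j (Lam e a)) k := by
      funext k
      unfold D Lam L2
      push_cast
      rw [← Finset.sum_neg_distrib]
      have e3 : ∀ j : Fin 3, -(2 * (Real.pi : ℂ) * Complex.I * (k j : ℂ)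
          * (2 * Real.pi * Complex.I * (k j : ℂ)
          * (((2 * (Real.pi : ℂ)) ^ 2 * ∑ j, (k j : ℂ) ^ 2) ^ e * a k)))
          = (2 * (Real.pi : ℂ)) ^ 2 * (k j : ℂ) ^ 2
            * (((2 * (Real.pi : ℂ)) ^ 2 * ∑ j, (k j : ℂ) ^ 2) ^ e * a k) := by
        intro j
        have := Complex.I_sq
        linear_combination (-(2 * (Real.pi : ℂ)) ^ 2 * (k j : ℂ) ^ 2
            * (((2 * (Real.pi : ℂ)) ^ 2 * ∑ j, (k j : ℂ) ^ 2) ^ e * a k)) * this
      simp_rw [e3]
      rw [← Finset.sum_mul, ← Finset.mul_sum]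
      ring
    have h2 : S (Lam (e + 1) a) x = -∑ j, S (D j (D j (Lam e a))) x := by
      rw [h1]
      unfold S
      simp_rw [neg_mul, Finset.sum_mul]
      rw [tsum_neg, Summable.tsum_finsetSum fun j _ =>
        summable_term ((hr.D j).D j).summable x]
    rw [h2, norm_neg]
    have h3 : ∀ j, ‖S (D j (D j (Lam e a))) x‖
        ≤ 18 * Real.pi * R * (18 * Real.pi * R * ((3 * (18 * Real.pi * R) ^ 2) ^ e * M)) := by
      intro j
      refine bernstein (hr.D j).summable (fun k hk => by rw [D, hz k hk, mul_zero]) (fun y => ?_) j x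
      exact bernstein hr.summable hz (fun y => ih y) j y
    calc ‖∑ j, S (D j (D j (Lam e a))) x‖ ≤ ∑ j, ‖S (D j (D j (Lam e a))) x‖ := norm_sum_le _ _
      _ ≤ ∑ _j : Fin 3, 18 * Real.pi * R
          * (18 * Real.pi * R * ((3 * (18 * Real.pi * R) ^ 2) ^ e * M)) :=
          Finset.sum_le_sum fun j _ => h3 j
      _ = _ := by
        rw [Finset.sum_const, Finset.card_univ, Fintype.card_fin, nsmul_eq_mul]
        push_cast
        ring

end Pool.Agent.W734.NS
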