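import Pool.Agent.W734.NS.Low

/-!
The enstrophy production of a field without frequencies in a window.
-/

open MeasureTheory Set Filter Topology H459R3.NS
open scoped ContDiff ENNReal

namespace Pool.Agent.W734.NS

/-- The part with frequencies of length larger than `M`. -/
noncomputable def hi (M : ℝ) (f : V → ℝ) (x : V) : ℝ := f x - low M f x

theorem sp_hi {f : V → ℝ} (hf : SP f) (M : ℝ) : SP (hi M f) := hf.sub (sp_low M)

theorem fr_hi {f : V → ℝ} (hf : SP f) (M : ℝ) :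
    fr (hi M f) = (lowset M)ᶜ.indicator (fr f) := by
  funext k
  have h1 : fr (hi M f) k = fr f k - fr (low M f) k := by
    unfold fr fc hi
    rw [← integral_sub]
    · congr 1
      funext x
      push_cast
      ring
    · exact integrableOn_cube ((ee_continuous _).mul (contDiff_ofReal hf.smooth).continuous)
    · exact integrableOn_cube ((ee_continuous _).mul (contDiff_ofReal (sp_low M).smooth).continuous)
  rw [h1, fr_low hf]
  by_cases hk : k ∈ lowset M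
  · rw [indicator_of_mem hk, indicator_of_notMem (Set.notMem_compl_iff.2 hk), sub_self]
  · rw [indicator_of_notMem hk, indicator_of_mem (Set.mem_compl hk), sub_zero]

theorem gh2_of_ind {v w : Fin 3 → V → ℝ} {R : Set K3} {G H : ℝ} (hv : GH2 v G H)
    (hw : ∀ i, SP (w i)) (h : ∀ i, fr (w i) = R.indicator (fr (v i))) : GH2 w G H := by
  refine ⟨hw, hv.g0, hv.h0, ?_, ?_⟩
  · refine le_trans ?_ hv.g
    rw [← sum_grad hw, ← sum_grad hv.sp]
    refine Finset.sum_le_sum fun i _ => Finset.sum_le_sum fun m _ => ?_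
    rw [h i, D_ind]
    exact pow_le_pow_left₀ (n2_nonneg _) (n2_ind_le ((rap_fr (hv.sp i)).D m) R) 2
  · refine le_trans ?_ hv.h
    rw [← sum_hess hw, ← sum_hess hv.sp]
    refine Finset.sum_le_sum fun i _ => Finset.sum_le_sum fun m _ =>
      Finset.sum_le_sum fun l _ => ?_
    rw [h i, D_ind, D_ind]
    exact pow_le_pow_left₀ (n2_nonneg _) (n2_ind_le (((rap_fr (hv.sp i)).D m).D l) R) 2

/-- High frequencies: `N² ∫ |∇w|² ≤ ∫ |Δw|²`. -/
theorem grad_le_hess {w : Fin 3 → V → ℝ} {N : ℝ} (hN : 0 ≤ N) (hw : ∀ i, SP (w i))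
    (h : ∀ i k, len k ≤ N → fr (w i) k = 0) :
    N ^ 2 * (∑ i, ∑ j, ∫ x in cube, pd j (w i) x ^ 2) ≤ ∑ i, ∫ x in cube, lap (w i) x ^ 2 := by
  rw [← sum_grad hw, ← sum_hess hw, Finset.mul_sum]
  refine Finset.sum_le_sum fun i _ => ?_
  rw [Finset.mul_sum]
  refine Finset.sum_le_sum fun m _ => ?_
  have hr := rap_fr (hw i)
  simp_rw [n2_sq]
  rw [← Summable.tsum_finsetSum fun l _ => summable_sq ((hr.D m).D l).summable, ← tsum_mul_left]
  refine Summable.tsum_le_tsum (fun k => ?_) ((summable_sq (hr.D m).summable).mul_left _)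
    (summable_sum fun l _ => summable_sq ((hr.D m).D l).summable)
  have hD : ∀ l, ‖D l (D m (fr (w i))) k‖ ^ 2
      = (2 * Real.pi) ^ 2 * (k l : ℝ) ^ 2 * ‖D m (fr (w i)) k‖ ^ 2 := by
    intro l
    rw [D, norm_mul, norm_mul, norm_mul, norm_mul, Complex.norm_I, mul_one, Complex.norm_real,
      Real.norm_eq_abs, abs_of_pos Real.pi_pos, Complex.norm_ofNat, Complex.norm_intCast, mul_pow,
      mul_pow, sq_abs]
  simp_rw [hD]
  rw [← Finset.sum_mul, ← Finset.mul_sum, ← len_sq]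
  by_cases hk : len k ≤ N
  · have : D m (fr (w i)) k = 0 := by rw [D, h i k hk, mul_zero]
    rw [this]
    simp
  · push Not at hk
    refine mul_le_mul_of_nonneg_right ?_ (sq_nonneg _)
    have h1 : N ^ 2 ≤ len k ^ 2 := pow_le_pow_left₀ hN hk.le 2
    have h2 : (1 : ℝ) ≤ (2 * Real.pi) ^ 2 := by nlinarith [Real.pi_gt_three]
    nlinarith [sq_nonneg (len k)]

section

variable {s b c : Fin 3 → V → ℝ} {β Gb Hb Gc Hc : ℝ}

theorem abs_C3_g1 (hs : ∀ i, SP (s i)) (hβ : ∀ i m x, |pd m (s i) x| ≤ β) (hb : GH b Gb Hb)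
    (hc : GH c Gc Hc) : |C3 s b c| ≤ 27 * (β * (Gb * Gc)) := by
  have hβ0 : 0 ≤ β := (abs_nonneg _).trans (hβ 0 0 0)
  refine abs_sum3_le fun i j m => ?_
  have e : ∫ x in cube, pd m (s i) x * (pd i (b j) x * pd m (c j) x)
      = ∫ x in cube, (pd m (s i) x * pd i (b j) x) * pd m (c j) x := by
    congr 1
    funext x
    ring
  rw [e]
  refine (abs_int_mul_le (((hs i).pd m).mul ((hb.sp j).pd i)).cont ((hc.sp j).pd m).cont).trans ?_
  have h1 := nrm_mul_le ((hs i).pd m).cont ((hb.sp j).pd i).cont (hβ i m)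
  calc nrm (fun x => pd m (s i) x * pd i (b j) x) * nrm (pd m (c j))
      ≤ (β * Gb) * Gc := mul_le_mul (h1.trans (mul_le_mul_of_nonneg_left (hb.g _ _) hβ0))
        (hc.g _ _) (nrm_nonneg _) (mul_nonneg hβ0 hb.g0)
    _ = _ := by ring

theorem abs_C3_g2 (hs : ∀ i, SP (s i)) (hβ : ∀ i m x, |pd m (s i) x| ≤ β) (hb : GH b Gb Hb)
    (hc : GH c Gc Hc) : |C3 b s c| ≤ 27 * (β * (Gb * Gc)) := by
  have hβ0 : 0 ≤ β := (abs_nonneg _).trans (hβ 0 0 0)
  refine abs_sum3_le fun i j m => ?_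
  have e : ∫ x in cube, pd m (b i) x * (pd i (s j) x * pd m (c j) x)
      = ∫ x in cube, (pd i (s j) x * pd m (b i) x) * pd m (c j) x := by
    congr 1
    funext x
    ring
  rw [e]
  refine (abs_int_mul_le (((hs j).pd i).mul ((hb.sp i).pd m)).cont ((hc.sp j).pd m).cont).trans ?_
  have h1 := nrm_mul_le ((hs j).pd i).cont ((hb.sp i).pd m).cont (hβ j i)
  calc nrm (fun x => pd i (s j) x * pd m (b i) x) * nrm (pd m (c j))
      ≤ (β * Gb) * Gc := mul_le_mul (h1.trans (mul_le_mul_of_nonneg_left (hb.g _ _) hβ0))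
        (hc.g _ _) (nrm_nonneg _) (mul_nonneg hβ0 hb.g0)
    _ = _ := by ring

theorem abs_C3_g3 (hs : ∀ i, SP (s i)) (hβ : ∀ i m x, |pd m (s i) x| ≤ β) (hb : GH b Gb Hb)
    (hc : GH c Gc Hc) : |C3 b c s| ≤ 27 * (β * (Gb * Gc)) := by
  have hβ0 : 0 ≤ β := (abs_nonneg _).trans (hβ 0 0 0)
  refine abs_sum3_le fun i j m => ?_
  have e : ∫ x in cube, pd m (b i) x * (pd i (c j) x * pd m (s j) x)
      = ∫ x in cube, (pd m (s j) x * pd m (b i) x) * pd i (c j) x := by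
    congr 1
    funext x
    ring
  rw [e]
  refine (abs_int_mul_le (((hs j).pd m).mul ((hb.sp i).pd m)).cont ((hc.sp j).pd i).cont).trans ?_
  have h1 := nrm_mul_le ((hs j).pd m).cont ((hb.sp i).pd m).cont (hβ j m)
  calc nrm (fun x => pd m (s j) x * pd m (b i) x) * nrm (pd i (c j))
      ≤ (β * Gb) * Gc := mul_le_mul (h1.trans (mul_le_mul_of_nonneg_left (hb.g _ _) hβ0))
        (hc.g _ _) (nrm_nonneg _) (mul_nonneg hβ0 hb.g0)
    _ = _ := by ring

end

theorem sobolev6 : ∃ C : ℝ, 0 ≤ C ∧ ∀ g : V → ℝ, SP g → ∫ x in cube, g x = 0 →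
    eLpNorm g 6 (volume.restrict cube) ≤ ENNReal.ofReal (C * grd g) := by
  obtain ⟨C, hC0, hC⟩ := sobolev
  refine ⟨C * Real.sqrt 2, by positivity, fun g hg hg0 => ?_⟩
  refine (hC g hg).trans (ENNReal.ofReal_le_ofReal ?_)
  rw [mul_assoc]
  refine mul_le_mul_of_nonneg_left ?_ hC0
  rw [← grd_sq, ← nrm_sq]
  have hpo := poincare hg hg0
  calc Real.sqrt (grd g ^ 2 + nrm g ^ 2) ≤ Real.sqrt (2 * grd g ^ 2) := by
        refine Real.sqrt_le_sqrt ?_
        have := pow_le_pow_left₀ (nrm_nonneg g) hpo 2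
        linarith
    _ = Real.sqrt 2 * grd g := by
        rw [Real.sqrt_mul (by norm_num), Real.sqrt_sq (grd_nonneg g)]

theorem th_six : th 6 = 1 / 2 := by
  unfold th
  rw [ENNReal.toReal_inv]
  norm_num

/-- The enstrophy production of a field of high frequency. -/
theorem cub_high : ∃ C : ℝ, 0 ≤ C ∧ ∀ (w : Fin 3 → V → ℝ) (N G H : ℝ), 0 < N → GH2 w G H →
    (∀ i k, len k ≤ N → fr (w i) k = 0) → |cub w| ≤ C * (G * (N ^ (-(1 / 2) : ℝ) * H ^ 2)) := by
  obtain ⟨C1, hC10, hC1⟩ := mul_of_Lp (p := 6) (by norm_num)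
  obtain ⟨C2, hC20, hC2⟩ := sobolev6
  refine ⟨54 * (C1 * C2), by positivity, fun w N G H hN hw hk => ?_⟩
  set G' := Real.sqrt (∑ i, ∑ j, ∫ x in cube, pd j (w i) x ^ 2) with hG'
  set H' := Real.sqrt (∑ i, ∫ x in cube, lap (w i) x ^ 2) with hH'
  have sG : 0 ≤ ∑ i, ∑ j, ∫ x in cube, pd j (w i) x ^ 2 :=
    Finset.sum_nonneg fun _ _ => Finset.sum_nonneg fun _ _ => integral_nonneg fun _ => sq_nonneg _
  have sH : 0 ≤ ∑ i, ∫ x in cube, lap (w i) x ^ 2 :=
    Finset.sum_nonneg fun _ _ => integral_nonneg fun _ => sq_nonneg _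
  have hG2 : G' ^ 2 = ∑ i, ∑ j, ∫ x in cube, pd j (w i) x ^ 2 := Real.sq_sqrt sG
  have hH2 : H' ^ 2 = ∑ i, ∫ x in cube, lap (w i) x ^ 2 := Real.sq_sqrt sH
  have hG0 : 0 ≤ G' := Real.sqrt_nonneg _
  have hH0 : 0 ≤ H' := Real.sqrt_nonneg _
  have hG00 := hw.g0
  have hH00 := hw.h0
  have hGG : G' ≤ G := by
    have : G' ^ 2 ≤ G ^ 2 := by rw [hG2]; exact hw.g
    exact (pow_le_pow_iff_left₀ hG0 hw.g0 (by norm_num)).1 this
  have hHH : H' ≤ H := by
    have : H' ^ 2 ≤ H ^ 2 := by rw [hH2]; exact hw.h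
    exact (pow_le_pow_iff_left₀ hH0 hw.h0 (by norm_num)).1 this
  have hNG : N * G' ≤ H' := by
    have : (N * G') ^ 2 ≤ H' ^ 2 := by
      rw [mul_pow, hG2, hH2]
      exact grad_le_hess hN.le hw.sp hk
    exact (pow_le_pow_iff_left₀ (by positivity) hH0 (by norm_num)).1 this
  have hw' : GH2 w (1 * G') (1 * H') := ⟨hw.sp, by simpa using hG0, by simpa using hH0,
    by rw [one_mul]; exact hG2.symm.le, by rw [one_mul]; exact hH2.symm.le⟩
  have hint : ∀ i, ∫ x in cube, w i x = 0 := by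
    intro i
    have h0 := hk i 0 (by
      have : len 0 = 0 := by unfold len; simp
      rw [this]; exact hN.le)
    unfold fr fc at h0
    simp_rw [neg_zero, ee_zero, one_mul] at h0
    rw [integral_complex_ofReal] at h0
    exact_mod_cast h0
  have hgrd : ∀ i, grd (w i) ≤ G' := by
    intro i
    refine Real.sqrt_le_sqrt ?_
    exact Finset.single_le_sum (f := fun i => ∑ j, ∫ x in cube, pd j (w i) x ^ 2)
      (fun _ _ => Finset.sum_nonneg fun _ _ => integral_nonneg fun _ => sq_nonneg _)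
      (Finset.mem_univ i)
  have hM : ∀ i, Mul (th 6) (C1 * (C2 * G')) (w i) := by
    intro i
    refine hC1 (w i) (C2 * G') (hw.sp i).cont (by positivity) ?_
    refine (hC2 (w i) (hw.sp i) (hint i)).trans (ENNReal.ofReal_le_ofReal ?_)
    exact mul_le_mul_of_nonneg_left (hgrd i) hC20
  have h1 := abs_C3_m1 hw.sp hM (by positivity) (th_nonneg 6) (th_lt_one (by norm_num)) hG0 hH0
    zero_le_one zero_le_one hw' hw'
  rw [cub_eq]
  refine h1.trans ?_
  rw [th_six]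
  have e1 : (1 - 1 / 2 : ℝ) = 1 / 2 := by norm_num
  rw [e1]
  have h2 : G' ^ (1 / 2 : ℝ) ≤ N ^ (-(1 / 2) : ℝ) * H' ^ (1 / 2 : ℝ) := by
    rw [Real.rpow_neg hN.le, ← div_eq_inv_mul, le_div_iff₀ (Real.rpow_pos_of_pos hN _),
      ← Real.mul_rpow hG0 hN.le, mul_comm]
    exact Real.rpow_le_rpow (by positivity) hNG (by norm_num)
  have h3 : G' ^ (1 / 2 : ℝ) * H' ^ (1 / 2 : ℝ) * H' ≤ N ^ (-(1 / 2) : ℝ) * H ^ 2 := by
    calc G' ^ (1 / 2 : ℝ) * H' ^ (1 / 2 : ℝ) * H'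
        ≤ (N ^ (-(1 / 2) : ℝ) * H' ^ (1 / 2 : ℝ)) * H' ^ (1 / 2 : ℝ) * H' := by gcongr
      _ = N ^ (-(1 / 2) : ℝ) * (H' ^ (1 / 2 : ℝ) * H' ^ (1 / 2 : ℝ) * H') := by ring
      _ = N ^ (-(1 / 2) : ℝ) * (H' * H') := by
          rw [← Real.rpow_add_of_nonneg hH0 (by norm_num) (by norm_num)]
          norm_num
      _ ≤ N ^ (-(1 / 2) : ℝ) * H ^ 2 := by
          rw [sq]
          gcongr
  calc 54 * (C1 * (C2 * G') * (1 * 1 * (G' ^ (1 / 2 : ℝ) * H' ^ (1 / 2 : ℝ) * H')))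
      ≤ 54 * (C1 * (C2 * G) * (1 * 1 * (N ^ (-(1 / 2) : ℝ) * H ^ 2))) := by gcongr
    _ = _ := by ring

/-- The enstrophy production of a field without frequencies in the window `(M, N]`. -/
theorem cub_window : ∃ C : ℝ, 0 ≤ C ∧ ∀ (v : Fin 3 → V → ℝ) (M N G H E : ℝ), 1 ≤ M → 0 < N →
    GH2 v G H → (∀ i, nrm (v i) ≤ E) → (∀ i k, M < len k → len k ≤ N → fr (v i) k = 0) →
    |cub v| ≤ 81 * (2 * Real.pi * M * Real.sqrt (27 * M ^ 3) * E * G ^ 2)
      + C * (G * (N ^ (-(1 / 2) : ℝ) * H ^ 2)) := by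
  obtain ⟨C, hC0, hC⟩ := cub_high
  refine ⟨C, hC0, fun v M N G H E hM hN hv hE hk => ?_⟩
  set l : Fin 3 → V → ℝ := fun i => low M (v i) with hl
  set w : Fin 3 → V → ℝ := fun i => hi M (v i) with hw
  have hl2 : GH2 l G H := gh2_of_ind hv (fun i => sp_low M) (fun i => fr_low (hv.sp i) M)
  have hw2 : GH2 w G H := gh2_of_ind hv (fun i => sp_hi (hv.sp i) M) (fun i => fr_hi (hv.sp i) M)
  have hz : ∀ i : Fin 3, SP (fun _ : V => (0 : ℝ)) := fun i => ⟨contDiff_const, fun _ _ => rfl⟩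
  have hS : ∀ i m x, |pd m (l i) x| ≤ 2 * Real.pi * M * Real.sqrt (27 * M ^ 3) * E := by
    intro i m x
    refine (abs_pd_low_le (hv.sp i) hM m x).trans ?_
    have hp := Real.pi_pos
    exact mul_le_mul_of_nonneg_left (hE i) (by positivity)
  have hdec : ∀ i, v i = fun x => l i x + w i x + (fun _ : V => (0 : ℝ)) x := by
    intro i
    funext x
    simp only [hl, hw, hi]
    ring
  have hzero1 : ∀ b c : Fin 3 → V → ℝ, C3 (fun _ _ => (0 : ℝ)) b c = 0 := by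
    intro b c
    unfold C3 H459R3.NS.pd
    simp
  have hzero2 : ∀ b c : Fin 3 → V → ℝ, C3 b (fun _ _ => (0 : ℝ)) c = 0 := by
    intro b c
    unfold C3 H459R3.NS.pd
    simp
  have hzero3 : ∀ b c : Fin 3 → V → ℝ, C3 b c (fun _ _ => (0 : ℝ)) = 0 := by
    intro b c
    unfold C3 H459R3.NS.pd
    simp
  have e1 := C3_add1 (b := v) (c := v) hl2.sp hw2.sp hz hv.sp hv.sp hdec
  have e2 := C3_add2 (b := w) (c := v) hl2.sp hw2.sp hz hw2.sp hv.sp hdec
  have e3 := C3_add3 (b := w) (c := w) hl2.sp hw2.sp hz hw2.sp hw2.sp hdec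
  rw [hzero1] at e1
  rw [hzero2] at e2
  rw [hzero3] at e3
  have b1 := abs_le.1 (abs_C3_g1 hl2.sp hS hv.gh hv.gh)
  have b2 := abs_le.1 (abs_C3_g2 hl2.sp hS hw2.gh hv.gh)
  have b3 := abs_le.1 (abs_C3_g3 hl2.sp hS hw2.gh hw2.gh)
  have b4 := hC w N G H hN hw2 (fun i k hkN => by
    rw [hw]
    simp only
    rw [fr_hi (hv.sp i)]
    by_cases hkM : k ∈ lowset M
    · rw [indicator_of_notMem (Set.notMem_compl_iff.2 hkM)]
    · rw [indicator_of_mem (Set.mem_compl hkM)]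
      exact hk i k (not_le.1 hkM) hkN)
  rw [cub_eq] at b4 ⊢
  have b4' := abs_le.1 b4
  rw [abs_le]
  constructor <;> linarith [b1.1, b1.2, b2.1, b2.2, b3.1, b3.2, b4'.1, b4'.2]

end Pool.Agent.W734.NS
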