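import Pool.Agent.W734.NS.Gn2

/-!
The estimate of the nonlinear term at a fixed time.
-/

open MeasureTheory Set Filter Topology H459R3.NS
open scoped ContDiff ENNReal

namespace Pool.Agent.W734.NS

theorem nd_two_le {v : V → V} (hv : ∀ i, SP (fun y => v y i)) :
    ∑ i, nd 2 (fr fun y => v y i) ≤ enstrophy v := by
  have h := sum_grad (v := fun i y => v y i) hv
  have e : enstrophy v = ∑ i, ∑ j, ∫ x in cube, pd j (fun y => v y i) x ^ 2 := rfl
  rw [e, ← h]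
  refine Finset.sum_le_sum fun i _ => ?_
  have hr := rap_fr (hv i)
  simp_rw [n2_sq]
  rw [← Summable.tsum_finsetSum fun m _ => summable_sq (hr.D m).summable]
  refine Summable.tsum_le_tsum (fun k => ?_) (summable_nd hr 2)
    (summable_sum fun m _ => summable_sq (hr.D m).summable)
  have e2 : ∑ m, ‖D m (fr fun y => v y i) k‖ ^ 2 = L2 k * ‖fr (fun y => v y i) k‖ ^ 2 := by
    unfold L2
    rw [Finset.mul_sum, Finset.sum_mul]
    refine Finset.sum_congr rfl fun m _ => ?_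
    rw [norm_D, mul_pow, mul_pow, sq_abs]
  rw [e2]
  exact mul_le_mul_of_nonneg_right (le_L2 k) (sq_nonneg _)

theorem nd_hn_le {v : V → V} (hv : ∀ i, SP (fun y => v y i)) (r : ℕ) :
    ∑ i, nd (4 * r + 8) (fr fun y => v y i) ≤ hn (r + 2) v := by
  rw [hn_eq hv]
  refine Finset.sum_le_sum fun i _ => ?_
  have hr := rap_fr (hv i)
  rw [n2_sq]
  refine Summable.tsum_le_tsum (fun k => ?_) (summable_nd hr _)
    (summable_sq (rap_Lam hr _).summable)
  rw [norm_Lam, mul_pow]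
  refine mul_le_mul_of_nonneg_right ?_ (sq_nonneg _)
  calc (N k : ℝ) ^ (4 * r + 8) = (((N k : ℝ) ^ 2) ^ (r + 2)) ^ 2 := by
        rw [← pow_mul, ← pow_mul]
        congr 1
        ring
    _ ≤ (L2 k ^ (r + 2)) ^ 2 := by
        gcongr
        exact le_L2 k

theorem nd_hn'_le {v : V → V} (hv : ∀ i, SP (fun y => v y i)) (r : ℕ) :
    ∑ i, nd (4 * r + 10) (fr fun y => v y i) ≤ hn' (r + 2) v := by
  rw [hn'_eq hv]
  refine Finset.sum_le_sum fun i _ => ?_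
  have hr := rap_fr (hv i)
  simp_rw [n2_sq]
  rw [← Summable.tsum_finsetSum fun m _ => summable_sq ((rap_Lam hr _).D m).summable]
  refine Summable.tsum_le_tsum (fun k => ?_) (summable_nd hr _)
    (summable_sum fun m _ => summable_sq ((rap_Lam hr _).D m).summable)
  have e2 : ∑ m, ‖D m (Lam (r + 2) (fr fun y => v y i)) k‖ ^ 2
      = L2 k * ((L2 k ^ (r + 2)) ^ 2 * ‖fr (fun y => v y i) k‖ ^ 2) := by
    have h1 : ∀ m, ‖D m (Lam (r + 2) (fr fun y => v y i)) k‖ ^ 2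
        = (2 * Real.pi) ^ 2 * (k m : ℝ) ^ 2
          * ((L2 k ^ (r + 2)) ^ 2 * ‖fr (fun y => v y i) k‖ ^ 2) := by
      intro m
      rw [norm_D, norm_Lam, mul_pow, mul_pow, sq_abs, mul_pow (L2 k ^ (r + 2))]
    simp_rw [h1]
    rw [← Finset.sum_mul]
    congr 1
    unfold L2
    rw [Finset.mul_sum]
  rw [e2, ← mul_assoc]
  refine mul_le_mul_of_nonneg_right ?_ (sq_nonneg _)
  calc (N k : ℝ) ^ (4 * r + 10) = (N k : ℝ) ^ 2 * (((N k : ℝ) ^ 2) ^ (r + 2)) ^ 2 := by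
        rw [← pow_mul, ← pow_mul, ← pow_add]
        congr 1
        ring
    _ ≤ L2 k * (L2 k ^ (r + 2)) ^ 2 := by
        have := L2_nonneg k
        gcongr
        · exact le_L2 k
        · exact le_L2 k

/-- the constant of the trilinear estimate -/
noncomputable def Cb (r : ℕ) : ℝ :=
  (54 * ((2 * r + 3 : ℕ) : ℝ) + 90) * (972 * Real.pi ^ 2) ^ (2 * r + 4) * (2 * 32 ^ (4 * r + 10))

theorem Cb_pos (r : ℕ) : 0 < Cb r := by
  have := Real.pi_pos
  unfold Cb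
  positivity

theorem nl_le {r : ℕ} {v : V → V} (hv : ∀ i, SP (fun y => v y i))
    (hdiv : ∀ x, ∑ i, pd i (fun y => v y i) x = 0) {K L0 ε γ : ℝ} (hK : 0 ≤ K) (hL0 : 0 ≤ L0)
    (hε : 0 ≤ ε) (hγ : 0 ≤ γ)
    (hG : ∀ n j m x, ‖S (ch (2 ^ (n + 2)) (D m (fr fun y => v y j))) x‖
      ≤ if (2 : ℝ) ^ n ≤ K then L0 else ε * 4 ^ n + γ) :
    2 * |nl (r + 2) (fun i y => v y i)| ≤ Cb r * (L0 * K ^ (4 * r + 6) * enstrophy v
      + ε * hn' (r + 2) v + γ * hn (r + 2) v) := by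
  have hp := Real.pi_pos
  set U : Fin 3 → K3 → ℂ := fun i => fr fun y => v y i with hU
  have hr : ∀ i, Rap (U i) := fun i => rap_fr (hv i)
  have hd : ∀ k : K3, ∑ j, (k j : ℂ) * U j k = 0 := fr_div (v := fun i y => v y i) hv hdiv
  have hel : r + 2 + (r + 2) = (2 * r + 3) + 1 := by ring
  have h1 : (2 * |nl (r + 2) (fun i y => v y i)| : ℝ) = ‖Bf ((2 * r + 3) + 1) U U U‖ := by
    have h2 := nl_eq (v := fun i y => v y i) hv (r + 2)
    have h3 : Bf ((2 * r + 3) + 1) U U U = 2 * ((nl (r + 2) (fun i y => v y i) : ℝ) : ℂ) := by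
      rw [h2, ← hel]
      unfold Bf
      rw [Finset.mul_sum]
      refine Finset.sum_congr rfl fun i _ => ?_
      rw [Finset.mul_sum]
      refine Finset.sum_congr rfl fun j _ => ?_
      ring
    rw [h3, norm_mul, Complex.norm_ofNat, Complex.norm_real, Real.norm_eq_abs]
  rw [h1]
  refine Bf_le hr hd (G := fun n => if (2 : ℝ) ^ n ≤ K then L0 else ε * 4 ^ n + γ) hG
    fun m => ?_
  set w : ℕ → Fin 3 → ℝ := fun n i => n2 ((Wn n).indicator (U i)) ^ 2 with hw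
  have hw0 : ∀ n i, 0 ≤ w n i := fun n i => sq_nonneg _
  -- the pointwise bound of the weights
  have h2 : ∀ n : ℕ, (if (2 : ℝ) ^ n ≤ K then L0 else ε * 4 ^ n + γ) * ((4 : ℝ) ^ n) ^ (2 * r + 4)
      ≤ L0 * K ^ (4 * r + 6) * ((2 : ℝ) ^ (1 + 1)) ^ n + ε * ((2 : ℝ) ^ (4 * r + 9 + 1)) ^ n
        + γ * ((2 : ℝ) ^ (4 * r + 7 + 1)) ^ n := by
    intro n
    have e4 : (4 : ℝ) ^ n = ((2 : ℝ) ^ n) ^ 2 := by
      rw [← pow_mul, mul_comm n 2, pow_mul]
      norm_num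
    have ea : ∀ d : ℕ, ((2 : ℝ) ^ d) ^ n = ((2 : ℝ) ^ n) ^ d := fun d => by
      rw [← pow_mul, ← pow_mul, mul_comm]
    rw [ea, ea, ea, e4]
    set y : ℝ := (2 : ℝ) ^ n with hy
    have hy0 : 0 < y := by positivity
    split_ifs with h
    · have b1 : y ^ (4 * r + 6) ≤ K ^ (4 * r + 6) := pow_le_pow_left₀ hy0.le h _
      have b2 : 0 ≤ ε * y ^ (4 * r + 9 + 1) := by positivity
      have b3 : 0 ≤ γ * y ^ (4 * r + 7 + 1) := by positivity
      have b4 : (y ^ 2) ^ (2 * r + 4) = y ^ (4 * r + 6) * y ^ (1 + 1) := by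
        rw [← pow_mul, ← pow_add]
        congr 1
        ring
      rw [b4]
      have b5 : L0 * (y ^ (4 * r + 6) * y ^ (1 + 1)) ≤ L0 * K ^ (4 * r + 6) * y ^ (1 + 1) := by
        rw [← mul_assoc]
        gcongr
      linarith
    · have b1 : 0 ≤ L0 * K ^ (4 * r + 6) * y ^ (1 + 1) := by positivity
      have b4 : (y ^ 2) ^ (2 * r + 4) = y ^ (4 * r + 7 + 1) := by
        rw [← pow_mul]
        congr 1
        ring
      have b5 : y ^ 2 * y ^ (4 * r + 7 + 1) = y ^ (4 * r + 9 + 1) := by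
        rw [← pow_add]
        congr 1
        ring
      rw [b4]
      have b6 : (ε * y ^ 2 + γ) * y ^ (4 * r + 7 + 1)
          = ε * (y ^ 2 * y ^ (4 * r + 7 + 1)) + γ * y ^ (4 * r + 7 + 1) := by ring
      rw [b6, b5]
      linarith
  -- summation
  set c1 : ℝ := (54 * ((2 * r + 3 : ℕ) : ℝ) + 90) * (972 * Real.pi ^ 2) ^ (2 * r + 4) with hc1
  have hc10 : 0 ≤ c1 := by positivity
  have h3 : ∑ n ∈ Finset.range m, (54 * ((2 * r + 3 : ℕ) : ℝ) + 90)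
        * (if (2 : ℝ) ^ n ≤ K then L0 else ε * 4 ^ n + γ)
        * (972 * Real.pi ^ 2 * 4 ^ n) ^ (2 * r + 3 + 1) * ∑ i, w n i
      ≤ c1 * ∑ i, (L0 * K ^ (4 * r + 6) * ∑ n ∈ Finset.range m, ((2 : ℝ) ^ (1 + 1)) ^ n * w n i
        + ε * ∑ n ∈ Finset.range m, ((2 : ℝ) ^ (4 * r + 9 + 1)) ^ n * w n i
        + γ * ∑ n ∈ Finset.range m, ((2 : ℝ) ^ (4 * r + 7 + 1)) ^ n * w n i) := by
    have e1 : ∀ i, (L0 * K ^ (4 * r + 6) * ∑ n ∈ Finset.range m, ((2 : ℝ) ^ (1 + 1)) ^ n * w n i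
        + ε * ∑ n ∈ Finset.range m, ((2 : ℝ) ^ (4 * r + 9 + 1)) ^ n * w n i
        + γ * ∑ n ∈ Finset.range m, ((2 : ℝ) ^ (4 * r + 7 + 1)) ^ n * w n i)
        = ∑ n ∈ Finset.range m, (L0 * K ^ (4 * r + 6) * ((2 : ℝ) ^ (1 + 1)) ^ n
          + ε * ((2 : ℝ) ^ (4 * r + 9 + 1)) ^ n + γ * ((2 : ℝ) ^ (4 * r + 7 + 1)) ^ n) * w n i := by
      intro i
      rw [Finset.mul_sum, Finset.mul_sum, Finset.mul_sum, ← Finset.sum_add_distrib,
        ← Finset.sum_add_distrib]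
      refine Finset.sum_congr rfl fun n _ => ?_
      ring
    simp_rw [e1]
    rw [Finset.sum_comm, Finset.mul_sum]
    refine Finset.sum_le_sum fun n _ => ?_
    rw [← Finset.mul_sum, mul_pow]
    have hs : 0 ≤ ∑ i, w n i := Finset.sum_nonneg fun i _ => hw0 n i
    have h4 := mul_le_mul_of_nonneg_left (h2 n) hc10
    calc _ = c1 * ((if (2 : ℝ) ^ n ≤ K then L0 else ε * 4 ^ n + γ)
          * ((4 : ℝ) ^ n) ^ (2 * r + 4)) * ∑ i, w n i := by
          rw [hc1]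
          ring
      _ ≤ _ := by
          refine (mul_le_mul_of_nonneg_right h4 hs).trans (le_of_eq ?_)
          ring
  refine h3.trans ?_
  have hC : Cb r = c1 * (2 * 32 ^ (4 * r + 10)) := rfl
  rw [hC, mul_assoc c1]
  refine mul_le_mul_of_nonneg_left ?_ hc10
  have h4 : ∀ i, (L0 * K ^ (4 * r + 6) * ∑ n ∈ Finset.range m, ((2 : ℝ) ^ (1 + 1)) ^ n * w n i
        + ε * ∑ n ∈ Finset.range m, ((2 : ℝ) ^ (4 * r + 9 + 1)) ^ n * w n i
        + γ * ∑ n ∈ Finset.range m, ((2 : ℝ) ^ (4 * r + 7 + 1)) ^ n * w n i)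
      ≤ (2 * 32 ^ (4 * r + 10)) * (L0 * K ^ (4 * r + 6) * nd 2 (U i) + ε * nd (4 * r + 10) (U i)
        + γ * nd (4 * r + 8) (U i)) := by
    intro i
    have a1 := sum_W_le (hr i) 1 m
    have a2 := sum_W_le (hr i) (4 * r + 9) m
    have a3 := sum_W_le (hr i) (4 * r + 7) m
    have p1 : (2 : ℝ) * 32 ^ (1 + 1) ≤ 2 * 32 ^ (4 * r + 10) := by
      have : (32 : ℝ) ^ (1 + 1) ≤ 32 ^ (4 * r + 10) := pow_le_pow_right₀ (by norm_num) (by omega)
      linarith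
    have p3 : (2 : ℝ) * 32 ^ (4 * r + 7 + 1) ≤ 2 * 32 ^ (4 * r + 10) := by
      have : (32 : ℝ) ^ (4 * r + 7 + 1) ≤ 32 ^ (4 * r + 10) :=
        pow_le_pow_right₀ (by norm_num) (by omega)
      linarith
    have q1 := nd_nonneg (1 + 1) (U i)
    have q3 := nd_nonneg (4 * r + 7 + 1) (U i)
    have b1 : L0 * K ^ (4 * r + 6) * ∑ n ∈ Finset.range m, ((2 : ℝ) ^ (1 + 1)) ^ n * w n i
        ≤ L0 * K ^ (4 * r + 6) * ((2 * 32 ^ (4 * r + 10)) * nd 2 (U i)) := by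
      refine mul_le_mul_of_nonneg_left (a1.trans ?_) (by positivity)
      exact mul_le_mul_of_nonneg_right p1 q1
    have b2 : ε * ∑ n ∈ Finset.range m, ((2 : ℝ) ^ (4 * r + 9 + 1)) ^ n * w n i
        ≤ ε * ((2 * 32 ^ (4 * r + 10)) * nd (4 * r + 10) (U i)) :=
      mul_le_mul_of_nonneg_left a2 hε
    have b3 : γ * ∑ n ∈ Finset.range m, ((2 : ℝ) ^ (4 * r + 7 + 1)) ^ n * w n i
        ≤ γ * ((2 * 32 ^ (4 * r + 10)) * nd (4 * r + 8) (U i)) := by
      refine mul_le_mul_of_nonneg_left (a3.trans ?_) hγ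
      exact mul_le_mul_of_nonneg_right p3 q3
    calc _ ≤ L0 * K ^ (4 * r + 6) * ((2 * 32 ^ (4 * r + 10)) * nd 2 (U i))
          + ε * ((2 * 32 ^ (4 * r + 10)) * nd (4 * r + 10) (U i))
          + γ * ((2 * 32 ^ (4 * r + 10)) * nd (4 * r + 8) (U i)) :=
          add_le_add (add_le_add b1 b2) b3
      _ = _ := by ring
  refine (Finset.sum_le_sum fun i _ => h4 i).trans ?_
  rw [← Finset.mul_sum, Finset.sum_add_distrib, Finset.sum_add_distrib, ← Finset.mul_sum,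
    ← Finset.mul_sum, ← Finset.mul_sum]
  have g1 := nd_two_le hv
  have g2 := nd_hn'_le hv r
  have g3 := nd_hn_le hv r
  refine mul_le_mul_of_nonneg_left ?_ (by positivity)
  have k1 := mul_le_mul_of_nonneg_left g1 (by positivity : 0 ≤ L0 * K ^ (4 * r + 6))
  have k2 := mul_le_mul_of_nonneg_left g2 hε
  have k3 := mul_le_mul_of_nonneg_left g3 hγ
  exact add_le_add (add_le_add k1 k2) k3

end Pool.Agent.W734.NS
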