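import Pool.Agent.W734.NS.Stat

/-!
The bounds of the low frequency gradients from a decomposition of the velocity.
-/

open MeasureTheory Set Filter Topology H459R3.NS
open scoped ContDiff ENNReal

namespace Pool.Agent.W734.NS

theorem S_add' {a b : K3 → ℂ} (ha : Summable a) (hb : Summable b) (x : V) :
    S (fun k => a k + b k) x = S a x + S b x := by
  unfold S
  rw [← (summable_term ha x).tsum_add (summable_term hb x)]
  refine tsum_congr fun k => ?_
  ring

theorem S_sub' {a b : K3 → ℂ} (ha : Summable a) (hb : Summable b) (x : V) :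
    S (fun k => a k - b k) x = S a x - S b x := by
  unfold S
  rw [← (summable_term ha x).tsum_sub (summable_term hb x)]
  refine tsum_congr fun k => ?_
  ring

theorem fr_sub3 {f g h : V → ℝ} (hf : SP f) (hg : SP g) (hh : SP h) (k : K3) :
    fr (fun x => f x - g x - h x) k = fr f k - fr g k - fr h k := by
  unfold fr fc
  have i1 : IntegrableOn (fun x => ee (-k) x * (f x : ℂ)) cube :=
    integrableOn_cube ((ee_continuous _).mul (contDiff_ofReal hf.smooth).continuous)
  have i2 : IntegrableOn (fun x => ee (-k) x * (g x : ℂ)) cube :=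
    integrableOn_cube ((ee_continuous _).mul (contDiff_ofReal hg.smooth).continuous)
  have i3 : IntegrableOn (fun x => ee (-k) x * (h x : ℂ)) cube :=
    integrableOn_cube ((ee_continuous _).mul (contDiff_ofReal hh.smooth).continuous)
  have i12 : IntegrableOn (fun x => ee (-k) x * (f x : ℂ) - ee (-k) x * (g x : ℂ)) cube :=
    i1.sub i2
  rw [← integral_sub i1 i2, ← integral_sub i12 i3]
  congr 1
  funext x
  push_cast
  ring

/-- the smallness parameter -/
noncomputable def e0 (r : ℕ) : ℝ := 1 / Cb r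

theorem e0_pos (r : ℕ) : 0 < e0 r := one_div_pos.2 (Cb_pos r)

/-- the scale below which the energy controls the velocity -/
noncomputable def Kf (r : ℕ) (ν E : ℝ) (M : ℕ) : ℝ :=
  Real.sqrt ((M : ℝ) ^ 2 * Real.sqrt M * (1 + 3200 * Cb r * (E / ν)))

/-- the constant of the bootstrap -/
noncomputable def k0 (r : ℕ) : ℝ := (e0 r / 180000) ^ 2 / (26 * 11 ^ (4 * r + 3))

theorem k0_pos (r : ℕ) : 0 < k0 r := by
  have := e0_pos r
  unfold k0
  positivity

section

variable {r : ℕ} {ν E : ℝ} {M : ℕ}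

theorem Kf_sq (hν : 0 < ν) (hE : 0 ≤ E) :
    Kf r ν E M ^ 2 = (M : ℝ) ^ 2 * Real.sqrt M * (1 + 3200 * Cb r * (E / ν)) := by
  have := Cb_pos r
  exact Real.sq_sqrt (by positivity)

theorem le_Kf (hν : 0 < ν) (hE : 0 ≤ E) (hM : 1 ≤ M) : (M : ℝ) ≤ Kf r ν E M := by
  have hC := Cb_pos r
  have hM' : (1 : ℝ) ≤ M := by exact_mod_cast hM
  refine Real.le_sqrt_of_sq_le ?_
  have h1 : (1 : ℝ) ≤ Real.sqrt M := Real.one_le_sqrt.2 hM'
  have h2 : (1 : ℝ) ≤ 1 + 3200 * Cb r * (E / ν) := by
    have : 0 ≤ 3200 * Cb r * (E / ν) := by positivity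
    linarith
  calc (M : ℝ) ^ 2 = (M : ℝ) ^ 2 * 1 * 1 := by ring
    _ ≤ _ := by gcongr

theorem N_le_len (k : K3) : (N k : ℝ) ≤ len k := by
  refine Real.le_sqrt_of_sq_le ?_
  exact N_sq_le k

/-- The bound in the window. -/
theorem win_case {p : ℝ≥0∞} (hp : 3 < p) (r : ℕ) {Kw : ℝ} (hKw : 0 ≤ Kw) :
    ∃ D1 : ℝ, 0 ≤ D1 ∧ ∀ (ν β A E Nw : ℝ) (M : ℕ) (u v w : V → V) (Q : Set K3), 0 < ν → 0 ≤ β →
      1 ≤ M → 0 ≤ E → SPV u → energy u ≤ E ^ 2 → SPV v → SPV w → DimTwo A Q →
      (∀ i k, (M : ℝ) < len k → len k ≤ Nw → fr (fun x => v x i) k = 0) →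
      (∀ i, ∀ k ∉ Q, fr (fun x => w x i) k = 0) → enstrophy w ≤ Kw ^ 2 * enstrophy u →
      (∀ i, eLpNorm (fun x => u x i - v x i - w x i) p (volume.restrict cube)
        ≤ ENNReal.ofReal β) →
      ∀ n j m x, Kf r ν E M < (2 : ℝ) ^ n → 21 * (2 : ℝ) ^ n ≤ Nw →
        ‖S (ch (2 ^ (n + 2)) (D m (fr fun y => u y j))) x‖
          ≤ 3 * e0 r / 8 * ν * 4 ^ n
            + D1 * (ν * (β / ν) ^ (2 / (1 - th p)) + A / ν * enstrophy u) := by
  have hC := Cb_pos r
  have he := e0_pos r
  have hθ0 := th_nonneg p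
  have hθ1 := th_lt_one hp
  obtain ⟨D0, hD00, hD0⟩ := young (ν := e0 r / 4) (c := 5760) hθ0 hθ1 (by positivity)
    (by norm_num)
  refine ⟨D0 + 1152 * Kw ^ 2 / e0 r, by positivity, ?_⟩
  intro ν β A E Nw M u v w Q hν hβ hM hE hu huE hv hw hQ hvk hwQ hwG hLp n j m x hn hnN
  have hA : 0 ≤ A := hQ.nonneg
  have hM' : (1 : ℝ) ≤ M := by exact_mod_cast hM
  have hKM := le_Kf (r := r) hν hE hM
  set y2 : ℝ := (2 : ℝ) ^ n with hy2
  have hy20 : 0 < y2 := by positivity
  have hMn : (M : ℝ) < y2 := lt_of_le_of_lt hKM hn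
  have hMnat : M < 2 ^ n := by
    have : (M : ℝ) < ((2 ^ n : ℕ) : ℝ) := by push_cast; exact hMn
    exact_mod_cast this
  have hR4 : (2 : ℕ) ^ (n + 2) = 4 * 2 ^ n := by rw [pow_add]; ring
  set R : ℕ := 2 ^ (n + 2) with hR
  have hR1 : 1 ≤ R := by rw [hR]; exact Nat.one_le_two_pow
  have hRr : (R : ℝ) = 4 * y2 := by
    rw [hR4]
    push_cast
    rfl
  have hMR : M ≤ R := by omega
  set y := enstrophy u with hy
  have hy0 : 0 ≤ y := enstrophy_nonneg _
  -- the pieces
  have su : SP (fun y => u y j) := hu.sp j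
  have sv : SP (fun y => v y j) := hv.sp j
  have sw : SP (fun y => w y j) := hw.sp j
  have sr : SP (fun y => u y j - v y j - w y j) := (su.sub sv).sub sw
  set aU := fr (fun y => u y j) with haU
  set aV := fr (fun y => v y j) with haV
  set aW := fr (fun y => w y j) with haW
  set aR := fr (fun y => u y j - v y j - w y j) with haR
  have rU : Rap aU := rap_fr su
  have rW : Rap aW := rap_fr sw
  have rR : Rap aR := rap_fr sr
  have hsum : ∀ k, aU k = aV k + aW k + aR k := by
    intro k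
    rw [haR, fr_sub3 su sv sw k]
    ring
  have hz : ∀ k, (chi R k - chi M k) * aV k = 0 := by
    intro k
    rcases le_or_gt (N k) M with h | h
    · rw [chi_one h, chi_one (h.trans hMR), sub_self, zero_mul]
    · have h1 : (M : ℝ) < len k := by
        have : (M : ℝ) < N k := by exact_mod_cast h
        exact this.trans_le (N_le_len k)
      rcases le_or_gt (len k) Nw with h2 | h2
      · rw [haV, hvk j k h1 h2, mul_zero]
      · have h3 : 3 * R < N k := by
          have h4 : len k ^ 2 ≤ 3 * (N k : ℝ) ^ 2 := by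
            rw [len_sq]
            exact sum_sq_le_N k
          have h5 : 21 * y2 < len k := lt_of_le_of_lt hnN h2
          have h6 : (12 * y2) ^ 2 < (N k : ℝ) ^ 2 := by
            have : (21 * y2) ^ 2 < len k ^ 2 := by gcongr
            nlinarith [pow_pos hy20 2]
          have h7 : 12 * y2 < (N k : ℝ) := lt_of_pow_lt_pow_left₀ 2 (by positivity) h6
          have h8 : ((3 * R : ℕ) : ℝ) < N k := by
            push_cast
            rw [hRr]
            linarith
          exact_mod_cast h8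
        rw [chi_zero h3, chi_zero (by omega), sub_self, zero_mul]
  have hdec : ch R (D m aU) = fun k => ch M (D m aU) k
      + ((ch R (D m aW) k - ch M (D m aW) k) + (ch R (D m aR) k - ch M (D m aR) k)) := by
    funext k
    have h1 := hz k
    have h2 := hsum k
    simp only [ch, D]
    linear_combination (2 * Real.pi * Complex.I * (k m : ℂ)) * h1
      + (2 * Real.pi * Complex.I * (k m : ℂ)) * (chi R k - chi M k) * h2
  have s1 : ∀ {a : K3 → ℂ} (R : ℕ), Rap a → Summable (ch R (D m a)) :=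
    fun R ha => (rap_ch (ha.D m) R).summable
  rw [hdec, S_add' (s1 M rU) (((s1 R rW).sub (s1 M rW)).add ((s1 R rR).sub (s1 M rR))),
    S_add' ((s1 R rW).sub (s1 M rW)) ((s1 R rR).sub (s1 M rR)), S_sub' (s1 R rW) (s1 M rW),
    S_sub' (s1 R rR) (s1 M rR)]
  -- the low frequencies
  have b1 : ‖S (ch M (D m aU)) x‖ ≤ e0 r / 8 * ν * 4 ^ n := by
    refine (sup_low rU hM m x).trans ?_
    have h1 : n2 aU ≤ E := by
      have h2 : n2 aU ^ 2 ≤ E ^ 2 := by
        rw [haU, n2_fr su]
        refine le_trans ?_ huE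
        exact Finset.single_le_sum (f := fun i => ∫ x in cube, u x i ^ 2)
          (fun _ _ => integral_nonneg fun _ => sq_nonneg _) (Finset.mem_univ j)
      exact (pow_le_pow_iff_left₀ (n2_nonneg _) hE (by norm_num)).1 h2
    have h2 : Kf r ν E M ^ 2 ≤ 4 ^ n := by
      have e4 : (4 : ℝ) ^ n = y2 ^ 2 := by
        rw [hy2, ← pow_mul, mul_comm n 2, pow_mul]
        norm_num
      rw [e4]
      exact pow_le_pow_left₀ (Real.sqrt_nonneg _) hn.le 2
    rw [Kf_sq hν hE] at h2
    have h3 : (M : ℝ) ^ 2 * Real.sqrt M * (3200 * Cb r * (E / ν)) ≤ 4 ^ n := by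
      have : 0 ≤ (M : ℝ) ^ 2 * Real.sqrt M := by positivity
      nlinarith
    have h4 : 400 * ((M : ℝ) ^ 2 * Real.sqrt M) * E
        = e0 r / 8 * ν * ((M : ℝ) ^ 2 * Real.sqrt M * (3200 * Cb r * (E / ν))) := by
      unfold e0
      field_simp
      ring
    calc 400 * ((M : ℝ) ^ 2 * Real.sqrt M) * n2 aU ≤ 400 * ((M : ℝ) ^ 2 * Real.sqrt M) * E := by
          gcongr
      _ ≤ _ := by
          rw [h4]
          gcongr
  -- the two-dimensional part
  have b2 : ‖S (ch R (D m aW)) x - S (ch M (D m aW)) x‖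
      ≤ e0 r / 8 * ν * 4 ^ n + 1152 * Kw ^ 2 / e0 r * (A / ν * y) := by
    have hzW : ∀ k, k ∉ Q → D m aW k = 0 := fun k hk => by
      rw [D, haW, hwQ j k hk, mul_zero]
    have h1 := sup_two (rW.D m) hQ hzW hR1 x
    have h2 := sup_two (rW.D m) hQ hzW hM x
    have h3 : n2 (D m aW) ≤ Kw * Real.sqrt y := by
      have h4 : n2 (D m aW) ^ 2 ≤ (Kw * Real.sqrt y) ^ 2 := by
        rw [mul_pow, Real.sq_sqrt hy0]
        refine le_trans ?_ hwG
        have h5 := sum_grad (v := fun i y => w y i) hw.sp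
        have e : enstrophy w = ∑ i, ∑ j, ∫ x in cube, pd j (fun y => w y i) x ^ 2 := rfl
        rw [e, ← h5]
        have a1 : n2 (D m aW) ^ 2 ≤ ∑ m, n2 (D m (fr fun y => w y j)) ^ 2 :=
          Finset.single_le_sum (f := fun m => n2 (D m (fr fun y => w y j)) ^ 2)
            (fun _ _ => sq_nonneg _) (Finset.mem_univ m)
        exact a1.trans (Finset.single_le_sum (f := fun j => ∑ m, n2 (D m (fr fun y => w y j)) ^ 2)
          (fun _ _ => Finset.sum_nonneg fun _ _ => sq_nonneg _) (Finset.mem_univ j))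
      exact (pow_le_pow_iff_left₀ (n2_nonneg _) (by positivity) (by norm_num)).1 h4
    have h6 : ‖S (ch R (D m aW)) x - S (ch M (D m aW)) x‖
        ≤ 24 * y2 * Real.sqrt A * (Kw * Real.sqrt y) := by
      refine (norm_sub_le _ _).trans ((add_le_add h1 h2).trans ?_)
      have hMR' : (M : ℝ) ≤ R := by exact_mod_cast hMR
      have hn2 := n2_nonneg (D m aW)
      calc 3 * R * Real.sqrt A * n2 (D m aW) + 3 * M * Real.sqrt A * n2 (D m aW)
          ≤ 3 * R * Real.sqrt A * n2 (D m aW) + 3 * R * Real.sqrt A * n2 (D m aW) := by gcongr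
        _ = 24 * y2 * Real.sqrt A * n2 (D m aW) := by rw [hRr]; ring
        _ ≤ _ := by gcongr
    refine h6.trans ?_
    have hsA := Real.sq_sqrt hA
    have hsy := Real.sq_sqrt hy0
    have e4 : (4 : ℝ) ^ n = y2 ^ 2 := by
      rw [hy2, ← pow_mul, mul_comm n 2, pow_mul]
      norm_num
    rw [e4]
    have h9 : 0 ≤ (e0 r * ν / 4 * y2 - 24 * (Real.sqrt A * Kw * Real.sqrt y)) ^ 2
        / (e0 r * ν / 2) := by positivity
    have h10 : (e0 r * ν / 4 * y2 - 24 * (Real.sqrt A * Kw * Real.sqrt y)) ^ 2 / (e0 r * ν / 2)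
        = e0 r / 8 * ν * y2 ^ 2
          + 1152 * Kw ^ 2 / e0 r * (Real.sqrt A ^ 2 / ν * Real.sqrt y ^ 2)
          - 24 * y2 * Real.sqrt A * (Kw * Real.sqrt y) := by
      field_simp
      ring
    rw [hsA, hsy] at h10
    linarith
  -- the rest
  have b3 : ‖S (ch R (D m aR)) x - S (ch M (D m aR)) x‖
      ≤ e0 r / 8 * ν * 4 ^ n + D0 * (ν * (β / ν) ^ (2 / (1 - th p))) := by
    have h1 := sup_Lp hp sr hβ (hLp j) hR1 m x
    have h2 := sup_Lp hp sr hβ (hLp j) hM m x
    have hMR' : (M : ℝ) ≤ R := by exact_mod_cast hMR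
    have h3 : ‖S (ch R (D m aR)) x - S (ch M (D m aR)) x‖
        ≤ ν * (5760 * (β / ν * ((1 : ℝ) ^ (1 - th p) * y2 ^ th p * y2))) := by
      refine (norm_sub_le _ _).trans ((add_le_add h1 h2).trans ?_)
      have h4 : (M : ℝ) * (M : ℝ) ^ th p ≤ (R : ℝ) * (R : ℝ) ^ th p := by gcongr
      have h5 : (R : ℝ) ^ th p ≤ 4 * y2 ^ th p := by
        rw [hRr, Real.mul_rpow (by norm_num) hy20.le]
        have : (4 : ℝ) ^ th p ≤ 4 ^ (1 : ℝ) :=
          Real.rpow_le_rpow_of_exponent_le (by norm_num) hθ1.le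
        rw [Real.rpow_one] at this
        gcongr
      calc 180 * β * ((R : ℝ) * (R : ℝ) ^ th p) + 180 * β * ((M : ℝ) * (M : ℝ) ^ th p)
          ≤ 180 * β * ((R : ℝ) * (R : ℝ) ^ th p) + 180 * β * ((R : ℝ) * (R : ℝ) ^ th p) := by
            gcongr
        _ = 360 * β * ((R : ℝ) * (R : ℝ) ^ th p) := by ring
        _ ≤ 360 * β * ((4 * y2) * (4 * y2 ^ th p)) := by rw [hRr] at h5 ⊢; gcongr
        _ = _ := by
          rw [Real.one_rpow]
          field_simp
          ring
    refine h3.trans ?_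
    have h4 := mul_le_mul_of_nonneg_left (hD0 (β / ν) 1 y2 (by positivity) zero_le_one hy20.le)
      hν.le
    refine h4.trans (le_of_eq ?_)
    have e4 : (4 : ℝ) ^ n = y2 ^ 2 := by
      rw [hy2, ← pow_mul, mul_comm n 2, pow_mul]
      norm_num
    rw [e4]
    ring
  refine (norm_add_le _ _).trans ((add_le_add b1 ((norm_add_le _ _).trans
    (add_le_add b2 b3))).trans ?_)
  have q1 : 0 ≤ ν * (β / ν) ^ (2 / (1 - th p)) := by positivity
  have q2 : 0 ≤ A / ν * y := by positivity
  have q3 : 0 ≤ 1152 * Kw ^ 2 / e0 r := by positivity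
  nlinarith [mul_nonneg q3 q1, mul_nonneg hD00 q2]

/-- The bound at all scales. -/
theorem all_case {p : ℝ≥0∞} (hp : 3 < p) (r : ℕ) {Kw : ℝ} (hKw : 0 ≤ Kw) :
    ∃ D1 : ℝ, 0 ≤ D1 ∧ ∀ (ν β A E Nw : ℝ) (M : ℕ) (u v w : V → V) (Q : Set K3), 0 < ν → 0 ≤ β →
      1 ≤ M → 0 ≤ E → 42 * Kf r ν E M ≤ Nw → SPV u → energy u ≤ E ^ 2 →
      hn (r + 2) u ≤ k0 r * (ν ^ 2 * Nw ^ (4 * r + 7)) → SPV v → SPV w → DimTwo A Q →
      (∀ i k, (M : ℝ) < len k → len k ≤ Nw → fr (fun x => v x i) k = 0) →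
      (∀ i, ∀ k ∉ Q, fr (fun x => w x i) k = 0) → enstrophy w ≤ Kw ^ 2 * enstrophy u →
      (∀ i, eLpNorm (fun x => u x i - v x i - w x i) p (volume.restrict cube)
        ≤ ENNReal.ofReal β) →
      ∀ n j m x, ‖S (ch (2 ^ (n + 2)) (D m (fr fun y => u y j))) x‖
          ≤ if (2 : ℝ) ^ n ≤ Kf r ν E M then 12800 * Kf r ν E M ^ 3 * E else e0 r * ν * 4 ^ n
            + D1 * (ν * (β / ν) ^ (2 / (1 - th p)) + A / ν * enstrophy u) := by
  obtain ⟨D1, hD10, hD1⟩ := win_case hp r hKw
  refine ⟨D1, hD10, ?_⟩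
  intro ν β A E Nw M u v w Q hν hβ hM hE hKN hu huE hX hv hw hQ hvk hwQ hwG hLp n j m x
  have hC := Cb_pos r
  have he := e0_pos r
  have hA : 0 ≤ A := hQ.nonneg
  have hM' : (1 : ℝ) ≤ M := by exact_mod_cast hM
  have hKM := le_Kf (r := r) hν hE hM
  set K := Kf r ν E M with hK
  have hK1 : 1 ≤ K := hM'.trans hKM
  have su : SP (fun y => u y j) := hu.sp j
  have rU : Rap (fr fun y => u y j) := rap_fr su
  have hy0 : 0 ≤ enstrophy u := enstrophy_nonneg _
  have hwin := hD1 ν β A E Nw M u v w Q hν hβ hM hE hu huE hv hw hQ hvk hwQ hwG hLp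
  rw [← hK] at hwin
  split_ifs with h
  · -- low frequencies
    have hR1 : 1 ≤ 2 ^ (n + 2) := Nat.one_le_two_pow
    refine (sup_low rU hR1 m x).trans ?_
    have h1 : n2 (fr fun y => u y j) ≤ E := by
      have h2 : n2 (fr fun y => u y j) ^ 2 ≤ E ^ 2 := by
        rw [n2_fr su]
        refine le_trans ?_ huE
        exact Finset.single_le_sum (f := fun i => ∫ x in cube, u x i ^ 2)
          (fun _ _ => integral_nonneg fun _ => sq_nonneg _) (Finset.mem_univ j)
      exact (pow_le_pow_iff_left₀ (n2_nonneg _) hE (by norm_num)).1 h2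
    have h2 : ((2 ^ (n + 2) : ℕ) : ℝ) ≤ 4 * K := by
      push_cast
      rw [pow_add]
      linarith
    have h3 : Real.sqrt ((2 ^ (n + 2) : ℕ) : ℝ) ≤ 2 * K := by
      rw [Real.sqrt_le_left (by positivity)]
      nlinarith
    calc 400 * ((((2 ^ (n + 2) : ℕ) : ℝ)) ^ 2 * Real.sqrt ((2 ^ (n + 2) : ℕ) : ℝ))
          * n2 (fr fun y => u y j)
        ≤ 400 * ((4 * K) ^ 2 * (2 * K)) * E := by
          have := n2_nonneg (fr fun y => u y j)
          gcongr
      _ = _ := by ring
  · push Not at h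
    rcases le_or_gt (21 * (2 : ℝ) ^ n) Nw with hw1 | hw1
    · -- the window
      refine (hwin n j m x h hw1).trans ?_
      have : 0 ≤ e0 r * ν * 4 ^ n := by positivity
      linarith
    · -- high frequencies
      have hN21 : 1 ≤ Nw / 21 := by
        rw [le_div_iff₀ (by norm_num)]
        linarith
      obtain ⟨n0, hn0, hn1⟩ := exists_nat_pow_near hN21 (one_lt_two : (1 : ℝ) < 2)
      rw [le_div_iff₀ (by norm_num)] at hn0
      rw [div_lt_iff₀ (by norm_num)] at hn1
      have hlt : n0 < n := by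
        have : (2 : ℝ) ^ n0 < 2 ^ n := by linarith
        exact (pow_lt_pow_iff_right₀ (by norm_num)).1 this
      rw [pow_succ] at hn1
      have hK0 : K < 2 ^ n0 := by linarith
      have hNw0 : 0 < Nw := by linarith
      set R0 : ℕ := 2 ^ (n0 + 2) with hR0
      set R : ℕ := 2 ^ (n + 2) with hR
      have hR01 : 1 ≤ R0 := Nat.one_le_two_pow
      have hRR : R0 ≤ R := Nat.pow_le_pow_right (by norm_num) (by omega)
      have hdec : ch R (D m (fr fun y => u y j)) = fun k => ch R0 (D m (fr fun y => u y j)) k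
          + (chi R k - chi R0 k) * D m (fr fun y => u y j) k := by
        funext k
        simp only [ch]
        ring
      have s1 : Summable (ch R0 (D m (fr fun y => u y j))) := (rap_ch (rU.D m) R0).summable
      have s2 : Summable fun k => (chi R k - chi R0 k) * D m (fr fun y => u y j) k := by
        have := (rap_ch (rU.D m) R).summable.sub s1
        refine this.congr fun k => ?_
        simp only [ch]
        ring
      rw [hdec, S_add' s1 s2]
      have b1 := hwin n0 j m x hK0 (by linarith)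
      have b2 : ‖S (fun k => (chi R k - chi R0 k) * D m (fr fun y => u y j) k) x‖
          ≤ 4 * Real.pi * Real.sqrt (26 / (R0 : ℝ) ^ (4 * r + 3)
            * nd (4 * r + 8) (fr fun y => u y j)) := by
        refine sup_tail rU hR01 r (by positivity) (fun k hk => ?_) (fun k => ?_) x
        · rw [chi_one hk, chi_one (hk.trans hRR), sub_self, zero_mul]
        · rw [norm_mul, norm_D]
          have h1 : ‖chi R k - chi R0 k‖ ≤ 2 := by
            refine (norm_sub_le _ _).trans ?_
            have := norm_chi_le R k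
            have := norm_chi_le R0 k
            linarith
          have h2 := abs_le_of_Qf (mem_Qf.2 (le_refl (N k))) m
          have hp := Real.pi_pos
          calc ‖chi R k - chi R0 k‖ * (2 * Real.pi * |(k m : ℝ)| * ‖fr (fun y => u y j) k‖)
              ≤ 2 * (2 * Real.pi * (N k : ℝ) * ‖fr (fun y => u y j) k‖) := by gcongr
            _ = _ := by ring
      have b3 : 26 / (R0 : ℝ) ^ (4 * r + 3) * nd (4 * r + 8) (fr fun y => u y j)
          ≤ (e0 r / 180000 * (ν * Nw ^ 2)) ^ 2 := by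
        have h1 : nd (4 * r + 8) (fr fun y => u y j) ≤ k0 r * (ν ^ 2 * Nw ^ (4 * r + 7)) := by
          refine le_trans ?_ hX
          refine le_trans ?_ (nd_hn_le hu.sp r)
          exact Finset.single_le_sum (f := fun j => nd (4 * r + 8) (fr fun y => u y j))
            (fun _ _ => nd_nonneg _ _) (Finset.mem_univ j)
        have h2 : Nw / 11 ≤ R0 := by
          rw [hR0]
          push_cast
          rw [pow_add]
          linarith
        have h3 : 26 / (R0 : ℝ) ^ (4 * r + 3) ≤ 26 / (Nw / 11) ^ (4 * r + 3) := by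
          gcongr
        calc 26 / (R0 : ℝ) ^ (4 * r + 3) * nd (4 * r + 8) (fr fun y => u y j)
            ≤ 26 / (Nw / 11) ^ (4 * r + 3) * (k0 r * (ν ^ 2 * Nw ^ (4 * r + 7))) := by
              have := nd_nonneg (4 * r + 8) (fr fun y => u y j)
              gcongr
          _ = _ := by
              have e1 : Nw ^ (4 * r + 7) = Nw ^ (4 * r + 3) * Nw ^ 4 := by
                rw [← pow_add]
              rw [k0, e1, div_pow]
              have : Nw ^ (4 * r + 3) ≠ 0 := by positivity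
              field_simp
      have b4 : 4 * Real.pi * Real.sqrt (26 / (R0 : ℝ) ^ (4 * r + 3)
            * nd (4 * r + 8) (fr fun y => u y j)) ≤ e0 r / 8 * ν * 4 ^ n0 := by
        have h1 : Real.sqrt (26 / (R0 : ℝ) ^ (4 * r + 3) * nd (4 * r + 8) (fr fun y => u y j))
            ≤ e0 r / 180000 * (ν * Nw ^ 2) := by
          rw [Real.sqrt_le_left (by positivity)]
          exact b3
        have hp4 : Real.pi ≤ 3.15 := Real.pi_lt_d2.le
        have e4 : (4 : ℝ) ^ n0 = ((2 : ℝ) ^ n0) ^ 2 := by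
          rw [← pow_mul, mul_comm n0 2, pow_mul]
          norm_num
        have h2 : Nw ^ 2 ≤ 1764 * 4 ^ n0 := by
          rw [e4]
          have : Nw ^ 2 ≤ (42 * (2 : ℝ) ^ n0) ^ 2 := by
            refine pow_le_pow_left₀ hNw0.le ?_ 2
            linarith
          linarith [this, mul_pow (42 : ℝ) ((2 : ℝ) ^ n0) 2]
        calc 4 * Real.pi * Real.sqrt (26 / (R0 : ℝ) ^ (4 * r + 3)
              * nd (4 * r + 8) (fr fun y => u y j))
            ≤ 4 * 3.15 * (e0 r / 180000 * (ν * (1764 * 4 ^ n0))) := by gcongr; exact h1.trans (by gcongr)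
          _ = (0.98784 : ℝ) * (e0 r / 8 * ν * 4 ^ n0) := by ring
          _ ≤ _ := by
              have : 0 ≤ e0 r / 8 * ν * 4 ^ n0 := by positivity
              linarith
      have b5 : e0 r * ν * 4 ^ n0 ≤ e0 r * ν * 4 ^ n := by
        gcongr
        norm_num
      have b6 : 0 ≤ e0 r * ν * 4 ^ n0 := by positivity
      refine (norm_add_le _ _).trans ((add_le_add b1 (b2.trans b4)).trans ?_)
      linarith

end

end Pool.Agent.W734.NS
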