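import Pool.Agent.W734.NS.Stat2

/-!
The bounds of the low frequency gradients from bounds of the dyadic pieces of the velocity.
-/

open MeasureTheory Set Filter Topology H459R3.NS
open scoped ContDiff ENNReal

namespace Pool.Agent.W734.NS

/-- The smooth dyadic piece number `j` of a function with Fourier coefficients `a`: the coefficients
are multiplied by the difference of two smooth cut-offs, so that only frequencies `k` with
`2^j < |k| ≤ 6 * 2^j` (sup norm) remain. -/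
noncomputable def dl (j : ℕ) (a : K3 → ℂ) (k : K3) : ℂ := (chi (2 ^ (j + 1)) k - chi (2 ^ j) k) * a k

theorem rap_dl {a : K3 → ℂ} (ha : Rap a) (j : ℕ) : Rap (dl j a) := by
  intro n
  refine Summable.of_nonneg_of_le (fun k => by positivity) (fun k => ?_) ((ha n).mul_left 2)
  rw [dl, norm_mul]
  have h1 : ‖chi (2 ^ (j + 1)) k - chi (2 ^ j) k‖ ≤ 2 := by
    refine (norm_sub_le _ _).trans ?_
    have := norm_chi_le (2 ^ (j + 1)) k
    have := norm_chi_le (2 ^ j) k
    linarith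
  calc (N k : ℝ) ^ n * (‖chi (2 ^ (j + 1)) k - chi (2 ^ j) k‖ * ‖a k‖)
      ≤ (N k : ℝ) ^ n * (2 * ‖a k‖) := by gcongr
    _ = _ := by ring

theorem geo2 {r : ℝ} (hr : 1 < r) (m : ℕ) :
    ∑ n ∈ Finset.range (m + 1), r ^ n ≤ r / (r - 1) * r ^ m := by
  have h1 : 0 < r - 1 := by linarith
  induction m with
  | zero =>
    simp only [zero_add, Finset.range_one, Finset.sum_singleton, pow_zero, mul_one]
    rw [le_div_iff₀ h1]
    linarith
  | succ m ih =>
    rw [Finset.sum_range_succ]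
    refine (add_le_add ih le_rfl).trans (le_of_eq ?_)
    field_simp
    ring

/-- Young's inequality -/
theorem young2 {s ε c : ℝ} (hs0 : -1 < s) (hs1 : s < 1) (hε : 0 < ε) (hc : 0 ≤ c) :
    ∃ D : ℝ, 0 ≤ D ∧ ∀ b y : ℝ, 0 ≤ b → 0 < y →
      c * (b * y ^ (1 - s)) ≤ ε * y ^ 2 + D * b ^ (2 / (1 + s)) := by
  set w1 := (1 - s) / 2 with hw1
  set w2 := (1 + s) / 2 with hw2
  have h1 : 0 < w1 := by rw [hw1]; linarith
  have h2 : 0 < w2 := by rw [hw2]; linarith
  have h12 : w1 + w2 = 1 := by rw [hw1, hw2]; ring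
  have hw11 : w1 ≤ 1 := by linarith
  have hw21 : w2 ≤ 1 := by linarith
  set D : ℝ := (c * ε ^ (-w1)) ^ (1 / w2) with hD
  have hb0 : 0 ≤ c * ε ^ (-w1) := by positivity
  have hD0 : 0 ≤ D := Real.rpow_nonneg hb0 _
  refine ⟨D, hD0, fun b y hb hy => ?_⟩
  have hq0 : 0 ≤ b ^ (2 / (1 + s)) := Real.rpow_nonneg hb _
  have h := Real.geom_mean_le_arith_mean2_weighted h1.le h2.le
    (p₁ := ε * y ^ 2) (p₂ := D * b ^ (2 / (1 + s))) (by positivity) (by positivity) h12
  have e1 : (ε * y ^ 2) ^ w1 = ε ^ w1 * y ^ (1 - s) := by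
    rw [Real.mul_rpow hε.le (by positivity), ← Real.rpow_natCast, ← Real.rpow_mul hy.le]
    congr 2
    rw [hw1]
    push_cast
    ring
  have e2 : (D * b ^ (2 / (1 + s))) ^ w2 = c * ε ^ (-w1) * b := by
    rw [Real.mul_rpow hD0 hq0, hD, ← Real.rpow_mul hb0, ← Real.rpow_mul hb]
    have e3 : 1 / w2 * w2 = 1 := by field_simp
    have e4 : 2 / (1 + s) * w2 = 1 := by
      rw [hw2]
      have : (1 + s) ≠ 0 := by linarith
      field_simp
    rw [e3, e4, Real.rpow_one, Real.rpow_one]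
  rw [e1, e2] at h
  have e5 : ε ^ w1 * ε ^ (-w1) = 1 := by
    rw [← Real.rpow_add hε]
    simp
  have e6 : ε ^ w1 * y ^ (1 - s) * (c * ε ^ (-w1) * b) = c * (b * y ^ (1 - s)) := by
    calc _ = (ε ^ w1 * ε ^ (-w1)) * (c * (b * y ^ (1 - s))) := by ring
      _ = _ := by rw [e5, one_mul]
  rw [e6] at h
  refine h.trans ?_
  have a1 : w1 * (ε * y ^ 2) ≤ 1 * (ε * y ^ 2) := mul_le_mul_of_nonneg_right hw11 (by positivity)
  have a2 : w2 * (D * b ^ (2 / (1 + s))) ≤ 1 * (D * b ^ (2 / (1 + s))) :=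
    mul_le_mul_of_nonneg_right hw21 (by positivity)
  linarith

theorem fr_sub2 {f g : V → ℝ} (hf : SP f) (hg : SP g) (k : K3) :
    fr (fun x => f x - g x) k = fr f k - fr g k := by
  unfold fr fc
  have i1 : IntegrableOn (fun x => ee (-k) x * (f x : ℂ)) cube :=
    integrableOn_cube ((ee_continuous _).mul (contDiff_ofReal hf.smooth).continuous)
  have i2 : IntegrableOn (fun x => ee (-k) x * (g x : ℂ)) cube :=
    integrableOn_cube ((ee_continuous _).mul (contDiff_ofReal hg.smooth).continuous)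
  rw [← integral_sub i1 i2]
  congr 1
  funext x
  push_cast
  ring

theorem dl_zero {a : K3 → ℂ} {j : ℕ} {k : K3} (h : 3 * 2 ^ (j + 1) < N k) : dl j a k = 0 := by
  have h1 : (2 : ℕ) ^ (j + 1) = 2 * 2 ^ j := pow_succ' 2 j
  rw [dl, chi_zero h, chi_zero (by omega), sub_self, zero_mul]

theorem dl_tele {a : K3 → ℂ} {j0 n : ℕ} (h : j0 ≤ n) (k : K3) :
    ch (2 ^ n) a k - ch (2 ^ j0) a k = ∑ j ∈ Finset.Ico j0 n, dl j a k := by
  induction n, h using Nat.le_induction with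
  | base => simp
  | succ n hn ih =>
    rw [Finset.sum_Ico_succ_top hn, ← ih, dl, ch, ch, ch]
    ring

theorem D_dl (m : Fin 3) (j : ℕ) (a : K3 → ℂ) : D m (dl j a) = dl j (D m a) := by
  funext k
  rw [D, dl, dl, D]
  ring

/-- The bound in the window. -/
theorem win_dy {s : ℝ} (hs0 : -1 < s) (hs1 : s < 1) (r : ℕ) {Kw : ℝ} (hKw : 0 ≤ Kw) :
    ∃ D1 : ℝ, 0 ≤ D1 ∧ ∀ (ν β A E : ℝ) (j0 J : ℕ) (u w : V → V) (Q : Set K3), 0 < ν → 0 ≤ β →
      0 ≤ E → SPV u → energy u ≤ E ^ 2 → SPV w → DimTwo A Q →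
      (∀ i, ∀ k ∉ Q, fr (fun x => w x i) k = 0) → enstrophy w ≤ Kw ^ 2 * enstrophy u →
      (∀ j, j0 ≤ j → j ≤ J → ∀ i x, ‖S (dl j (fr fun y => u y i - w y i)) x‖
        ≤ e0 r / 50000 * (ν * 2 ^ j) + (2 : ℝ) ^ (-(s * j)) * β) →
      ∀ n i m x, Kf r ν E (2 ^ j0) < (2 : ℝ) ^ n → n + 1 ≤ J →
        ‖S (ch (2 ^ (n + 2)) (D m (fr fun y => u y i))) x‖
          ≤ 3 * e0 r / 8 * ν * 4 ^ n
            + D1 * (ν * (β / ν) ^ (2 / (1 + s)) + A / ν * enstrophy u) := by
  have hC := Cb_pos r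
  have he := e0_pos r
  have hpi := Real.pi_pos
  have hr1 : 1 < (2 : ℝ) ^ (1 - s) := Real.one_lt_rpow (by norm_num) (by linarith)
  set g : ℝ := (2 : ℝ) ^ (1 - s) with hg
  set cs : ℝ := 108 * 3.15 * (g / (g - 1) * g) with hcs
  have hg1 : 0 < g - 1 := by linarith
  have hcs0 : 0 ≤ cs := by positivity
  obtain ⟨D0, hD00, hD0⟩ := young2 (ε := e0 r / 16) (c := cs) hs0 hs1 (by positivity) hcs0
  refine ⟨D0 + 1152 * Kw ^ 2 / e0 r, by positivity, ?_⟩
  intro ν β A E j0 J u w Q hν hβ hE hu huE hw hQ hwQ hwG hdl n i m x hn hnJ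
  have hA : 0 ≤ A := hQ.nonneg
  have hM : 1 ≤ 2 ^ j0 := Nat.one_le_two_pow
  have hKM := le_Kf (r := r) hν hE hM
  set y2 : ℝ := (2 : ℝ) ^ n with hy2
  have hy20 : 0 < y2 := by positivity
  have hMn : (((2 ^ j0 : ℕ) : ℝ)) < y2 := lt_of_le_of_lt hKM hn
  have hj0n : j0 < n := by
    have h1 : (2 : ℝ) ^ j0 < 2 ^ n := by
      have := hMn
      push_cast at this
      exact this
    exact (pow_lt_pow_iff_right₀ (by norm_num)).1 h1
  have hR4 : (2 : ℕ) ^ (n + 2) = 4 * 2 ^ n := by rw [pow_add]; ring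
  set R : ℕ := 2 ^ (n + 2) with hR
  set M : ℕ := 2 ^ j0 with hMdef
  have hR1 : 1 ≤ R := by rw [hR]; exact Nat.one_le_two_pow
  have hRr : (R : ℝ) = 4 * y2 := by
    rw [hR4]
    push_cast
    rfl
  have hMR : M ≤ R := Nat.pow_le_pow_right (by norm_num) (by omega)
  set y := enstrophy u with hy
  have hy0 : 0 ≤ y := enstrophy_nonneg _
  have e4 : (4 : ℝ) ^ n = y2 ^ 2 := by
    rw [hy2, ← pow_mul, mul_comm n 2, pow_mul]
    norm_num
  -- the pieces
  have su : SP (fun y => u y i) := hu.sp i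
  have sw : SP (fun y => w y i) := hw.sp i
  have sr : SP (fun y => u y i - w y i) := su.sub sw
  set aU := fr (fun y => u y i) with haU
  set aW := fr (fun y => w y i) with haW
  set aR := fr (fun y => u y i - w y i) with haR
  have rU : Rap aU := rap_fr su
  have rW : Rap aW := rap_fr sw
  have rR : Rap aR := rap_fr sr
  have hsum : ∀ k, aU k = aW k + aR k := by
    intro k
    rw [haR, fr_sub2 su sw k]
    ring
  have hdec : ch R (D m aU) = fun k => ch M (D m aU) k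
      + ((ch R (D m aW) k - ch M (D m aW) k) + ∑ j ∈ Finset.Ico j0 (n + 2), dl j (D m aR) k) := by
    funext k
    have h2 := hsum k
    rw [← dl_tele (by omega : j0 ≤ n + 2)]
    simp only [ch, D]
    linear_combination (2 * Real.pi * Complex.I * (k m : ℂ)) * (chi R k - chi M k) * h2
  have s1 : ∀ {a : K3 → ℂ} (R : ℕ), Rap a → Summable (ch R (D m a)) :=
    fun R ha => (rap_ch (ha.D m) R).summable
  have s2 : ∀ j, Summable (dl j (D m aR)) := fun j => (rap_dl (rR.D m) j).summable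
  rw [hdec, S_add' (s1 M rU) (((s1 R rW).sub (s1 M rW)).add (summable_sum fun j _ => s2 j)),
    S_add' ((s1 R rW).sub (s1 M rW)) (summable_sum fun j _ => s2 j), S_sub' (s1 R rW) (s1 M rW)]
  -- the low frequencies
  have b1 : ‖S (ch M (D m aU)) x‖ ≤ e0 r / 8 * ν * 4 ^ n := by
    refine (sup_low rU hM m x).trans ?_
    have h1 : n2 aU ≤ E := by
      have h2 : n2 aU ^ 2 ≤ E ^ 2 := by
        rw [haU, n2_fr su]
        refine le_trans ?_ huE
        exact Finset.single_le_sum (f := fun i => ∫ x in cube, u x i ^ 2)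
          (fun _ _ => integral_nonneg fun _ => sq_nonneg _) (Finset.mem_univ i)
      exact (pow_le_pow_iff_left₀ (n2_nonneg _) hE (by norm_num)).1 h2
    have h2 : Kf r ν E M ^ 2 ≤ 4 ^ n := by
      rw [e4]
      exact pow_le_pow_left₀ (Real.sqrt_nonneg _) hn.le 2
    rw [Kf_sq hν hE] at h2
    have h3 : (M : ℝ) ^ 2 * Real.sqrt M * (3200 * Cb r * (E / ν)) ≤ 4 ^ n := by
      have : 0 ≤ (M : ℝ) ^ 2 * Real.sqrt M := by positivity
      nlinarith
    have h4 : 400 * ((M : ℝ) ^ 2 * Real.sqrt M) * E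
        = e0 r / 8 * ν * ((M : ℝ) ^ 2 * Real.sqrt M * (3200 * Cb r * (E / ν))) := by
      unfold e0
      field_simp
      ring
    calc 400 * ((M : ℝ) ^ 2 * Real.sqrt M) * n2 aU ≤ 400 * ((M : ℝ) ^ 2 * Real.sqrt M) * E := by
          gcongr
      _ ≤ _ := by
          rw [h4]
          gcongr
  -- the two-dimensional part
  have b2 : ‖S (ch R (D m aW)) x - S (ch M (D m aW)) x‖
      ≤ e0 r / 8 * ν * 4 ^ n + 1152 * Kw ^ 2 / e0 r * (A / ν * y) := by
    have hzW : ∀ k, k ∉ Q → D m aW k = 0 := fun k hk => by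
      rw [D, haW, hwQ i k hk, mul_zero]
    have h1 := sup_two (rW.D m) hQ hzW hR1 x
    have h2 := sup_two (rW.D m) hQ hzW hM x
    have h3 : n2 (D m aW) ≤ Kw * Real.sqrt y := by
      have h4 : n2 (D m aW) ^ 2 ≤ (Kw * Real.sqrt y) ^ 2 := by
        rw [mul_pow, Real.sq_sqrt hy0]
        refine le_trans ?_ hwG
        have h5 := sum_grad (v := fun i y => w y i) hw.sp
        have e : enstrophy w = ∑ i, ∑ j, ∫ x in cube, pd j (fun y => w y i) x ^ 2 := rfl
        rw [e, ← h5]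
        have a1 : n2 (D m aW) ^ 2 ≤ ∑ m, n2 (D m (fr fun y => w y i)) ^ 2 :=
          Finset.single_le_sum (f := fun m => n2 (D m (fr fun y => w y i)) ^ 2)
            (fun _ _ => sq_nonneg _) (Finset.mem_univ m)
        exact a1.trans (Finset.single_le_sum (f := fun i => ∑ m, n2 (D m (fr fun y => w y i)) ^ 2)
          (fun _ _ => Finset.sum_nonneg fun _ _ => sq_nonneg _) (Finset.mem_univ i))
      exact (pow_le_pow_iff_left₀ (n2_nonneg _) (by positivity) (by norm_num)).1 h4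
    have h6 : ‖S (ch R (D m aW)) x - S (ch M (D m aW)) x‖
        ≤ 24 * y2 * Real.sqrt A * (Kw * Real.sqrt y) := by
      refine (norm_sub_le _ _).trans ((add_le_add h1 h2).trans ?_)
      have hMR' : (M : ℝ) ≤ R := by exact_mod_cast hMR
      have hn2 := n2_nonneg (D m aW)
      calc 3 * R * Real.sqrt A * n2 (D m aW) + 3 * M * Real.sqrt A * n2 (D m aW)
          ≤ 3 * R * Real.sqrt A * n2 (D m aW) + 3 * R * Real.sqrt A * n2 (D m aW) := by gcongr
        _ = 24 * y2 * Real.sqrt A * n2 (D m aW) := by rw [hRr]; ring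
        _ ≤ _ := by gcongr
    refine h6.trans ?_
    have hsA := Real.sq_sqrt hA
    have hsy := Real.sq_sqrt hy0
    rw [e4]
    have h9 : 0 ≤ (e0 r * ν / 4 * y2 - 24 * (Real.sqrt A * Kw * Real.sqrt y)) ^ 2
        / (e0 r * ν / 2) := by positivity
    have h10 : (e0 r * ν / 4 * y2 - 24 * (Real.sqrt A * Kw * Real.sqrt y)) ^ 2 / (e0 r * ν / 2)
        = e0 r / 8 * ν * y2 ^ 2
          + 1152 * Kw ^ 2 / e0 r * (Real.sqrt A ^ 2 / ν * Real.sqrt y ^ 2)
          - 24 * y2 * Real.sqrt A * (Kw * Real.sqrt y) := by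
      field_simp
      ring
    rw [hsA, hsy] at h10
    linarith
  -- the rest
  have b3 : ‖S (fun k => ∑ j ∈ Finset.Ico j0 (n + 2), dl j (D m aR) k) x‖
      ≤ e0 r / 8 * ν * 4 ^ n + D0 * (ν * (β / ν) ^ (2 / (1 + s))) := by
    have h1 : S (fun k => ∑ j ∈ Finset.Ico j0 (n + 2), dl j (D m aR) k) x
        = ∑ j ∈ Finset.Ico j0 (n + 2), S (dl j (D m aR)) x := by
      unfold S
      rw [← Summable.tsum_finsetSum fun j _ => summable_term (s2 j) x]
      refine tsum_congr fun k => ?_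
      rw [Finset.sum_mul]
    rw [h1]
    have h2 : ∀ j ∈ Finset.Ico j0 (n + 2), ‖S (dl j (D m aR)) x‖
        ≤ 108 * 3.15 * (e0 r / 50000 * ν * 4 ^ j + β * g ^ j) := by
      intro j hj
      rw [Finset.mem_Ico] at hj
      rw [← D_dl]
      have h3 := bernstein (rap_dl rR j).summable (R := 3 * 2 ^ (j + 1))
        (fun k hk => dl_zero hk) (hdl j hj.1 (by omega) i) m x
      refine h3.trans ?_
      have h4 : Real.pi ≤ 3.15 := Real.pi_lt_d2.le
      have e5 : (2 : ℝ) ^ j * (2 : ℝ) ^ (-(s * j)) = g ^ j := by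
        rw [hg, ← Real.rpow_natCast, ← Real.rpow_add (by norm_num), ← Real.rpow_natCast,
          ← Real.rpow_mul (by norm_num)]
        congr 1
        ring
      have e6 : (4 : ℝ) ^ j = 2 ^ j * 2 ^ j := by
        rw [← mul_pow]
        norm_num
      rw [e6, ← e5]
      push_cast
      rw [pow_succ]
      have h5 : 0 ≤ (2 : ℝ) ^ (-(s * j)) := by positivity
      calc 18 * Real.pi * (3 * (2 ^ j * 2)) * (e0 r / 50000 * (ν * 2 ^ j)
            + (2 : ℝ) ^ (-(s * j)) * β)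
          ≤ 18 * 3.15 * (3 * (2 ^ j * 2)) * (e0 r / 50000 * (ν * 2 ^ j)
            + (2 : ℝ) ^ (-(s * j)) * β) := by gcongr
        _ = _ := by ring
    refine (norm_sum_le_of_le _ h2).trans ?_
    rw [← Finset.mul_sum, Finset.sum_add_distrib, ← Finset.mul_sum, ← Finset.mul_sum]
    have hsub : Finset.Ico j0 (n + 2) ⊆ Finset.range (n + 1 + 1) := by
      intro j hj
      rw [Finset.mem_Ico] at hj
      rw [Finset.mem_range]
      omega
    have h3 : ∑ j ∈ Finset.Ico j0 (n + 2), (4 : ℝ) ^ j ≤ 8 * 4 ^ n := by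
      refine (Finset.sum_le_sum_of_subset_of_nonneg hsub fun _ _ _ => by positivity).trans ?_
      refine (geo_le (by norm_num) (n + 1)).trans (le_of_eq ?_)
      rw [pow_succ]
      ring
    have h4 : ∑ j ∈ Finset.Ico j0 (n + 2), g ^ j ≤ g / (g - 1) * g * y2 ^ (1 - s) := by
      refine (Finset.sum_le_sum_of_subset_of_nonneg hsub fun _ _ _ => by positivity).trans ?_
      refine (geo2 hr1 (n + 1)).trans (le_of_eq ?_)
      have : g ^ n = y2 ^ (1 - s) := by
        rw [hg, hy2, ← Real.rpow_natCast, ← Real.rpow_natCast, ← Real.rpow_mul (by norm_num),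
          ← Real.rpow_mul (by norm_num), mul_comm]
      rw [pow_succ, this]
      ring
    have h5 := mul_le_mul_of_nonneg_left (hD0 (β / ν) y2 (by positivity) hy20) hν.le
    have e7 : ν * (cs * (β / ν * y2 ^ (1 - s))) = 108 * 3.15 * (β * (g / (g - 1) * g
        * y2 ^ (1 - s))) := by
      rw [hcs]
      field_simp
    rw [e7] at h5
    rw [e4] at h3 ⊢
    have q0 : 0 ≤ e0 r * ν * y2 ^ 2 := by positivity
    calc 108 * 3.15 * (e0 r / 50000 * ν * ∑ j ∈ Finset.Ico j0 (n + 2), (4 : ℝ) ^ j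
          + β * ∑ j ∈ Finset.Ico j0 (n + 2), g ^ j)
        ≤ 108 * 3.15 * (e0 r / 50000 * ν * (8 * y2 ^ 2)
          + β * (g / (g - 1) * g * y2 ^ (1 - s))) := by gcongr
      _ = (0.0544320 : ℝ) * (e0 r * ν * y2 ^ 2)
          + 108 * 3.15 * (β * (g / (g - 1) * g * y2 ^ (1 - s))) := by ring
      _ ≤ 1 / 16 * (e0 r * ν * y2 ^ 2) + ν * (e0 r / 16 * y2 ^ 2
          + D0 * (β / ν) ^ (2 / (1 + s))) := by
          refine add_le_add ?_ h5
          nlinarith
      _ = _ := by ring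
  refine (norm_add_le _ _).trans ((add_le_add b1 ((norm_add_le _ _).trans
    (add_le_add b2 b3))).trans ?_)
  have q1 : 0 ≤ ν * (β / ν) ^ (2 / (1 + s)) := by positivity
  have q2 : 0 ≤ A / ν * y := by positivity
  have q3 : 0 ≤ 1152 * Kw ^ 2 / e0 r := by positivity
  nlinarith [mul_nonneg q3 q1, mul_nonneg hD00 q2]

end Pool.Agent.W734.NS
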