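import Pool.Agent.W734.NS.Dyn2

/-!
Frequency windows for the Navier-Stokes equations: windows of the form `[2 ^ (θ J), 2 ^ J]`.
-/

open MeasureTheory Set Filter Topology H459R3.NS
open scoped ContDiff ENNReal

namespace Pool.Agent.W734.NS

/-- The threshold. -/
theorem thr {θ : ℝ} {r : ℕ} (hr : 13 * θ + 1 ≤ (4 - 5 * θ) * r)
    {h0 E ν : ℝ} (hh0 : 0 ≤ h0) (hE : 0 ≤ E) (hν : 0 < ν) {j0 J : ℕ} (hj0 : (j0 : ℝ) ≤ θ * J + 1)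
    (hJ : 2 ^ (5 * r + 14) * Cw r * (1 + Real.sqrt h0 / ν + E / ν) ^ (2 * r + 8) ≤ 2 ^ J) :
    (J : ℝ) ≤ Real.log (((2 : ℝ) ^ J) ^ (4 * r + 7) / (Cw r * (1 + h0 / ν ^ 2
        + ((2 : ℝ) ^ j0) ^ (5 * r + 13) * (1 + E / ν) ^ (2 * r + 8)))) := by
  have hCw := Cw_pos r
  set Y : ℝ := 1 + Real.sqrt h0 / ν + E / ν with hY
  have hY1 : 1 ≤ Y := by
    have : 0 ≤ Real.sqrt h0 / ν := by positivity
    have : 0 ≤ E / ν := by positivity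
    linarith
  have hJ0 : (0 : ℝ) ≤ J := Nat.cast_nonneg J
  -- the power of the lower end
  have h1 : ((2 : ℝ) ^ j0) ^ (5 * r + 13)
      ≤ 2 ^ (5 * r + 13) * (((2 : ℝ) ^ J) ^ (4 * r + 7) / (2 ^ J) ^ 8) := by
    have e1 : ((2 : ℝ) ^ j0) ^ (5 * r + 13) = (2 : ℝ) ^ ((j0 : ℝ) * (5 * r + 13)) := by
      rw [← pow_mul, ← Real.rpow_natCast]
      push_cast
      ring_nf
    have e2 : (2 : ℝ) ^ (5 * r + 13) * (((2 : ℝ) ^ J) ^ (4 * r + 7) / (2 ^ J) ^ 8)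
        = (2 : ℝ) ^ ((5 * r + 13) + ((J : ℝ) * (4 * r + 7) - (J : ℝ) * 8)) := by
      rw [Real.rpow_add (by norm_num), Real.rpow_sub (by norm_num), ← pow_mul, ← pow_mul,
        ← Real.rpow_natCast, ← Real.rpow_natCast, ← Real.rpow_natCast]
      push_cast
      ring_nf
    rw [e1, e2]
    refine Real.rpow_le_rpow_of_exponent_le (by norm_num) ?_
    have hr0 : (0 : ℝ) ≤ 5 * r + 13 := by positivity
    have a1 : (j0 : ℝ) * (5 * r + 13) ≤ (θ * J + 1) * (5 * r + 13) :=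
      mul_le_mul_of_nonneg_right hj0 hr0
    have a2 : (13 * θ + 1) * J ≤ (4 - 5 * θ) * r * J := mul_le_mul_of_nonneg_right hr hJ0
    nlinarith
  have h2 : 1 + h0 / ν ^ 2 ≤ Y ^ (2 * r + 8) := by
    have e1 : h0 / ν ^ 2 = (Real.sqrt h0 / ν) ^ 2 := by rw [div_pow, Real.sq_sqrt hh0]
    have a1 : 0 ≤ Real.sqrt h0 / ν := by positivity
    have a2 : 0 ≤ E / ν := by positivity
    have a3 : 1 + h0 / ν ^ 2 ≤ Y ^ 2 := by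
      rw [e1, hY]
      nlinarith [mul_nonneg a1 a2]
    exact a3.trans (pow_le_pow_right₀ hY1 (by omega))
  have h3 : (1 + E / ν) ^ (2 * r + 8) ≤ Y ^ (2 * r + 8) := by
    refine pow_le_pow_left₀ (by positivity) ?_ _
    have : 0 ≤ Real.sqrt h0 / ν := by positivity
    rw [hY]
    linarith
  have hj1 : (1 : ℝ) ≤ ((2 : ℝ) ^ j0) ^ (5 * r + 13) := one_le_pow₀ (one_le_pow₀ (by norm_num))
  have hYp : 0 < Y ^ (2 * r + 8) := by positivity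
  set X := Cw r * (1 + h0 / ν ^ 2
        + ((2 : ℝ) ^ j0) ^ (5 * r + 13) * (1 + E / ν) ^ (2 * r + 8)) with hX
  have hX0 : 0 < X := by positivity
  have h4 : X ≤ 2 ^ (5 * r + 14) * Cw r * Y ^ (2 * r + 8)
      * (((2 : ℝ) ^ J) ^ (4 * r + 7) / (2 ^ J) ^ 8) := by
    calc X ≤ Cw r * (((2 : ℝ) ^ j0) ^ (5 * r + 13) * Y ^ (2 * r + 8)
          + ((2 : ℝ) ^ j0) ^ (5 * r + 13) * Y ^ (2 * r + 8)) := by
          rw [hX]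
          gcongr
          exact h2.trans (le_mul_of_one_le_left hYp.le hj1)
      _ = 2 * Cw r * Y ^ (2 * r + 8) * ((2 : ℝ) ^ j0) ^ (5 * r + 13) := by ring
      _ ≤ 2 * Cw r * Y ^ (2 * r + 8)
          * (2 ^ (5 * r + 13) * (((2 : ℝ) ^ J) ^ (4 * r + 7) / (2 ^ J) ^ 8)) := by gcongr
      _ = _ := by ring
  have h5 : X ≤ ((2 : ℝ) ^ J) ^ (4 * r + 7) / (2 ^ J) ^ 7 := by
    refine h4.trans ?_
    calc 2 ^ (5 * r + 14) * Cw r * Y ^ (2 * r + 8) * (((2 : ℝ) ^ J) ^ (4 * r + 7) / (2 ^ J) ^ 8)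
        ≤ 2 ^ J * (((2 : ℝ) ^ J) ^ (4 * r + 7) / (2 ^ J) ^ 8) := by gcongr
      _ = _ := by field_simp
  have h6 : ((2 : ℝ) ^ J) ^ 7 ≤ ((2 : ℝ) ^ J) ^ (4 * r + 7) / X := by
    rw [le_div_iff₀ hX0]
    calc ((2 : ℝ) ^ J) ^ 7 * X ≤ ((2 : ℝ) ^ J) ^ 7 * (((2 : ℝ) ^ J) ^ (4 * r + 7) / (2 ^ J) ^ 7) := by
          gcongr
      _ = _ := by field_simp
  have h7 : Real.log (((2 : ℝ) ^ J) ^ 7) ≤ Real.log (((2 : ℝ) ^ J) ^ (4 * r + 7) / X) :=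
    Real.log_le_log (by positivity) h6
  refine le_trans ?_ h7
  rw [Real.log_pow, Real.log_pow]
  have := Real.log_two_gt_d9
  push_cast
  nlinarith

/-- The criterion for the window `[2 ^ (θ J), 2 ^ J]`. -/
theorem windows_theta {s θ K : ℝ} (hs0 : -1 < s) (hs1 : s < 1) (hθ0 : 0 ≤ θ) (hθ1 : θ < 4 / 5)
    (hK : 0 ≤ K) :
    ∃ (l m : ℕ) (c C κ : ℝ), 2 ≤ l ∧ 0 < c ∧ 0 < C ∧ 0 < κ ∧ ∀ (ν T A : ℝ) (J : ℕ)
      (u : ℝ → V → V) (P : ℝ → V → ℝ) (β : ℝ → ℝ), 0 < ν → IsSol ν T u P → 0 ≤ A →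
      C * (1 + Real.sqrt (hn l (u 0)) / ν + Real.sqrt (energy (u 0)) / ν) ^ m ≤ 2 ^ J →
      A * energy (u 0) ≤ c * (ν ^ 2 * J) →
      (∀ t ∈ Ioo 0 T, 0 ≤ β t) → IntegrableOn (fun t => β t ^ (2 / (1 + s))) (Ioo 0 T) →
      ∫ t in Ioo 0 T, β t ^ (2 / (1 + s)) ≤ c * (ν ^ (2 / (1 + s) - 1) * J) →
      (∀ t ∈ Ioo 0 T, ∃ (w : V → V) (Q : Set K3), SPV w ∧ DimTwo A Q ∧
          (∀ i, ∀ k ∉ Q, fr (fun x => w x i) k = 0) ∧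
          enstrophy w ≤ K ^ 2 * enstrophy (u t) ∧
          ∀ j : ℕ, θ * J ≤ j → j ≤ J → ∀ i x, ‖S (dl j (fr fun y => u t y i - w y i)) x‖
            ≤ c * (ν * 2 ^ j) + (2 : ℝ) ^ (-(s * j)) * β t) →
      (∀ t ∈ Ico 0 T, hn l (u t) < κ * (ν ^ 2 * ((2 : ℝ) ^ J) ^ (4 * l - 1))) ∧
      ∃ R, ∀ t ∈ Ico 0 T, ∀ x i, |u t x i| ≤ R := by
  obtain ⟨r, hr⟩ := exists_nat_gt ((13 * θ + 1) / (4 - 5 * θ))
  have h45 : 0 < 4 - 5 * θ := by linarith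
  rw [div_lt_iff₀ h45] at hr
  have hr' : 13 * θ + 1 ≤ (4 - 5 * θ) * r := by linarith
  obtain ⟨c, hc0, -, hc⟩ := windows_dy hs0 hs1 r hK
  have hCw := Cw_pos r
  refine ⟨r + 2, 2 * r + 8, c, 2 ^ (5 * r + 14) * Cw r, k0 r, by omega, hc0, by positivity,
    k0_pos r, ?_⟩
  intro ν T A J u P β hν h hA hJ hAE hβ0 hβi hβ hcomp
  have hj0 : ((⌈θ * J⌉₊ : ℕ) : ℝ) ≤ θ * J + 1 := (Nat.ceil_lt_add_one (by positivity)).le
  have hL := thr hr' (hn_nonneg (r + 2) (u 0)) (Real.sqrt_nonneg (energy (u 0))) hν hj0 hJ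
  have e1 : 4 * (r + 2) - 1 = 4 * r + 7 := by omega
  rw [e1]
  refine hc ν T _ A ⌈θ * J⌉₊ J u P β hν h hA rfl (hAE.trans (by gcongr)) hβ0 hβi
    (hβ.trans (by gcongr)) fun t ht => ?_
  obtain ⟨w, Q, hw, hQ, hwQ, hwG, hdl⟩ := hcomp t ht
  exact ⟨w, Q, hw, hQ, hwQ, hwG, fun j hj1 hj2 => hdl j ((Nat.le_ceil _).trans
    (by exact_mod_cast hj1)) hj2⟩

end Pool.Agent.W734.NS
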