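import Pool.Agent.W734.NS.Win

/-!
Frequency windows for the Navier-Stokes equations: the criterion.
-/

open MeasureTheory Set Filter Topology H459R3.NS
open scoped ContDiff ENNReal

namespace Pool.Agent.W734.NS

theorem mul_sqrt_cube {M : ℝ} (hM : 0 < M) :
    M * Real.sqrt (27 * M ^ 3) = Real.sqrt 27 * M ^ (5 / 2 : ℝ) := by
  rw [Real.sqrt_mul (by norm_num), Real.sqrt_eq_rpow (M ^ 3), ← Real.rpow_natCast,
    ← Real.rpow_mul hM.le]
  nth_rewrite 1 [← Real.rpow_one M]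
  rw [mul_left_comm, ← Real.rpow_add hM]
  norm_num

/-- the final inequality -/
theorem final_ineq {D D2 c C a κ ν N E Z X Mb A : ℝ} (hD20 : 0 ≤ D2)
    (hc : (D + D2) * c ≤ 1) (hc0 : 0 ≤ c) (ha : 0 ≤ a) (hκ : 0 < κ)
    (hν : 0 < ν) (hN : 0 < N) (hE : 0 ≤ E) (hZ : 0 ≤ Z) (hMb : 0 ≤ Mb)
    (hX : X = 1 + Mb * E ^ (3 / 2 : ℝ) / ν ^ 3 + Z / ν ^ 2) (hC : 0 < C)
    (hCκ : Real.exp 1 * (a + 1) < κ * C) (hlog : 0 ≤ Real.log (N / (C * X)))
    (hA : A * E ≤ c * (ν ^ 2 * Real.log (N / (C * X)))) :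
    (a * Real.sqrt E * Mb * (E / (2 * ν)) + ν ^ 2 + Z)
      * Real.exp (D * c * Real.log (N / (C * X)) + D2 * A / ν * (E / (2 * ν)) + 1)
        < κ * (ν ^ 2 * N) := by
  have h32 : Real.sqrt E * E = E ^ (3 / 2 : ℝ) := by
    rcases eq_or_lt_of_le hE with h0 | h0
    · rw [← h0, Real.zero_rpow (by norm_num), mul_zero]
    · rw [Real.sqrt_eq_rpow]
      nth_rewrite 2 [← Real.rpow_one E]
      rw [← Real.rpow_add h0]
      norm_num
  have hX0 : 0 < X := by rw [hX]; positivity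
  have hr0 : 0 < N / (C * X) := by positivity
  -- the prefactor
  have h1 : a * Real.sqrt E * Mb * (E / (2 * ν)) + ν ^ 2 + Z ≤ (a + 1) * X * ν ^ 2 := by
    have e1 : a * Real.sqrt E * Mb * (E / (2 * ν))
        = a / 2 * (Mb * E ^ (3 / 2 : ℝ) / ν ^ 3) * ν ^ 2 := by
      rw [← h32]
      field_simp
    have e2 : Z = Z / ν ^ 2 * ν ^ 2 := by field_simp
    have e5 : 0 ≤ (a / 2 * (Mb * E ^ (3 / 2 : ℝ) / ν ^ 3) + Mb * E ^ (3 / 2 : ℝ) / ν ^ 3
      + a * (1 + Z / ν ^ 2)) * ν ^ 2 := by positivity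
    rw [e1, hX]
    nlinarith
  -- the exponential
  have h2 : Real.exp (D * c * Real.log (N / (C * X)) + D2 * A / ν * (E / (2 * ν)) + 1)
      ≤ N / (C * X) * Real.exp 1 := by
    rw [Real.exp_add]
    refine mul_le_mul_of_nonneg_right ?_ (Real.exp_pos _).le
    have e0 : N / (C * X) = Real.exp (Real.log (N / (C * X))) := (Real.exp_log hr0).symm
    set L := Real.log (N / (C * X)) with hL
    rw [e0]
    refine Real.exp_le_exp.2 ?_
    have e1 : D2 * A / ν * (E / (2 * ν)) = D2 / 2 * (A * E) / ν ^ 2 := by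
      field_simp
    have e2 : D2 / 2 * (A * E) / ν ^ 2 ≤ D2 * c * L := by
      rw [div_le_iff₀ (by positivity)]
      have a1 : D2 / 2 * (A * E) ≤ D2 / 2 * (c * (ν ^ 2 * L)) := by gcongr
      have a2 : 0 ≤ D2 / 2 * (c * (ν ^ 2 * L)) := by positivity
      linarith
    rw [e1]
    calc D * c * L + D2 / 2 * (A * E) / ν ^ 2
        ≤ D * c * L + D2 * c * L := by linarith
      _ = ((D + D2) * c) * L := by ring
      _ ≤ 1 * L := mul_le_mul_of_nonneg_right hc hlog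
      _ = L := one_mul _
  calc (a * Real.sqrt E * Mb * (E / (2 * ν)) + ν ^ 2 + Z)
      * Real.exp (D * c * Real.log (N / (C * X)) + D2 * A / ν * (E / (2 * ν)) + 1)
      ≤ ((a + 1) * X * ν ^ 2) * (N / (C * X) * Real.exp 1) := by
        refine mul_le_mul h1 h2 (Real.exp_pos _).le ?_
        positivity
    _ = Real.exp 1 * (a + 1) * (ν ^ 2 * N / C) := by
        field_simp
    _ < κ * C * (ν ^ 2 * N / C) := mul_lt_mul_of_pos_right hCκ (by positivity)
    _ = κ * (ν ^ 2 * N) := by field_simp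

theorem windows {p : ℝ≥0∞} (hp : 3 < p) {q : ℝ} (hpq : 3 * (p⁻¹).toReal + 2 / q = 1) {K : ℝ}
    (hK : 0 ≤ K) :
    ∃ c C κ : ℝ, 0 < c ∧ 0 < C ∧ 0 < κ ∧ ∀ (ν T M N X A : ℝ) (u : ℝ → V → V) (P : ℝ → V → ℝ)
      (β : ℝ → ℝ), 0 < ν → IsSol ν T u P → 1 ≤ M → 0 < N →
      X = C * (1 + M ^ (5 / 2 : ℝ) * energy (u 0) ^ (3 / 2 : ℝ) / ν ^ 3
        + enstrophy (u 0) / ν ^ 2) →
      A * energy (u 0) ≤ c * (ν ^ 2 * Real.log (N / X)) →
      (∀ t ∈ Ioo 0 T, 0 ≤ β t) → IntegrableOn (fun t => β t ^ q) (Ioo 0 T) →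
      ∫ t in Ioo 0 T, β t ^ q ≤ c * (ν ^ (q - 1) * Real.log (N / X)) →
      (∀ t ∈ Ioo 0 T, ∃ (v w : V → V) (Q : Set K3), SPV v ∧ SPV w ∧ DimTwo A Q ∧
          (∀ i k, M < len k → len k ≤ N → fr (fun x => v x i) k = 0) ∧
          (∀ i, ∀ k ∉ Q, fr (fun x => w x i) k = 0) ∧
          energy v ≤ K ^ 2 * energy (u t) ∧ enstrophy v ≤ K ^ 2 * enstrophy (u t) ∧
          palin v ≤ K ^ 2 * palin (u t) ∧ enstrophy w ≤ K ^ 2 * enstrophy (u t) ∧
          ∀ i, eLpNorm (fun x => u t x i - v x i - w x i) p (volume.restrict cube)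
            ≤ ENNReal.ofReal (β t)) →
      (∀ t ∈ Ico 0 T, enstrophy (u t) < κ * (ν ^ 2 * N)) ∧
      ∃ R, ∀ t ∈ Ico 0 T, ∀ x i, |u t x i| ≤ R := by
  have hθ1 : th p < 1 := th_lt_one hp
  have hq : q = 2 / (1 - th p) := by
    have h1 : 2 / q = 1 - th p := by
      have : th p = 3 * (p⁻¹).toReal := rfl
      rw [this]
      linarith
    rw [← h1]
    have : q ≠ 0 := by
      intro h0
      rw [h0, div_zero] at h1
      linarith
    field_simp
  obtain ⟨D, D2, κ, hD0, hD20, hκ, hprod⟩ := prod_le hp hK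
  have hpi := Real.pi_pos
  set a : ℝ := 162 * (2 * Real.pi * Real.sqrt 27 * K) * K ^ 2 with ha
  have ha0 : 0 ≤ a := by positivity
  refine ⟨1 / (D + D2 + 1), (Real.exp 1 * (a + 1) + 1) / κ, κ,
    by positivity, by positivity, hκ, ?_⟩
  set c : ℝ := 1 / (D + D2 + 1) with hc
  have hc0 : 0 < c := by positivity
  have hDc : (D + D2) * c ≤ 1 := by
    have h1 : (D + D2 + 1) * c = 1 := by
      rw [hc]
      field_simp
    linarith [hc0.le, add_mul (D + D2) 1 c]
  set C : ℝ := (Real.exp 1 * (a + 1) + 1) / κ with hC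
  have hC0 : 0 < C := by positivity
  have hCκ : Real.exp 1 * (a + 1) < κ * C := by
    rw [hC, mul_div_cancel₀ _ hκ.ne']
    linarith
  intro ν T M N X A u P β hν h hM1 hNpos hX hAE hβ0 hβi hβ hcomp
  rcases le_or_gt T 0 with hT | hT
  · exact ⟨fun t ht => absurd (ht.1.trans_lt ht.2) (by linarith),
      0, fun t ht => absurd (ht.1.trans_lt ht.2) (by linarith)⟩
  set E0 := energy (u 0) with hE0
  have hE00 : 0 ≤ E0 := energy_nonneg _
  have hM0 : 0 < M := by linarith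
  have hA : 0 ≤ A := by
    obtain ⟨v, w, Q, -, -, hQ, -⟩ := hcomp (T / 2) ⟨by linarith, by linarith⟩
    exact hQ.nonneg
  set L := Real.log (N / X) with hL
  have hL0 : 0 ≤ L := by
    have h1 : 0 ≤ ∫ t in Ioo 0 T, β t ^ q :=
      setIntegral_nonneg measurableSet_Ioo fun s hs => Real.rpow_nonneg (hβ0 s hs) q
    have h2 : 0 ≤ (c * ν ^ (q - 1)) * L := by
      have : (c * ν ^ (q - 1)) * L = c * (ν ^ (q - 1) * L) := by ring
      rw [this]
      exact h1.trans hβ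
    exact nonneg_of_mul_nonneg_right h2 (by positivity)
  set g3 : ℝ := 162 * (2 * Real.pi * M * Real.sqrt (27 * M ^ 3) * (K * Real.sqrt E0)) * K ^ 2
    with hg3
  have hg3e : g3 = a * Real.sqrt E0 * M ^ (5 / 2 : ℝ) := by
    have e1 := mul_sqrt_cube hM0
    rw [hg3, ha]
    linear_combination (162 * (2 * Real.pi * (K * Real.sqrt E0)) * K ^ 2) * e1
  have hg30 : 0 ≤ g3 := by rw [hg3e]; positivity
  have hβ1 : ∀ t ∈ Ico 0 T, IntegrableOn (fun s => β s ^ q) (Icc 0 t) := by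
    intro t ht
    rw [integrableOn_Icc_iff_integrableOn_Ioc, integrableOn_Ioc_iff_integrableOn_Ioo]
    exact hβi.mono_set (Ioo_subset_Ioo_right ht.2.le)
  have hfin : (g3 * (E0 / (2 * ν)) + ν ^ 2 + enstrophy (u 0))
      * Real.exp (D * c * L + D2 * A / ν * (E0 / (2 * ν)) + 1) < κ * (ν ^ 2 * N) := by
    rw [hg3e, hL, hX]
    refine final_ineq hD20 hDc hc0.le ha0 hκ hν hNpos hE00 (enstrophy_nonneg _) (by positivity)
      rfl hC0 hCκ ?_ ?_
    · rw [← hX]
      exact hL0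
    · rw [← hX]
      exact hAE
  have hmain : ∀ t ∈ Ico 0 T, enstrophy (u t) < κ * (ν ^ 2 * N) := by
    intro t' ht'
    refine boot0 h hν ht' (g1 := fun s => D * ν ^ (1 - q) * β s ^ q) (g2 := D2 * A / ν) (g3 := g3)
      (B1 := D * c * L) (Kn := κ * (ν ^ 2 * N)) (A := ν ^ 2) (by positivity)
      (fun s hs => ?_) ((hβ1 t' ht').const_mul _) (fun t ht => ?_) (by positivity) hg30
      (fun s hs hsK => ?_) hfin t' ⟨ht'.1, le_rfl⟩
    · have := Real.rpow_nonneg (hβ0 s ⟨hs.1, hs.2.trans ht'.2⟩) q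
      positivity
    · rw [intervalIntegral.integral_const_mul]
      have a1 : ∫ s in (0 : ℝ)..t, β s ^ q ≤ ∫ s in Ioo 0 T, β s ^ q := by
        rw [intervalIntegral.integral_of_le ht.1, integral_Ioc_eq_integral_Ioo]
        refine setIntegral_mono_set hβi ?_
          (Ioo_subset_Ioo_right (ht.2.trans ht'.2.le)).eventuallyLE
        filter_upwards [ae_restrict_mem measurableSet_Ioo] with s hs
        exact Real.rpow_nonneg (hβ0 s hs) q
      have a2 : ∫ s in (0 : ℝ)..t, β s ^ q ≤ c * (ν ^ (q - 1) * L) := a1.trans hβ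
      have a3 : ν ^ (1 - q) * ν ^ (q - 1) = 1 := by
        rw [← Real.rpow_add hν]
        simp
      calc D * ν ^ (1 - q) * ∫ s in (0 : ℝ)..t, β s ^ q
          ≤ D * ν ^ (1 - q) * (c * (ν ^ (q - 1) * L)) := by gcongr
        _ = D * c * L * (ν ^ (1 - q) * ν ^ (q - 1)) := by ring
        _ = D * c * L := by rw [a3, mul_one]
    · have hs' : s ∈ Ioo 0 T := ⟨hs.1, hs.2.trans ht'.2⟩
      have hI : s ∈ Ico 0 T := ⟨hs'.1.le, hs'.2⟩
      obtain ⟨v, w, Q, hv, hw, hQ, hvk, hwQ, hvE, hvG, hvH, hwG, hLp⟩ := hcomp s hs'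
      set G := Real.sqrt (enstrophy (u s)) with hG
      set H := Real.sqrt (palin (u s)) with hH
      have hG2 : G ^ 2 = enstrophy (u s) := Real.sq_sqrt (enstrophy_nonneg _)
      have hH2 : H ^ 2 = palin (u s) := Real.sq_sqrt (palin_nonneg _)
      have hG0 : 0 ≤ G := Real.sqrt_nonneg _
      have hH0 : 0 ≤ H := Real.sqrt_nonneg _
      have ha' : GH2 (fun i x => u s x i) G H :=
        ⟨fun i => h.sp hI i, hG0, hH0, hG2.symm.le, hH2.symm.le⟩
      have hv' : GH2 (fun i x => v x i) (K * G) (K * H) :=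
        ⟨hv.sp, by positivity, by positivity, by rw [mul_pow, hG2]; exact hvG,
          by rw [mul_pow, hH2]; exact hvH⟩
      have hvn : ∀ i, nrm (fun x => v x i) ≤ K * Real.sqrt E0 := by
        intro i
        have h1 : nrm (fun x => v x i) ^ 2 ≤ (K * Real.sqrt E0) ^ 2 := by
          rw [nrm_sq, mul_pow, Real.sq_sqrt hE00]
          have a1 : ∫ x in cube, v x i ^ 2 ≤ energy v :=
            Finset.single_le_sum (f := fun i => ∫ x in cube, v x i ^ 2)
              (fun _ _ => integral_nonneg fun _ => sq_nonneg _) (Finset.mem_univ i)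
          have a2 := h.energy_le hν hI
          exact a1.trans (hvE.trans (mul_le_mul_of_nonneg_left a2 (sq_nonneg K)))
        exact (pow_le_pow_iff_left₀ (nrm_nonneg _) (by positivity) (by norm_num)).1 h1
      have key := hprod ν (β s) A M N (Real.sqrt E0) G H (fun i x => u s x i) (fun i x => v x i)
        (fun i x => w x i) Q hν (hβ0 s hs') hM1 hNpos (Real.sqrt_nonneg _) ha' hv' hvn
        hvk hQ hw.sp hwQ
        (by rw [mul_pow, hG2]; exact hwG) hLp (by rw [hG2]; exact hsK)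
      have e1 : ν * (β s / ν) ^ (2 / (1 - th p)) = ν ^ (1 - q) * β s ^ q := by
        rw [← hq, Real.div_rpow (hβ0 s hs') hν.le, Real.rpow_sub hν, Real.rpow_one]
        ring
      rw [e1, hG2, hH2] at key
      refine key.trans (le_of_eq ?_)
      ring
  exact ⟨hmain, bounded_of_enstrophy h hν fun t ht => (hmain t ht).le⟩

end Pool.Agent.W734.NS
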